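import Pool.Agent.V7H39.HS.Geo1

/-!
# The ring of algebraic classes of a blow-up
-/

set_option autoImplicit false

open CategoryTheory AlgebraicGeometry

universe u v

namespace Pool.Agent.V7H39.HS

open Pool.Agent.H914 Pool.Agent.H914.VarClass Pool.Agent.H914.VarClass.Obj
  Pool.Agent.H914.WeilCohomology Module

variable {k : Type u} [Field k] {𝒱 : VarClass k} {ops : CycleOps 𝒱}
  {W : WeilCohomology.{u, v} ops}

attribute [local instance] ratAlg

/-- a linear map between cohomologies, on the centres -/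
noncomputable def onR {X Y : 𝒱.Obj} (φ : W.H X →ₗ[W.K] W.H Y) : CR W X →ₗ[ℚ] CR W Y :=
  (toR W Y ∘ₗ φ.restrictScalars ℚ) ∘ₗ (Subalgebra.center ℚ (W.H X)).val.toLinearMap

lemma onR_apply {X Y : 𝒱.Obj} (φ : W.H X →ₗ[W.K] W.H Y) (x : CR W X) :
    onR φ x = toR W Y (φ (x : W.H X)) := rfl

lemma coe_onR {X Y : 𝒱.Obj} {φ : W.H X →ₗ[W.K] W.H Y} {x : CR W X} {j : ℕ}
    (h : φ (x : W.H X) ∈ algClasses W Y j) : ((onR φ x : CR W Y) : W.H Y) = φ x := by
  rw [onR_apply, coe_toR_alg h]

namespace IsBlowup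

variable {X Z Y E : 𝒱.Obj} {f : Y ⟶ X} {s : Z ⟶ X} {i : E ⟶ Y} {g : E ⟶ Z} {h : E.Cycles} {r : ℕ}

section facts

variable (B : IsBlowup W f s i g h r)

include B

lemma push_one : W.push f 1 = 1 := by
  have := B.birational
  rwa [W.cl_push, W.cl_fund, W.cl_fund] at this

lemma sq (x : W.H X) : W.map i (W.map f x) = W.map g (W.map s x) := by
  rw [← W.map_comp, B.square, W.map_comp]

lemma alg_h : W.cl E h ∈ algClasses W E 1 := ⟨h, B.isDiv, rfl⟩

lemma self {j : ℕ} {u : W.H E} (hu : u ∈ algClasses W E j) :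
    W.map i (W.push i u) = - (W.cl E h * u) := by
  obtain ⟨z, hz, rfl⟩ := hu
  have := B.selfInt j z hz
  rwa [W.cl_pull, W.cl_push, W.cl_mul] at this

lemma pg_eq : W.push g (W.cl E h ^ (r - 1)) = 1 := by
  have := B.bundle
  rwa [W.cl_push, cl_divPow, W.cl_fund, W.cl_fund, mul_one] at this

lemma pg_lt {t : ℕ} (ht : t + 1 < r) : W.push g (W.cl E h ^ t) = 0 := by
  have h1 := W.push_mem g (alg_even (alg_pow B.alg_h t))
  have h2 := B.dim_X
  have h3 := B.dim_E
  rw [grZ_of_neg (by omega)] at h1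
  exact (Submodule.mem_bot _).1 h1

omit B in
/-- projection formula for powers of the hyperplane class -/
lemma tr_pow (t : ℕ) (c : W.H Z) :
    W.tr E (W.cl E h ^ t * W.map g c) = W.tr Z (W.push g (W.cl E h ^ t) * c) := by
  rw [W.tr_push]

/-- the class of the exceptional divisor -/
lemma alg_e : W.push i 1 ∈ algClasses W Y 1 := by
  have h2 := B.dim_Y
  have h3 := B.dim_E
  exact alg_push i alg_one (by omega)

lemma map_e : W.map i (W.push i 1) = - W.cl E h := by
  rw [B.self alg_one, mul_one]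

lemma alg_piece {l a : ℕ} {c : W.H Z} (hc : c ∈ algClasses W Z l) :
    W.push i (W.cl E h ^ a * W.map g c) ∈ algClasses W Y (l + a + 1) := by
  have h2 := B.dim_Y
  have h3 := B.dim_E
  exact alg_push i (alg_mul (alg_pow B.alg_h a) (alg_map g hc)) (by omega)

/-- intersection numbers of a pull-back and an exceptional class -/
lemma tr_XZ {u l : ℕ} {x : W.H X} {c : W.H Z} {δ : W.H X} (hx : x ∈ algClasses W X u)
    (hc : c ∈ algClasses W Z l) (hδ : δ ∈ algClasses W X 1) (b t q : ℕ) :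
    W.tr Y (W.push i (W.cl E h ^ b * W.map g c) * W.map f x * (-W.push i 1) ^ t *
        W.map f δ ^ q) =
      W.tr Z (W.push g (W.cl E h ^ (b + t)) * (c * W.map s x * W.map s δ ^ q)) := by
  rw [← tr_pow]
  rw [mul_assoc, mul_assoc, W.tr_push]
  congr 1
  rw [map_mul, map_mul, map_pow, map_neg, B.map_e, neg_neg, map_pow, B.sq, B.sq, map_mul, map_mul,
    map_pow]
  obtain ⟨H, hH⟩ : ∃ H : CR W E, (H : W.H E) = W.cl E h := ⟨⟨_, alg_center B.alg_h⟩, rfl⟩
  obtain ⟨c', hc'⟩ : ∃ H : CR W E, (H : W.H E) = W.map g c := ⟨⟨_, alg_center (alg_map g hc)⟩, rfl⟩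
  obtain ⟨x', hx'⟩ : ∃ H : CR W E, (H : W.H E) = W.map g (W.map s x) :=
    ⟨⟨_, alg_center (alg_map g (alg_map s hx))⟩, rfl⟩
  obtain ⟨δ', hδ'⟩ : ∃ H : CR W E, (H : W.H E) = W.map g (W.map s δ) :=
    ⟨⟨_, alg_center (alg_map g (alg_map s hδ))⟩, rfl⟩
  rw [← hH, ← hc', ← hx', ← hδ']
  have key : H ^ b * c' * (x' * (H ^ t * δ' ^ q)) = H ^ (b + t) * (c' * x' * δ' ^ q) := by ring
  exact_mod_cast congrArg (Subtype.val) key

/-- intersection numbers of two exceptional classes -/
lemma tr_ZZ {l l' : ℕ} {c c' : W.H Z} {δ : W.H X}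
    (hc : c ∈ algClasses W Z l) (hc' : c' ∈ algClasses W Z l') (hδ : δ ∈ algClasses W X 1)
    (a b t q : ℕ) :
    W.tr Y (W.push i (W.cl E h ^ a * W.map g c) * W.push i (W.cl E h ^ b * W.map g c') *
        (-W.push i 1) ^ t * W.map f δ ^ q) =
      - W.tr Z (W.push g (W.cl E h ^ (a + b + t + 1)) * (c * c' * W.map s δ ^ q)) := by
  rw [← tr_pow]
  rw [mul_assoc, mul_assoc, W.tr_push, ← map_neg (W.tr E)]
  congr 1
  rw [map_mul (W.map i), map_mul (W.map i), map_pow (W.map i), map_neg (W.map i), B.map_e,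
    neg_neg, map_pow (W.map i), B.sq, map_mul (W.map g), map_mul (W.map g),
    map_pow (W.map g), B.self (alg_mul (alg_pow B.alg_h b) (alg_map g hc'))]
  obtain ⟨H, hH⟩ : ∃ H : CR W E, (H : W.H E) = W.cl E h := ⟨⟨_, alg_center B.alg_h⟩, rfl⟩
  obtain ⟨d, hd⟩ : ∃ H : CR W E, (H : W.H E) = W.map g c := ⟨⟨_, alg_center (alg_map g hc)⟩, rfl⟩
  obtain ⟨d', hd'⟩ : ∃ H : CR W E, (H : W.H E) = W.map g c' :=
    ⟨⟨_, alg_center (alg_map g hc')⟩, rfl⟩
  obtain ⟨δ', hδ'⟩ : ∃ H : CR W E, (H : W.H E) = W.map g (W.map s δ) :=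
    ⟨⟨_, alg_center (alg_map g (alg_map s hδ))⟩, rfl⟩
  rw [← hH, ← hd, ← hd', ← hδ']
  have key : H ^ a * d * ((H * (H ^ b * d')) * (H ^ t * δ' ^ q)) =
      H ^ (a + b + t + 1) * (d * d' * δ' ^ q) := by ring
  rw [neg_mul, mul_neg]
  congr 1
  exact_mod_cast congrArg (Subtype.val) key

/-- intersection numbers of two pull-backs -/
lemma tr_XX (x x' δ : W.H X) (q : ℕ) :
    W.tr Y (W.map f x * W.map f x' * W.map f δ ^ q) = W.tr X (x * x' * δ ^ q) := by
  rw [← map_pow, ← map_mul, ← map_mul]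
  have h1 := W.tr_push f 1 (x * x' * δ ^ q)
  rw [B.push_one, one_mul, one_mul] at h1
  exact h1.symm

end facts

section main

variable (B : IsBlowup W f s i g h r) {D : X.Cycles} (hD : X.IsCyc 1 D)

/-- the block of the blown up variety -/
noncomputable def blkX : Blk (GX W Y) where
  R := CR W X
  G := GX W X
  l := toR W X (W.cl X D)
  k := 0
  d := 0
  γ := 1
  β a := if a = 0 then onR (W.map f).toLinearMap else 0
  hγ := one_pos
  hn := B.dim_Y.symm
  hl := toR_mem ⟨D, hD, rfl⟩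
  β_mem := by
    intro a ha i c hc
    obtain rfl : a = 0 := by omega
    rw [if_pos rfl]
    exact toR_mem (alg_map f hc)
  β_triv := by
    intro a ha i c hc hT
    obtain rfl : a = 0 := by omega
    rw [if_pos rfl]
    intro i' hi' y hy
    have hc : (c : W.H X) ∈ algClasses W X i := hc
    have hy' : (y : W.H Y) ∈ algClasses W Y i' := hy
    rw [GX_n] at hi'
    have hp : W.push f y ∈ algClasses W X i' := alg_push f hy' (by rw [B.dim_Y])
    have h1 := hT i' (by rw [GX_n, ← B.dim_Y]; omega) _ (toR_mem hp)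
    rw [GX_tr] at h1 ⊢
    have e1 : ((c * toR W X (W.push f y) : CR W X) : W.H X) = (c : W.H X) * W.push f y := by
      rw [Subalgebra.coe_mul, coe_toR_alg hp]
    have e2 : ((onR (W.map f).toLinearMap c * y : CR W Y) : W.H Y) = W.map f c * y := by
      rw [Subalgebra.coe_mul]
      congr 1
      exact coe_onR (φ := (W.map f).toLinearMap) (alg_map f hc)
    rw [e1] at h1
    rw [e2, W.even_comm (alg_even (alg_map f hc)), ← W.tr_push,
      W.even_comm (alg_even hp)]
    exact h1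

/-- the linear map `c ↦ i_* (h ^ a g^* c)` -/
noncomputable def pieceMap (W : WeilCohomology.{u, v} ops) (i : E ⟶ Y) (g : E ⟶ Z)
    (h : E.Cycles) (a : ℕ) : W.H Z →ₗ[W.K] W.H Y :=
  W.push i ∘ₗ LinearMap.mulLeft W.K (W.cl E h ^ a) ∘ₗ (W.map g).toLinearMap

omit B in
lemma pieceMap_apply (a : ℕ) (c : W.H Z) :
    pieceMap W i g h a c = W.push i (W.cl E h ^ a * W.map g c) := rfl

/-- the block of the centre -/
noncomputable def blkZ : Blk (GX W Y) where
  R := CR W Z
  G := GX W Z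
  l := toR W Z (W.cl Z (ops.pull s D))
  k := r - 2
  d := 1
  γ := 1
  β a := onR (pieceMap W i g h a)
  hγ := one_pos
  hn := by
    have h1 := B.dim_X
    have h2 := B.dim_Y
    have h3 := B.two_le
    rw [GX_n, GX_n]
    omega
  hl := toR_mem ⟨_, ops.pull_mem s hD, rfl⟩
  β_mem := by
    intro a _ i c hc
    exact toR_mem (B.alg_piece hc)
  β_triv := by
    intro a _ l c hc hT
    by_cases hl : Z.dim < l
    · have h0 : c = 0 := Subtype.ext (alg_top hl hc)
      rw [h0, map_zero]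
      exact (GX W Y).triv_zero _
    · intro i' hi' y hy
      have hc : (c : W.H Z) ∈ algClasses W Z l := hc
      have hy' : (y : W.H Y) ∈ algClasses W Y i' := hy
      rw [GX_n] at hi'
      have d1 := B.dim_X
      have d2 := B.dim_Y
      have d3 := B.dim_E
      have hm : W.cl E h ^ a * W.map i y ∈ algClasses W E (a + i') :=
        alg_mul (alg_pow B.alg_h a) (alg_map i hy')
      have hp : W.push g (W.cl E h ^ a * W.map i y) ∈ algClasses W Z (Z.dim - l) :=
        alg_push g hm (by omega)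
      have h1 := hT (Z.dim - l) (by rw [GX_n]; omega) _ (toR_mem hp)
      rw [GX_tr] at h1 ⊢
      have e1 : ((c * toR W Z (W.push g (W.cl E h ^ a * W.map i y)) : CR W Z) : W.H Z) =
          (c : W.H Z) * W.push g (W.cl E h ^ a * W.map i y) := by
        rw [Subalgebra.coe_mul, coe_toR_alg hp]
      have e2 : ((onR (pieceMap W i g h a) c * y : CR W Y) : W.H Y) =
          W.push i (W.cl E h ^ a * W.map g c) * y := by
        rw [Subalgebra.coe_mul]
        congr 1
        exact coe_onR (φ := pieceMap W i g h a) (B.alg_piece hc)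
      rw [e1] at h1
      have e3 : W.tr Y (W.push i (W.cl E h ^ a * W.map g c) * y) =
          W.tr Z (c * W.push g (W.cl E h ^ a * W.map i y)) := by
        rw [W.tr_push, W.even_comm (alg_even hc), W.tr_push,
          W.even_comm (alg_even (alg_pow B.alg_h a)), mul_assoc,
          W.even_comm (alg_even (alg_map g hc))]
      rw [e2, e3]
      exact h1

/-- the two blocks -/
noncomputable def blks : Bool → Blk (GX W Y)
  | true => B.blkX hD
  | false => B.blkZ hD

omit hD in
include B in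
lemma coe_ZZ {u u' : ℕ} {c c' : CR W Z} (hc : c ∈ (GX W Z).gr u) (hc' : c' ∈ (GX W Z).gr u')
    (hD : X.IsCyc 1 D) {a b t q : ℕ} :
    ((onR (pieceMap W i g h a) c * onR (pieceMap W i g h b) c' *
      toR W Y (-W.push i 1) ^ t * toR W Y (W.cl Y (ops.pull f D)) ^ q : CR W Y) : W.H Y) =
      W.push i (W.cl E h ^ a * W.map g (c : W.H Z)) *
        W.push i (W.cl E h ^ b * W.map g (c' : W.H Z)) *
      (-W.push i 1) ^ t * W.map f (W.cl X D) ^ q := by
  have hc : (c : W.H Z) ∈ algClasses W Z u := hc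
  have hc' : (c' : W.H Z) ∈ algClasses W Z u' := hc'
  rw [Subalgebra.coe_mul, Subalgebra.coe_mul, Subalgebra.coe_mul, Subalgebra.coe_pow,
    Subalgebra.coe_pow, coe_onR (φ := pieceMap W i g h a) (B.alg_piece hc),
    coe_onR (φ := pieceMap W i g h b) (B.alg_piece hc'),
    coe_toR (Subalgebra.neg_mem _ (alg_center B.alg_e)),
    coe_toR_alg ⟨_, ops.pull_mem f hD, rfl⟩, W.cl_pull]
  rfl

omit hD in
include B in
lemma coe_ZX {u u' : ℕ} {c : CR W Z} {x : CR W X} (hc : c ∈ (GX W Z).gr u)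
    (hx : x ∈ (GX W X).gr u') (hD : X.IsCyc 1 D) {a t q : ℕ} :
    ((onR (pieceMap W i g h a) c * onR (W.map f).toLinearMap x *
      toR W Y (-W.push i 1) ^ t * toR W Y (W.cl Y (ops.pull f D)) ^ q : CR W Y) : W.H Y) =
      W.push i (W.cl E h ^ a * W.map g (c : W.H Z)) * W.map f (x : W.H X) *
      (-W.push i 1) ^ t * W.map f (W.cl X D) ^ q := by
  have hc : (c : W.H Z) ∈ algClasses W Z u := hc
  have hx : (x : W.H X) ∈ algClasses W X u' := hx
  rw [Subalgebra.coe_mul, Subalgebra.coe_mul, Subalgebra.coe_mul, Subalgebra.coe_pow,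
    Subalgebra.coe_pow, coe_onR (φ := pieceMap W i g h a) (B.alg_piece hc),
    coe_onR (φ := (W.map f).toLinearMap) (alg_map f hx),
    coe_toR (Subalgebra.neg_mem _ (alg_center B.alg_e)),
    coe_toR_alg ⟨_, ops.pull_mem f hD, rfl⟩, W.cl_pull]
  rfl

omit B hD in
lemma coe_XX {u u' : ℕ} {x x' : CR W X} (hx : x ∈ (GX W X).gr u)
    (hx' : x' ∈ (GX W X).gr u') (hD : X.IsCyc 1 D) {q : ℕ} :
    ((onR (W.map f).toLinearMap x * onR (W.map f).toLinearMap x' *
      toR W Y (W.cl Y (ops.pull f D)) ^ q : CR W Y) : W.H Y) =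
      W.map f (x : W.H X) * W.map f (x' : W.H X) * W.map f (W.cl X D) ^ q := by
  have hx : (x : W.H X) ∈ algClasses W X u := hx
  have hx' : (x' : W.H X) ∈ algClasses W X u' := hx'
  rw [Subalgebra.coe_mul, Subalgebra.coe_mul, Subalgebra.coe_pow,
    coe_onR (φ := (W.map f).toLinearMap) (alg_map f hx),
    coe_onR (φ := (W.map f).toLinearMap) (alg_map f hx'),
    coe_toR_alg ⟨_, ops.pull_mem f hD, rfl⟩, W.cl_pull]
  rfl

include B hD

lemma van_ZZ {u u' : ℕ} {c c' : CR W Z} (hc : c ∈ (GX W Z).gr u) (hc' : c' ∈ (GX W Z).gr u')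
    {a b t q : ℕ} (hlt : a + b + t < r - 2) :
    (GX W Y).tr (onR (pieceMap W i g h a) c * onR (pieceMap W i g h b) c' *
      toR W Y (-W.push i 1) ^ t * toR W Y (W.cl Y (ops.pull f D)) ^ q) = 0 := by
  rw [GX_tr, B.coe_ZZ hc hc' hD, B.tr_ZZ (mem_GX.1 hc) (mem_GX.1 hc') ⟨D, hD, rfl⟩, B.pg_lt (by omega), zero_mul,
    map_zero, neg_zero, map_zero]

lemma van_ZX {u u' : ℕ} {c : CR W Z} {x : CR W X} (hc : c ∈ (GX W Z).gr u)
    (hx : x ∈ (GX W X).gr u') {a t q : ℕ} (hlt : a + t + 1 < r) :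
    (GX W Y).tr (onR (pieceMap W i g h a) c * onR (W.map f).toLinearMap x *
      toR W Y (-W.push i 1) ^ t * toR W Y (W.cl Y (ops.pull f D)) ^ q) = 0 := by
  rw [GX_tr, B.coe_ZX hc hx hD, B.tr_XZ (mem_GX.1 hx) (mem_GX.1 hc) ⟨D, hD, rfl⟩, B.pg_lt (by omega), zero_mul,
    map_zero, map_zero]

lemma eq_ZZ {u u' : ℕ} {c c' : CR W Z} (hc : c ∈ (GX W Z).gr u) (hc' : c' ∈ (GX W Z).gr u')
    {a b t q : ℕ} (heq : a + b + t = r - 2) :
    (GX W Y).tr (onR (pieceMap W i g h a) c * onR (pieceMap W i g h b) c' *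
      toR W Y (-W.push i 1) ^ t * toR W Y (W.cl Y (ops.pull f D)) ^ q) =
      (-1) ^ 1 * 1 * (GX W Z).tr (c * c' * toR W Z (W.cl Z (ops.pull s D)) ^ q) := by
  have hr := B.two_le
  rw [GX_tr, B.coe_ZZ hc hc' hD, B.tr_ZZ (mem_GX.1 hc) (mem_GX.1 hc') ⟨D, hD, rfl⟩,
    show a + b + t + 1 = r - 1 by omega, B.pg_eq, one_mul, map_neg, GX_tr, Subalgebra.coe_mul,
    Subalgebra.coe_mul, Subalgebra.coe_pow, coe_toR_alg ⟨_, ops.pull_mem s hD, rfl⟩, W.cl_pull]
  ring

lemma eq_XX {u u' : ℕ} {x x' : CR W X} (hx : x ∈ (GX W X).gr u)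
    (hx' : x' ∈ (GX W X).gr u') {q : ℕ} :
    (GX W Y).tr (onR (W.map f).toLinearMap x * onR (W.map f).toLinearMap x' *
      toR W Y (-W.push i 1) ^ 0 * toR W Y (W.cl Y (ops.pull f D)) ^ q) =
      (-1) ^ 0 * 1 * (GX W X).tr (x * x' * toR W X (W.cl X D) ^ q) := by
  rw [pow_zero, mul_one, GX_tr, coe_XX hx hx' hD, B.tr_XX, GX_tr, Subalgebra.coe_mul,
    Subalgebra.coe_mul, Subalgebra.coe_pow, coe_toR_alg ⟨D, hD, rfl⟩]
  ring

lemma compat : Compat (GX W Y) (toR W Y (W.cl Y (ops.pull f D))) (toR W Y (-W.push i 1))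
    (B.blks hD) where
  hF := toR_mem ⟨_, ops.pull_mem f hD, rfl⟩
  hξ := by
    rw [map_neg]
    exact ((GX W Y).gr 1).neg_mem (toR_mem B.alg_e)
  van := by
    have hr := B.two_le
    rintro (_ | _) (_ | _) a b t q u u' c c' hc hc' ha hb hdeg hlt
    · refine B.van_ZZ hD hc hc' ?_
      rcases hlt with h1 | h1
      · change 2 * (a + b + t) < (r - 2) + (r - 2) at h1
        omega
      · exact absurd rfl h1.1
    · have hle : 2 * (a + b + t) ≤ (r - 2) + 0 := by
        rcases hlt with h1 | h1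
        · exact h1.le
        · exact h1.2.le
      obtain rfl : b = 0 := by
        change b ≤ 0 at hb
        omega
      exact B.van_ZX hD hc hc' (by omega)
    · have hle : 2 * (a + b + t) ≤ 0 + (r - 2) := by
        rcases hlt with h1 | h1
        · exact h1.le
        · exact h1.2.le
      obtain rfl : a = 0 := by
        change a ≤ 0 at ha
        omega
      rw [mul_comm (((B.blks hD) true).β 0 c)]
      exact B.van_ZX hD hc' hc (by omega)
    · exfalso
      rcases hlt with h1 | h1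
      · change 2 * (a + b + t) < 0 + 0 at h1
        omega
      · exact h1.1 rfl
  eq := by
    rintro (_ | _) a b t q u u' c c' hc hc' hdeg hk
    · exact B.eq_ZZ hD hc hc' hk
    · change a + b + t = 0 at hk
      obtain rfl : a = 0 := by omega
      obtain rfl : b = 0 := by omega
      obtain rfl : t = 0 := by omega
      exact B.eq_XX hD hc hc'
  gen := by
    intro j z hz
    obtain ⟨y, hy, rfl⟩ := exists_cyc hz
    obtain ⟨x, c, hx, hc1, hc2, hyx⟩ := B.gen j y hy
    refine ⟨fun b a => match b with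
      | true => if a = 0 then toR W X (W.cl X x) else 0
      | false => toR W Z (W.cl Z (c a)), ?_, ?_, ?_⟩
    · rintro (_ | _) a u hu
      · exact toR_mem ⟨_, hc1 a u hu, rfl⟩
      · change u + a + 0 = j at hu
        change (if a = 0 then toR W X (W.cl X x) else 0) ∈ (GX W X).gr u
        by_cases ha : a = 0
        · obtain rfl : u = j := by omega
          rw [if_pos ha]
          exact toR_mem ⟨_, hx, rfl⟩
        · rw [if_neg ha]
          exact ((GX W X).gr u).zero_mem
    · rintro (_ | _) a ha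
      · change j < a + 1 at ha
        change toR W Z (W.cl Z (c a)) = 0
        rw [hc2 a (by omega), map_zero, map_zero]
      · change j < a + 0 at ha
        change (if a = 0 then toR W X (W.cl X x) else 0) = 0
        rw [if_neg (show a ≠ 0 by omega)]
    · have e1 : onR (W.map f).toLinearMap (toR W X (W.cl X x)) =
          toR W Y (W.cl Y (ops.pull f x)) := by
        rw [onR_apply, coe_toR_alg ⟨x, hx, rfl⟩, W.cl_pull]
        rfl
      have e2 : ∀ a ∈ Finset.range (r - 1), onR (pieceMap W i g h a)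
          (toR W Z (W.cl Z (c a))) =
          toR W Y (W.cl Y (ops.push i (divPow ops h a (ops.pull g (c a))))) := by
        intro a _
        have e3 : ((toR W Z (W.cl Z (c a)) : CR W Z) : W.H Z) = W.cl Z (c a) := by
          by_cases ha : j ≤ a
          · rw [hc2 a ha, map_zero, map_zero]
            rfl
          · exact coe_toR_alg ⟨_, hc1 a (j - a - 1) (by omega), rfl⟩
        rw [onR_apply, e3, W.cl_push, cl_divPow, W.cl_pull]
        rfl
      have e0 : toR W Y (W.cl Y y) - ((∑ a ∈ Finset.range (0 + 1),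
          (if a = 0 then onR (W.map f).toLinearMap else 0)
            (if a = 0 then toR W X (W.cl X x) else 0)) +
          ∑ a ∈ Finset.range (r - 2 + 1), onR (pieceMap W i g h a)
            (toR W Z (W.cl Z (c a)))) = 0 := by
        rw [zero_add, Finset.sum_range_one, if_pos rfl, if_pos rfl, hyx, map_add, map_sum,
          show r - 2 + 1 = r - 1 by have := B.two_le; omega, e1, Finset.sum_congr rfl e2, sub_self]
      rw [Fintype.sum_bool]
      have e4 := (GX W Y).triv_zero j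
      rw [← e0] at e4
      exact e4

lemma cyc_divisor (m : ℕ) : Y.IsCyc 1 (blowupDivisor ops f i D m) := by
  have d2 := B.dim_Y
  have d3 := B.dim_E
  have hE : Y.IsCyc 1 (ops.push i E.V.fundCycle) := ops.push_mem i E.V.fundCycle_mem (by omega)
  rw [blowupDivisor, sub_eq_add_neg, ← neg_one_smul ℚ]
  exact ((ops.pull_mem f hD).smul _).add (hE.smul _)

omit B hD in
lemma cl_divisor (m : ℕ) : toR W Y (W.cl Y (blowupDivisor ops f i D m)) =
    (m : ℚ) • toR W Y (W.cl Y (ops.pull f D)) + toR W Y (-W.push i 1) := by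
  rw [blowupDivisor, map_sub, W.cl_smul, ← rat_smul, map_sub, map_smul, W.cl_push, W.cl_fund,
    map_neg, sub_eq_add_neg]

/-- **The numerical conjecture of Hodge type for blow-ups.** -/
theorem hodge_large {p : ℕ} (hX : HodgeNumBelow ops X D p)
    (hZ : HodgeNumBelow ops Z (ops.pull s D) (p - 1)) :
    ∃ m₀, ∀ m ≥ m₀, HodgeNumBelow ops Y (blowupDivisor ops f i D m) p := by
  rcases Nat.eq_zero_or_pos p with hp | hp
  · refine ⟨0, fun m _ j hj => ?_⟩
    omega
  obtain ⟨m0, hm0⟩ := (B.compat hD).hr_large (p - 1) (by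
    rintro (_ | _) u hu hun
    · change u + 1 ≤ p - 1 at hu
      change 2 * u ≤ Z.dim at hun
      exact (hrat_iff (ops.pull_mem s hD) hun).2 (hZ u (by omega) hun)
    · change u + 0 ≤ p - 1 at hu
      change 2 * u ≤ X.dim at hun
      exact (hrat_iff hD hun).2 (hX u (by omega) hun))
  refine ⟨m0, fun m hm j hjp hj => ?_⟩
  rw [← hrat_iff (W := W) (B.cyc_divisor hD m) hj, cl_divisor]
  exact hm0 m hm j (by omega) hj

/-- **The converse.** -/
theorem hodge_conv {p : ℕ} (hLX : LefNumBelow ops X D p)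
    (hLZ : LefNumBelow ops Z (ops.pull s D) (p - 1))
    (hY : ∀ m₀, ∃ m ≥ m₀, HodgeNumBelow ops Y (blowupDivisor ops f i D m) p) :
    HodgeNumBelow ops X D p ∧ HodgeNumBelow ops Z (ops.pull s D) (p - 1) := by
  rcases Nat.eq_zero_or_pos p with hp | hp
  · exact ⟨fun j hj => by omega, fun j hj => by omega⟩
  have hcl := (B.compat hD).hr_closed (p - 1) (by
    rintro (_ | _) u hu hun
    · change u + 1 ≤ p - 1 at hu
      change 2 * u ≤ Z.dim at hun
      exact (lefat_iff (ops.pull_mem s hD) hun).2 (hLZ u (by omega) hun)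
    · change u + 0 ≤ p - 1 at hu
      change 2 * u ≤ X.dim at hun
      exact (lefat_iff hD hun).2 (hLX u (by omega) hun)) (by
    rw [Filter.frequently_atTop]
    intro m0
    obtain ⟨m, hm, h1⟩ := hY m0
    refine ⟨m, hm, fun j hjp hj => ?_⟩
    rw [← cl_divisor]
    exact (hrat_iff (B.cyc_divisor hD m) hj).2 (h1 j (by omega) hj))
  constructor
  · intro j hj hjn
    exact (hrat_iff hD hjn).1 (hcl true j (by change j + 0 ≤ p - 1; omega) hjn)
  · intro j hj hjn
    exact (hrat_iff (ops.pull_mem s hD) hjn).1 (hcl false j (by change j + 1 ≤ p - 1; omega) hjn)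

end main

end IsBlowup

end Pool.Agent.V7H39.HS
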