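import Pool.Agent.V7H39.HS.Fins

/-!
# Graded rings with a trace and the Hodge-Riemann property
-/

set_option autoImplicit false

namespace Pool.Agent.V7H39.HS

open Module Filter Topology

/-- A commutative rational algebra with subspaces of each degree, a trace, and a formal
dimension, in which finitely many elements detect numerical triviality in each degree. -/
structure GRing (R : Type*) [CommRing R] [Algebra ℚ R] where
  n : ℕ
  gr : ℕ → Submodule ℚ R
  tr : R →ₗ[ℚ] ℚ
  one_mem : (1 : R) ∈ gr 0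
  mul_mem : ∀ {i j : ℕ} {x y : R}, x ∈ gr i → y ∈ gr j → x * y ∈ gr (i + j)
  fin : ∀ i j, i + j = n → ∃ s : Finset R, (∀ t ∈ s, t ∈ gr i) ∧
    ∀ x ∈ gr j, (∀ t ∈ s, tr (x * t) = 0) → ∀ y ∈ gr i, tr (x * y) = 0

namespace GRing

variable {R : Type*} [CommRing R] [Algebra ℚ R] (G : GRing R)

/-- numerical triviality in degree `j` -/
def Triv (j : ℕ) (x : R) : Prop := ∀ i, i + j = G.n → ∀ y ∈ G.gr i, G.tr (x * y) = 0

/-- the Hodge-Riemann property in degree `j` -/
def HRat (L : R) (j : ℕ) : Prop :=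
  ∀ x ∈ G.gr j, (∀ i, i + 1 = j → ∀ y ∈ G.gr i, G.tr (x * y * L ^ (G.n - 2 * j + 1)) = 0) →
    ¬ G.Triv j x → 0 < (-1) ^ j * G.tr (x * x * L ^ (G.n - 2 * j))

/-- the Hodge-Riemann property in degrees at most `p` -/
def HRle (L : R) (p : ℕ) : Prop := ∀ j ≤ p, 2 * j ≤ G.n → G.HRat L j

/-- the Lefschetz property in degree `j` -/
def Lefat (L : R) (j : ℕ) : Prop :=
  ∀ x ∈ G.gr j, G.Triv (j + (G.n - 2 * j)) (x * L ^ (G.n - 2 * j)) → G.Triv j x

/-- the Lefschetz property in degrees at most `p` -/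
def Lefle (L : R) (p : ℕ) : Prop := ∀ j ≤ p, 2 * j ≤ G.n → G.Lefat L j

theorem pow_mem {L : R} (hL : L ∈ G.gr 1) (k : ℕ) : L ^ k ∈ G.gr k := by
  induction k with
  | zero => rw [pow_zero]; exact G.one_mem
  | succ k ih => rw [pow_succ]; exact G.mul_mem ih hL

theorem triv_zero (j : ℕ) : G.Triv j 0 := fun i _ y _ => by rw [zero_mul, map_zero]

variable {G}

theorem Triv.add {j : ℕ} {x y : R} (hx : G.Triv j x) (hy : G.Triv j y) : G.Triv j (x + y) := by
  intro i hi z hz
  rw [add_mul, map_add, hx i hi z hz, hy i hi z hz, add_zero]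

theorem Triv.sub {j : ℕ} {x y : R} (hx : G.Triv j x) (hy : G.Triv j y) : G.Triv j (x - y) := by
  intro i hi z hz
  rw [sub_mul, map_sub, hx i hi z hz, hy i hi z hz, sub_zero]

theorem Triv.smul {j : ℕ} {x : R} (hx : G.Triv j x) (c : ℚ) : G.Triv j (c • x) := by
  intro i hi z hz
  rw [smul_mul_assoc, map_smul, hx i hi z hz, smul_zero]

theorem Triv.sum {j : ℕ} {κ : Type*} {s : Finset κ} {x : κ → R}
    (hx : ∀ k ∈ s, G.Triv j (x k)) : G.Triv j (∑ k ∈ s, x k) := by
  intro i hi z hz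
  rw [Finset.sum_mul, map_sum]
  exact Finset.sum_eq_zero fun k hk => hx k hk i hi z hz

theorem Triv.mul {j k : ℕ} {x y : R} (hx : G.Triv j x) (hy : y ∈ G.gr k) :
    G.Triv (j + k) (x * y) := by
  intro i hi z hz
  rw [mul_assoc]
  exact hx (k + i) (by omega) _ (G.mul_mem hy hz)

theorem Triv.tr_pow {j i k : ℕ} {x y L : R} (hx : G.Triv j x) (hy : y ∈ G.gr i)
    (hL : L ∈ G.gr 1) (h : i + j + k = G.n) : G.tr (x * y * L ^ k) = 0 := by
  rw [mul_assoc]
  exact hx (i + k) (by omega) _ (G.mul_mem hy (G.pow_mem hL k))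

variable (G)

/-- a basis of the degree `j` part modulo numerical triviality -/
theorem exists_basis (j : ℕ) : ∃ (c : ℕ) (b : Fin c → R), (∀ l, b l ∈ G.gr j) ∧
    (∀ x ∈ G.gr j, ∃ a : Fin c → ℚ, G.Triv j (x - ∑ l, a l • b l)) ∧
    (∀ a : Fin c → ℚ, G.Triv j (∑ l, a l • b l) → a = 0) := by
  by_cases hj : j ≤ G.n
  · obtain ⟨S, ht, hdet⟩ := G.fin (G.n - j) j (by omega)
    let Φ : G.gr j →ₗ[ℚ] (S → ℚ) :=
      LinearMap.pi fun k => (G.tr ∘ₗ LinearMap.mulRight ℚ (k : R)) ∘ₗ (G.gr j).subtype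
    have hΦ : ∀ (x : G.gr j) (k : S), Φ x k = G.tr (x * k) := fun x k => rfl
    let β := Module.finBasis ℚ (LinearMap.range Φ)
    have hch : ∀ l, ∃ x : G.gr j, Φ x = β l := fun l => (β l).2
    choose b hb using hch
    refine ⟨_, fun l => (b l : R), fun l => (b l).2, ?_, ?_⟩
    · intro x hx
      let y : LinearMap.range Φ := ⟨Φ ⟨x, hx⟩, LinearMap.mem_range_self _ _⟩
      refine ⟨fun l => β.repr y l, ?_⟩
      have h1 : Φ (⟨x, hx⟩ - ∑ l, β.repr y l • b l) = 0 := by
        rw [map_sub, map_sum]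
        simp only [map_smul, hb]
        have h2 := congrArg (LinearMap.range Φ).subtype (β.sum_repr y)
        rw [map_sum] at h2
        simp only [map_smul] at h2
        rw [sub_eq_zero]
        exact h2.symm
      intro i hi z hz
      obtain rfl : i = G.n - j := by omega
      have hmem : x - ∑ l, β.repr y l • (b l : R) ∈ G.gr j :=
        (G.gr j).sub_mem hx ((G.gr j).sum_mem fun l _ => (G.gr j).smul_mem _ (b l).2)
      refine hdet _ hmem ?_ z hz
      intro k hk
      have h3 := congrFun h1 ⟨k, hk⟩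
      rw [hΦ] at h3
      have h4 : ((⟨x, hx⟩ - ∑ l, β.repr y l • b l : G.gr j) : R) =
          x - ∑ l, β.repr y l • (b l : R) := by
        rw [AddSubgroupClass.coe_sub, AddSubmonoidClass.coe_finsetSum]
        rfl
      rw [h4] at h3
      exact h3
    · intro a ha
      have h1 : Φ (∑ l, a l • b l) = 0 := by
        ext k
        rw [hΦ]
        have h4 : ((∑ l, a l • b l : G.gr j) : R) = ∑ l, a l • (b l : R) := by
          rw [AddSubmonoidClass.coe_finsetSum]
          rfl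
        rw [h4]
        exact ha _ (by omega) _ (ht k k.2)
      rw [map_sum] at h1
      simp only [map_smul, hb] at h1
      have h2 : ∑ l, a l • β l = 0 := by
        apply Subtype.ext
        rw [AddSubmonoidClass.coe_finsetSum]
        exact h1
      have h3 := Fintype.linearIndependent_iff.1 β.linearIndependent a h2
      exact funext h3
  · refine ⟨0, Fin.elim0, fun l => l.elim0, fun x _ => ⟨Fin.elim0, fun i hi => ?_⟩, fun a _ =>
      Subsingleton.elim _ _⟩
    omega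

/-- **Core lemma**: the Hodge-Riemann property of `D m` for large `m` from a limit of scaled
Gram matrices. -/
theorem core (D : ℕ → R) (hD : ∀ m, D m ∈ G.gr 1) (j : ℕ) (hj : 2 * j ≤ G.n)
    {ι κ : Type*} [Fintype ι] [Fintype κ] (v : ℕ → ι → R) (y : ℕ → κ → R)
    (ω : ℕ → ι → ℝ) (ρ : ℕ → κ → ℝ) (hω : ∀ᶠ m in atTop, ∀ i, 0 < ω m i)
    (hv : ∀ m i, v m i ∈ G.gr j) (hy : ∀ m k, ∃ i, i + 1 = j ∧ y m k ∈ G.gr i)
    (q : ι → ι → ℚ) (hs : ∀ i k, q i k = q k i) (M : κ → ι → ℚ)
    (hpos : ∀ w : ι → ℚ, (∀ k, ∑ i, M k i * w i = 0) → w ≠ 0 →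
      0 < ∑ i, ∑ k, q i k * w i * w k)
    (hQ : ∀ a b, Tendsto (fun m => (((-1) ^ j * G.tr (v m a * v m b * D m ^ (G.n - 2 * j)) : ℚ) : ℝ)
      * (ω m a * ω m b)) atTop (𝓝 (q a b : ℝ)))
    (hP : ∀ k a, Tendsto (fun m => (G.tr (v m a * y m k * D m ^ (G.n - 2 * j + 1)) : ℝ)
      * (ω m a * ρ m k)) atTop (𝓝 (M k a : ℝ)))
    (hgen : ∀ᶠ m in atTop, ∀ z ∈ G.gr j, ∃ w : ι → ℚ, G.Triv j (z - ∑ a, w a • v m a)) :
    ∀ᶠ m in atTop, G.HRat (D m) j := by
  classical
  have h0 := perturb q hs M hpos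
    (fun m a b => (((-1) ^ j * G.tr (v m a * v m b * D m ^ (G.n - 2 * j)) : ℚ) : ℝ)
      * (ω m a * ω m b))
    (fun m k a => (G.tr (v m a * y m k * D m ^ (G.n - 2 * j + 1)) : ℝ) * (ω m a * ρ m k))
    hQ hP
  filter_upwards [h0, hgen, hω] with m hm hg hω z hz hprim hnt
  obtain ⟨w, hw⟩ := hg z hz
  set t := z - ∑ a, w a • v m a with ht
  have hzt : z = (∑ a, w a • v m a) + t := by rw [ht]; ring
  have hS : ∑ a, w a • v m a ∈ G.gr j :=
    (G.gr j).sum_mem fun a _ => (G.gr j).smul_mem _ (hv m a)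
  have hw0 : w ≠ 0 := by
    rintro rfl
    apply hnt
    rw [hzt]
    simpa using hw
  have hwt : (fun a => (w a : ℝ) / ω m a) ≠ 0 := by
    intro h
    apply hw0
    funext a
    have h1 := congrFun h a
    have h2 : (w a : ℝ) / ω m a = 0 := h1
    rw [div_eq_zero_iff] at h2
    rcases h2 with h2 | h2
    · exact_mod_cast h2
    · exact absurd h2 (hω a).ne'
  have hk := hm (fun a => (w a : ℝ) / ω m a) ?_ hwt
  · have h1 : G.tr (z * z * D m ^ (G.n - 2 * j)) =
        ∑ a, ∑ b, w a * w b * G.tr (v m a * v m b * D m ^ (G.n - 2 * j)) := by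
      have h2 : G.tr (t * z * D m ^ (G.n - 2 * j)) = 0 := hw.tr_pow hz (hD m) (by omega)
      have h3 : G.tr (t * (∑ a, w a • v m a) * D m ^ (G.n - 2 * j)) = 0 :=
        hw.tr_pow hS (hD m) (by omega)
      have h4 : z * z * D m ^ (G.n - 2 * j) =
          (∑ a, w a • v m a) * (∑ a, w a • v m a) * D m ^ (G.n - 2 * j) +
          (t * z * D m ^ (G.n - 2 * j) + t * (∑ a, w a • v m a) * D m ^ (G.n - 2 * j)) := by
        rw [hzt]
        ring
      rw [h4, map_add, map_add, h2, h3, add_zero, add_zero]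
      rw [Finset.sum_mul_sum]
      simp only [Finset.sum_mul, map_sum]
      refine Finset.sum_congr rfl fun a _ => Finset.sum_congr rfl fun b _ => ?_
      rw [smul_mul_smul_comm, smul_mul_assoc, map_smul, smul_eq_mul]
    have h5 : (((-1) ^ j * G.tr (z * z * D m ^ (G.n - 2 * j)) : ℚ) : ℝ) =
        ∑ a, ∑ b, (((-1) ^ j * G.tr (v m a * v m b * D m ^ (G.n - 2 * j)) : ℚ) : ℝ)
          * (ω m a * ω m b) * ((w a : ℝ) / ω m a) * ((w b : ℝ) / ω m b) := by
      rw [h1, Finset.mul_sum]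
      push_cast
      refine Finset.sum_congr rfl fun a _ => ?_
      rw [Finset.mul_sum]
      refine Finset.sum_congr rfl fun b _ => ?_
      have ha := (hω a).ne'
      have hb := (hω b).ne'
      field_simp
    rw [← h5] at hk
    exact_mod_cast hk
  · intro k
    obtain ⟨i, hi, hyi⟩ := hy m k
    have h1 := hprim i hi _ hyi
    have h2 : G.tr (t * y m k * D m ^ (G.n - 2 * j + 1)) = 0 :=
      hw.tr_pow hyi (hD m) (by omega)
    have h3 : G.tr (z * y m k * D m ^ (G.n - 2 * j + 1)) =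
        ∑ a, w a * G.tr (v m a * y m k * D m ^ (G.n - 2 * j + 1)) := by
      have h4 : z * y m k * D m ^ (G.n - 2 * j + 1) =
          (∑ a, w a • v m a) * y m k * D m ^ (G.n - 2 * j + 1) +
          t * y m k * D m ^ (G.n - 2 * j + 1) := by
        rw [hzt]
        ring
      rw [h4, map_add, h2, add_zero]
      simp only [Finset.sum_mul, map_sum]
      refine Finset.sum_congr rfl fun a _ => ?_
      rw [smul_mul_assoc, smul_mul_assoc, map_smul, smul_eq_mul]
    rw [h1] at h3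
    have h5 : (0 : ℝ) = ∑ a, (w a : ℝ) * (G.tr (v m a * y m k * D m ^ (G.n - 2 * j + 1)) : ℝ) := by
      exact_mod_cast h3
    calc ∑ a, ((G.tr (v m a * y m k * D m ^ (G.n - 2 * j + 1)) : ℝ) * (ω m a * ρ m k)) *
          ((w a : ℝ) / ω m a)
        = ρ m k * ∑ a, (w a : ℝ) * (G.tr (v m a * y m k * D m ^ (G.n - 2 * j + 1)) : ℝ) := by
          rw [Finset.mul_sum]
          refine Finset.sum_congr rfl fun a _ => ?_
          have ha := (hω a).ne'
          field_simp
      _ = 0 := by rw [← h5, mul_zero]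

/-- **Core lemma, converse**: nonnegativity of the limit form on the kernel. -/
theorem core_closed (D : ℕ → R) (hD : ∀ m, D m ∈ G.gr 1) (j : ℕ) (hj : 2 * j ≤ G.n)
    {ι κ : Type*} [Fintype ι] [Fintype κ] (v : ℕ → ι → R) (y : ℕ → κ → R)
    (ω : ℕ → ι → ℝ) (ρ : ℕ → κ → ℝ) (hω : ∀ᶠ m in atTop, ∀ i, 0 < ω m i)
    (hρ : ∀ᶠ m in atTop, ∀ k, 0 < ρ m k)
    (hv : ∀ m i, v m i ∈ G.gr j) (q : ι → ι → ℚ) (M : κ → ι → ℚ)
    (hfull : ∀ y : κ → ℚ, (∀ i, ∑ k, y k * M k i = 0) → y = 0)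
    (hQ : ∀ a b, Tendsto (fun m => (((-1) ^ j * G.tr (v m a * v m b * D m ^ (G.n - 2 * j)) : ℚ) : ℝ)
      * (ω m a * ω m b)) atTop (𝓝 (q a b : ℝ)))
    (hP : ∀ k a, Tendsto (fun m => (G.tr (v m a * y m k * D m ^ (G.n - 2 * j + 1)) : ℝ)
      * (ω m a * ρ m k)) atTop (𝓝 (M k a : ℝ)))
    (hgen : ∀ᶠ m in atTop, ∀ i, i + 1 = j → ∀ z ∈ G.gr i,
      ∃ w : κ → ℚ, G.Triv i (z - ∑ a, w a • y m a))
    (hfreq : ∃ᶠ m in atTop, G.HRat (D m) j) :
    ∀ w : ι → ℚ, (∀ k, ∑ i, M k i * w i = 0) → 0 ≤ ∑ i, ∑ j, q i j * w i * w j := by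
  classical
  refine closed_limit q M hfull
    (fun m a b => (((-1) ^ j * G.tr (v m a * v m b * D m ^ (G.n - 2 * j)) : ℚ) : ℝ)
      * (ω m a * ω m b))
    (fun m k a => (G.tr (v m a * y m k * D m ^ (G.n - 2 * j + 1)) : ℝ) * (ω m a * ρ m k))
    hQ hP ?_
  refine (hfreq.and_eventually (hω.and (hρ.and hgen))).mono ?_
  rintro m ⟨hHR, hωm, hρm, hg⟩ w hw
  -- the unscaled statement over the rational numbers
  have hrat : ∀ u : ι → ℚ,
      (∀ k, ∑ a, G.tr (v m a * y m k * D m ^ (G.n - 2 * j + 1)) * u a = 0) →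
      0 ≤ ∑ a, ∑ b, ((-1) ^ j * G.tr (v m a * v m b * D m ^ (G.n - 2 * j))) * u a * u b := by
    intro u hu
    set z := ∑ a, u a • v m a with hz
    have hzm : z ∈ G.gr j := (G.gr j).sum_mem fun a _ => (G.gr j).smul_mem _ (hv m a)
    have hval : ∑ a, ∑ b, ((-1) ^ j * G.tr (v m a * v m b * D m ^ (G.n - 2 * j))) * u a * u b =
        (-1) ^ j * G.tr (z * z * D m ^ (G.n - 2 * j)) := by
      rw [hz, Finset.sum_mul_sum]
      simp only [Finset.sum_mul, map_sum, Finset.mul_sum]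
      refine Finset.sum_congr rfl fun a _ => Finset.sum_congr rfl fun b _ => ?_
      rw [smul_mul_smul_comm, smul_mul_assoc, map_smul, smul_eq_mul]
      ring
    rw [hval]
    by_cases ht : G.Triv j z
    · rw [ht.tr_pow hzm (hD m) (by omega), mul_zero]
    · refine (hHR z hzm ?_ ht).le
      intro i hi x hx
      obtain ⟨e, he⟩ := hg i hi x hx
      have h1 : z * x * D m ^ (G.n - 2 * j + 1) =
          (x - ∑ k, e k • y m k) * z * D m ^ (G.n - 2 * j + 1) +
          ∑ k, e k • ∑ a, u a • (v m a * y m k * D m ^ (G.n - 2 * j + 1)) := by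
        have h2 : ∑ k, e k • ∑ a, u a • (v m a * y m k * D m ^ (G.n - 2 * j + 1)) =
            (∑ k, e k • y m k) * z * D m ^ (G.n - 2 * j + 1) := by
          rw [Finset.sum_mul, Finset.sum_mul]
          refine Finset.sum_congr rfl fun k _ => ?_
          rw [smul_mul_assoc, smul_mul_assoc, hz, Finset.mul_sum, Finset.sum_mul]
          congr 1
          refine Finset.sum_congr rfl fun a _ => ?_
          rw [mul_smul_comm, smul_mul_assoc, mul_comm (y m k)]
        rw [h2]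
        ring
      rw [h1, map_add, he.tr_pow hzm (hD m) (by omega), zero_add, map_sum]
      refine Finset.sum_eq_zero fun k _ => ?_
      rw [map_smul, map_sum]
      have h3 := hu k
      have h4 : ∑ a, G.tr (u a • (v m a * y m k * D m ^ (G.n - 2 * j + 1))) =
          ∑ a, G.tr (v m a * y m k * D m ^ (G.n - 2 * j + 1)) * u a := by
        refine Finset.sum_congr rfl fun a _ => ?_
        rw [map_smul, smul_eq_mul, mul_comm]
      rw [h4, h3, smul_zero]
  have hreal := real_ext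
    (fun a b => (-1) ^ j * G.tr (v m a * v m b * D m ^ (G.n - 2 * j)))
    (fun a b => by rw [mul_comm (v m a)])
    (fun k a => G.tr (v m a * y m k * D m ^ (G.n - 2 * j + 1))) hrat (fun a => ω m a * w a) ?_
  · refine hreal.trans (le_of_eq ?_)
    refine Finset.sum_congr rfl fun a _ => Finset.sum_congr rfl fun b _ => ?_
    ring
  · intro k
    have h1 := hw k
    have h2 : ∑ a, (G.tr (v m a * y m k * D m ^ (G.n - 2 * j + 1)) : ℝ) * (ω m a * ρ m k) * w a =
        ρ m k * ∑ a, (G.tr (v m a * y m k * D m ^ (G.n - 2 * j + 1)) : ℝ) * (ω m a * w a) := by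
      rw [Finset.mul_sum]
      refine Finset.sum_congr rfl fun a _ => ?_
      ring
    rw [h2] at h1
    rcases mul_eq_zero.1 h1 with h3 | h3
    · exact absurd h3 (hρm k).ne'
    · exact h3

/-- the Lefschetz property gives the decomposition into a primitive element and a multiple -/
theorem lef_decomp {L : R} (hL : L ∈ G.gr 1) {i : ℕ} (hi : 2 * (i + 1) ≤ G.n) (h : G.Lefat L i)
    {x : R} (hx : x ∈ G.gr (i + 1)) : ∃ y ∈ G.gr i, ∀ y' ∈ G.gr i,
      G.tr ((x - y * L) * y' * L ^ (G.n - 2 * (i + 1) + 1)) = 0 := by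
  classical
  obtain ⟨c, b, hb1, hb2, hb3⟩ := G.exists_basis i
  set N := G.n - 2 * (i + 1) with hN
  have hNi : G.n - 2 * i = N + 2 := by omega
  let A : (Fin c → ℚ) →ₗ[ℚ] (Fin c → ℚ) :=
    LinearMap.pi fun k => ∑ l, (G.tr (b l * b k * L ^ (N + 2))) • LinearMap.proj l
  have hA : ∀ a k, A a k = G.tr ((∑ l, a l • b l) * b k * L ^ (N + 2)) := by
    intro a k
    simp only [A, LinearMap.pi_apply, LinearMap.sum_apply, LinearMap.smul_apply,
      LinearMap.proj_apply, smul_eq_mul, Finset.sum_mul, map_sum]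
    refine Finset.sum_congr rfl fun l _ => ?_
    rw [smul_mul_assoc, smul_mul_assoc, map_smul, smul_eq_mul, mul_comm]
  have hinj : Function.Injective A := by
    rw [← LinearMap.ker_eq_bot, LinearMap.ker_eq_bot']
    intro a ha
    apply hb3
    have hm : ∑ l, a l • b l ∈ G.gr i := (G.gr i).sum_mem fun l _ => (G.gr i).smul_mem _ (hb1 l)
    apply h _ hm
    rw [hNi]
    intro u hu y' hy'
    obtain rfl : u = i := by omega
    obtain ⟨e, he⟩ := hb2 y' hy'
    have h1 : (∑ l, a l • b l) * L ^ (N + 2) * y' =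
        (y' - ∑ k, e k • b k) * (∑ l, a l • b l) * L ^ (N + 2) +
        ∑ k, e k • ((∑ l, a l • b l) * b k * L ^ (N + 2)) := by
      have h2 : ∑ k, e k • ((∑ l, a l • b l) * b k * L ^ (N + 2)) =
          (∑ k, e k • b k) * (∑ l, a l • b l) * L ^ (N + 2) := by
        rw [Finset.sum_mul, Finset.sum_mul]
        refine Finset.sum_congr rfl fun k _ => ?_
        rw [smul_mul_assoc, smul_mul_assoc, mul_comm (b k)]
      rw [h2]
      ring
    rw [h1, map_add, he.tr_pow hm hL (by omega), zero_add, map_sum]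
    refine Finset.sum_eq_zero fun k _ => ?_
    rw [map_smul, ← hA, ha]
    change e k • (0 : ℚ) = 0
    rw [smul_zero]
  have hsurj := LinearMap.surjective_of_injective hinj
  obtain ⟨a, ha⟩ := hsurj (fun k => G.tr (x * b k * L ^ (N + 1)))
  have hm : ∑ l, a l • b l ∈ G.gr i := (G.gr i).sum_mem fun l _ => (G.gr i).smul_mem _ (hb1 l)
  refine ⟨∑ l, a l • b l, hm, fun y' hy' => ?_⟩
  obtain ⟨e, he⟩ := hb2 y' hy'
  set y := ∑ l, a l • b l with hy
  have hk : ∀ k, G.tr ((x - y * L) * b k * L ^ (N + 1)) = 0 := by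
    intro k
    have h1 := congrFun ha k
    rw [hA] at h1
    have h2 : (x - y * L) * b k * L ^ (N + 1) = x * b k * L ^ (N + 1) - y * b k * L ^ (N + 2) := by
      ring
    rw [h2, map_sub, h1, sub_self]
  have hmem : x - y * L ∈ G.gr (i + 1) := (G.gr _).sub_mem hx (G.mul_mem hm hL)
  clear_value y
  have h1 : (x - y * L) * y' * L ^ (N + 1) =
      (y' - ∑ k, e k • b k) * (x - y * L) * L ^ (N + 1) +
      ∑ k, e k • ((x - y * L) * b k * L ^ (N + 1)) := by
    have h2 : ∑ k, e k • ((x - y * L) * b k * L ^ (N + 1)) =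
        (∑ k, e k • b k) * (x - y * L) * L ^ (N + 1) := by
      rw [Finset.sum_mul, Finset.sum_mul]
      refine Finset.sum_congr rfl fun k _ => ?_
      rw [smul_mul_assoc, smul_mul_assoc, mul_comm (b k)]
    rw [h2]
    ring
  rw [h1, map_add, he.tr_pow hmem hL (by omega), zero_add, map_sum]
  refine Finset.sum_eq_zero fun k _ => ?_
  rw [map_smul, hk k, smul_zero]

/-- a semidefinite form on the primitive part is definite if the Lefschetz property holds -/
theorem hr_of_psd {L : R} (hL : L ∈ G.gr 1) {j : ℕ} (hj : 2 * j ≤ G.n) (hLj : G.Lefat L j)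
    (hLi : ∀ i, i + 1 = j → G.Lefat L i)
    (hpsd : ∀ x ∈ G.gr j,
      (∀ i, i + 1 = j → ∀ y ∈ G.gr i, G.tr (x * y * L ^ (G.n - 2 * j + 1)) = 0) →
      0 ≤ (-1) ^ j * G.tr (x * x * L ^ (G.n - 2 * j))) : G.HRat L j := by
  intro x hx hprim hnt
  set N := G.n - 2 * j with hN
  rcases (hpsd x hx hprim).lt_or_eq with h0 | h0
  · exact h0
  · exfalso
    apply hnt
    apply hLj x hx
    have hs0 : G.tr (x * x * L ^ N) = 0 := by
      rcases mul_eq_zero.1 h0.symm with h1 | h1
      · exact absurd h1 (pow_ne_zero _ (by norm_num))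
      · exact h1
    -- orthogonality to primitive elements
    have horth : ∀ x' ∈ G.gr j,
        (∀ i, i + 1 = j → ∀ y ∈ G.gr i, G.tr (x' * y * L ^ (N + 1)) = 0) →
        G.tr (x * x' * L ^ N) = 0 := by
      intro x' hx' hprim'
      by_contra hne
      set s := G.tr (x * x' * L ^ N) with hs
      set a := G.tr (x' * x' * L ^ N) with ha
      have hall : ∀ t : ℚ, 0 ≤ (-1) ^ j * (2 * t * s + t ^ 2 * a) := by
        intro t
        have h1 := hpsd (x + t • x') ((G.gr j).add_mem hx ((G.gr j).smul_mem _ hx')) (by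
          intro i hi y hy
          rw [add_mul, add_mul, map_add, hprim i hi y hy, smul_mul_assoc, smul_mul_assoc,
            map_smul, hprim' i hi y hy, smul_zero, add_zero])
        have h2 : (x + t • x') * (x + t • x') * L ^ N =
            x * x * L ^ N + (2 * t) • (x * x' * L ^ N) + (t ^ 2) • (x' * x' * L ^ N) := by
          simp only [Algebra.smul_def, map_mul, map_pow, map_ofNat]
          ring
        rw [h2, map_add, map_add, map_smul, map_smul, hs0, smul_eq_mul, smul_eq_mul,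
          zero_add] at h1
        exact h1
      have hsq : ((-1 : ℚ) ^ j) * ((-1) ^ j) = 1 := by
        rw [← mul_pow]
        norm_num
      have h1 : 0 < |a| + 1 := by positivity
      have h2 := hall (-((-1) ^ j * s) / (|a| + 1))
      have h3 : (-1 : ℚ) ^ j * (2 * (-((-1) ^ j * s) / (|a| + 1)) * s +
          (-((-1) ^ j * s) / (|a| + 1)) ^ 2 * a) =
          (s ^ 2 / (|a| + 1) ^ 2) * (-2 * (|a| + 1) * (((-1) ^ j) * ((-1) ^ j)) +
            (-1) ^ j * (((-1) ^ j) * ((-1) ^ j)) * a) := by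
        field_simp
      rw [h3, hsq] at h2
      have h4 : (-1 : ℚ) ^ j * a ≤ |a| := by
        rcases neg_one_pow_eq_or ℚ j with h5 | h5
        · rw [h5, one_mul]; exact le_abs_self a
        · rw [h5, neg_one_mul]; exact neg_le_abs a
      have h5 : 0 < s ^ 2 / (|a| + 1) ^ 2 := by positivity
      have h6 : -2 * (|a| + 1) * 1 + (-1) ^ j * 1 * a < 0 := by
        have := abs_nonneg a
        linarith
      nlinarith
    intro u hu y hy
    have hu' : u = j := by omega
    subst hu'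
    rw [mul_right_comm]
    rcases Nat.eq_zero_or_pos u with hu0 | hu0
    · exact horth y hy fun i hi => by omega
    · obtain ⟨i, rfl⟩ : ∃ i, u = i + 1 := ⟨u - 1, by omega⟩
      obtain ⟨y1, hy1, hdec⟩ := G.lef_decomp hL hj (hLi i rfl) hy
      have h1 := horth (y - y1 * L) ((G.gr _).sub_mem hy (G.mul_mem hy1 hL)) (by
        intro i' hi' y' hy'
        obtain rfl : i' = i := by omega
        exact hdec y' hy')
      have h2 := hprim i rfl y1 hy1
      have h3 : x * y * L ^ N = x * (y - y1 * L) * L ^ N + x * y1 * L ^ (N + 1) := by ring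
      rw [h3, map_add, h1, h2, add_zero]

/-- a shifted version of `exists_basis` -/
theorem exists_basis_shift (d j : ℕ) : ∃ (c : ℕ) (b : Fin c → R),
    (∀ l, ∃ u, u + d = j ∧ b l ∈ G.gr u) ∧
    (∀ u, u + d = j → ∀ x ∈ G.gr u, ∃ a : Fin c → ℚ, G.Triv u (x - ∑ l, a l • b l)) ∧
    (∀ a : Fin c → ℚ, (∀ u, u + d = j → G.Triv u (∑ l, a l • b l)) → a = 0) := by
  by_cases h : d ≤ j
  · obtain ⟨c, b, h1, h2, h3⟩ := G.exists_basis (j - d)
    refine ⟨c, b, fun l => ⟨j - d, by omega, h1 l⟩, ?_, ?_⟩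
    · intro u hu x hx
      obtain rfl : u = j - d := by omega
      exact h2 x hx
    · intro a ha
      exact h3 a (ha (j - d) (by omega))
  · refine ⟨0, Fin.elim0, fun l => l.elim0, fun u hu => ?_, fun a _ => Subsingleton.elim _ _⟩
    omega

/-- positivity of one block on primitive combinations -/
theorem block_pos {L : R} (hL : L ∈ G.gr 1) {i : ℕ} (hi : 2 * i ≤ G.n) (h : G.HRat L i)
    {c c' : ℕ} {b : Fin c → R} (hb : ∀ l, b l ∈ G.gr i)
    (hind : ∀ a : Fin c → ℚ, G.Triv i (∑ l, a l • b l) → a = 0) {y : Fin c' → R}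
    (hy : ∀ u, u + 1 = i → ∀ x ∈ G.gr u, ∃ a : Fin c' → ℚ, G.Triv u (x - ∑ l, a l • y l))
    {a : Fin c → ℚ}
    (ha : ∀ k, G.tr ((∑ l, a l • b l) * y k * L ^ (G.n - 2 * i + 1)) = 0) (ha0 : a ≠ 0) :
    0 < (-1) ^ i * G.tr ((∑ l, a l • b l) * (∑ l, a l • b l) * L ^ (G.n - 2 * i)) := by
  set z := ∑ l, a l • b l with hz
  have hzm : z ∈ G.gr i := (G.gr i).sum_mem fun l _ => (G.gr i).smul_mem _ (hb l)
  refine h z hzm ?_ fun ht => ha0 (hind a ht)
  intro u hu x hx
  obtain ⟨a', ha'⟩ := hy u hu x hx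
  have h1 : z * x * L ^ (G.n - 2 * i + 1) = (x - ∑ l, a' l • y l) * z * L ^ (G.n - 2 * i + 1) +
      ∑ l, a' l • (z * y l * L ^ (G.n - 2 * i + 1)) := by
    have h2 : ∑ l, a' l • (z * y l * L ^ (G.n - 2 * i + 1)) =
        (∑ l, a' l • y l) * z * L ^ (G.n - 2 * i + 1) := by
      rw [Finset.sum_mul, Finset.sum_mul]
      refine Finset.sum_congr rfl fun l _ => ?_
      rw [smul_mul_assoc, smul_mul_assoc, mul_comm z]
    rw [h2]
    ring
  rw [h1, map_add, ha'.tr_pow hzm hL (by omega), zero_add, map_sum]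
  refine Finset.sum_eq_zero fun l _ => ?_
  rw [map_smul, ha l, smul_zero]

/-- finitely many degrees -/
theorem HR_eventually (D : ℕ → R) (p : ℕ)
    (h : ∀ j ≤ p, 2 * j ≤ G.n → ∀ᶠ m in atTop, G.HRat (D m) j) :
    ∃ m0 : ℕ, ∀ m, m0 ≤ m → G.HRle (D m) p := by
  have h1 : ∀ᶠ m in atTop, ∀ j ∈ Finset.range (p + 1), 2 * j ≤ G.n → G.HRat (D m) j := by
    rw [Filter.eventually_all_finset]
    intro j hjp
    rw [Finset.mem_range] at hjp
    by_cases hj : 2 * j ≤ G.n
    · filter_upwards [h j (by omega) hj] with m hm _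
      exact hm
    · exact Filter.Eventually.of_forall fun m h => absurd h hj
  obtain ⟨m0, hm0⟩ := Filter.eventually_atTop.1 h1
  exact ⟨m0, fun m hm j hjp hj => hm0 m hm j (Finset.mem_range.2 (by omega)) hj⟩

end GRing

end Pool.Agent.V7H39.HS
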