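import Pool.Agent.H914R2.DDefs

/-!
# The standard conjecture of Hodge type for blow-ups and fibrations: definitions
-/

set_option autoImplicit false

open CategoryTheory AlgebraicGeometry

universe u v

namespace Pool.Agent.V7H39.HS

open Pool.Agent.H914 Pool.Agent.H914.VarClass Pool.Agent.H914.VarClass.Obj
  Pool.Agent.H914.WeilCohomology

variable {k : Type u} [Field k] {𝒱 : VarClass k} {ops : CycleOps 𝒱}

/-- The cycle `z` of codimension `j` on `X` is numerically trivial: its intersection numbers with all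
cycles of the complementary codimension vanish. -/
def NumTriv (ops : CycleOps 𝒱) (X : 𝒱.Obj) (j : ℕ) (z : X.Cycles) : Prop :=
  ∀ i, i + j = X.dim → ∀ w, X.IsCyc i w → X.V.degCycle (ops.mul z w) = 0

/-- The standard conjecture of Hodge type in codimension `j` for `X` and the divisor `D`, modulo
numerical equivalence: let `z` be a cycle of codimension `j` which is primitive (the cycle
`D ^ (n - 2 j + 1) · z` is numerically trivial, `n = dim X`) and not numerically trivial. Then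
the sign of the intersection number `z · z · D ^ (n - 2 j)` is `(-1) ^ j`. -/
def HodgeNumIn (ops : CycleOps 𝒱) (X : 𝒱.Obj) (D : X.Cycles) (j : ℕ) : Prop :=
  ∀ z, X.IsCyc j z → NumTriv ops X (X.dim - j + 1) (divPow ops D (X.dim - 2 * j + 1) z) →
    ¬ NumTriv ops X j z →
    0 < (-1 : ℚ) ^ j * X.V.degCycle (ops.mul z (divPow ops D (X.dim - 2 * j) z))

/-- The standard conjecture of Hodge type modulo numerical equivalence for `X` and the divisor `D`
in all codimensions `j < p` (with `2 j ≤ dim X`). For `2 p > dim X` this is the whole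
conjecture. -/
def HodgeNumBelow (ops : CycleOps 𝒱) (X : 𝒱.Obj) (D : X.Cycles) (p : ℕ) : Prop :=
  ∀ j < p, 2 * j ≤ X.dim → HodgeNumIn ops X D j

/-- The standard conjecture of Hodge type modulo numerical equivalence for `X` and the divisor `D`,
in all codimensions `j` with `2 j ≤ dim X`. -/
def HodgeNum (ops : CycleOps 𝒱) (X : 𝒱.Obj) (D : X.Cycles) : Prop :=
  ∀ j, 2 * j ≤ X.dim → HodgeNumIn ops X D j

/-- Injectivity of the Lefschetz operators modulo numerical equivalence in the codimensions `j < p`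
with `2 j ≤ n = dim X`: if `D ^ (n - 2 j) · z` is numerically trivial, then so is the cycle `z` of
codimension `j`. (This is a part of the standard conjecture of Lefschetz type.) -/
def LefNumBelow (ops : CycleOps 𝒱) (X : 𝒱.Obj) (D : X.Cycles) (p : ℕ) : Prop :=
  ∀ j < p, 2 * j ≤ X.dim → ∀ z, X.IsCyc j z →
    NumTriv ops X (X.dim - j) (divPow ops D (X.dim - 2 * j) z) → NumTriv ops X j z

/-- The morphism `f : Y ⟶ X` is birational, `f_* [Y] = [X]` up to homological equivalence. -/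
def PushesFund (W : WeilCohomology.{u, v} ops) {X Y : 𝒱.Obj} (f : Y ⟶ X) : Prop :=
  W.cl X (ops.push f Y.V.fundCycle) = W.cl X X.V.fundCycle

/-- The self-intersection formula `i^* i_* u = - h · u` for the divisor `i : E ⟶ Y`, up to
homological equivalence. -/
def SelfIntersection (W : WeilCohomology.{u, v} ops) {Y E : 𝒱.Obj} (i : E ⟶ Y)
    (h : E.Cycles) : Prop :=
  ∀ j u, E.IsCyc j u → W.cl E (ops.pull i (ops.push i u)) = - W.cl E (ops.mul h u)

/-- The normalization `g_* (h ^ (r - 1)) = [Z]` for the class `h` of `𝒪(1)` on the projective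
bundle `g : E ⟶ Z` with fibres of dimension `r - 1`, up to homological equivalence. -/
def BundleNormalized (W : WeilCohomology.{u, v} ops) {Z E : 𝒱.Obj} (g : E ⟶ Z) (h : E.Cycles)
    (r : ℕ) : Prop :=
  W.cl Z (ops.push g (divPow ops h (r - 1) E.V.fundCycle)) = W.cl Z Z.V.fundCycle

/-- Every cycle of codimension `j` on the blow-up `f : Y ⟶ X` is, up to homological equivalence,
the sum of `f^* x` and of the cycles `i_* (h ^ a · g^* (c a))`, `a < r - 1`, with `x` of
codimension `j` on `X` and `c a` of codimension `j - 1 - a` on the centre `Z`. -/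
def BlowupGenerated (W : WeilCohomology.{u, v} ops) {X Z Y E : 𝒱.Obj} (f : Y ⟶ X)
    (i : E ⟶ Y) (g : E ⟶ Z) (h : E.Cycles) (r : ℕ) : Prop :=
  ∀ j y, Y.IsCyc j y → ∃ (x : X.Cycles) (c : ℕ → Z.Cycles), X.IsCyc j x ∧
    (∀ a l, l + a + 1 = j → Z.IsCyc l (c a)) ∧ (∀ a, j ≤ a → c a = 0) ∧
    W.cl Y y = W.cl Y (ops.pull f x) +
      ∑ a ∈ Finset.range (r - 1), W.cl Y (ops.push i (divPow ops h a (ops.pull g (c a))))

/-- The morphism `f : Y ⟶ X` is the blow-up of `X` along the smooth subvariety `s : Z ⟶ X` of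
codimension `r`, with the exceptional divisor `i : E ⟶ Y`, the projective bundle `g : E ⟶ Z` and the
divisor `h` on `E` (the hyperplane class of the bundle, `𝒪(1)`, the conormal bundle of `E` in `Y`). What
is recorded are the dimensions and the following facts, up to homological equivalence (they hold
for rational equivalence):

* the square commutes, and `f` is birational (`f_* [Y] = [X]`);
* the self-intersection formula `i^* i_* u = - h · u`;
* the normalization `g_* (h ^ (r - 1)) = [Z]`;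
* every cycle of codimension `j` on `Y` is the sum of `f^* x` and of the cycles
  `i_* (h ^ a · g^* (c a))`, `a < r - 1`, with `x` of codimension `j` and `c a` of
  codimension `j - 1 - a`. -/
structure IsBlowup (W : WeilCohomology.{u, v} ops) {X Z Y E : 𝒱.Obj} (f : Y ⟶ X) (s : Z ⟶ X)
    (i : E ⟶ Y) (g : E ⟶ Z) (h : E.Cycles) (r : ℕ) : Prop where
  two_le : 2 ≤ r
  dim_X : Z.dim + r = X.dim
  dim_Y : Y.dim = X.dim
  dim_E : E.dim + 1 = X.dim
  square : i ≫ f = g ≫ s
  isDiv : E.IsCyc 1 h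
  isBirational : PushesFund W f
  selfIntersection : SelfIntersection W i h
  isBundle : BundleNormalized W g h r
  generated : BlowupGenerated W f i g h r

/-- The divisor `m f^* D - E` on the blow-up `f : Y ⟶ X` with the exceptional divisor
`i : E ⟶ Y`. -/
noncomputable def blowupDivisor (ops : CycleOps 𝒱) {X Y E : 𝒱.Obj} (f : Y ⟶ X) (i : E ⟶ Y)
    (D : X.Cycles) (m : ℕ) : Y.Cycles :=
  (m : ℚ) • ops.pull f D - ops.push i E.V.fundCycle

/-- The relations `f_* (ξ ^ t · π i · π j) = 0` for `i ≠ j` and `d i + d j + t = F`, up to homological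
equivalence. -/
def FibreOrthogonal (W : WeilCohomology.{u, v} ops) {X Y : 𝒱.Obj} (f : Y ⟶ X) (ξ : Y.Cycles)
    {ι : Type} (d : ι → ℕ) (π : ι → Y.Cycles) (F : ℕ) : Prop :=
  ∀ i j t, i ≠ j → d i + d j + t = F →
    W.cl X (ops.push f (divPow ops ξ t (ops.mul (π i) (π j)))) = 0

/-- The cycles `f_* (ξ ^ (F - 2 d i) · π i · π i)` are, up to homological equivalence, multiples
of `[X]` with the sign `(-1) ^ (d i)`. -/
def FibreSigns (W : WeilCohomology.{u, v} ops) {X Y : 𝒱.Obj} (f : Y ⟶ X) (ξ : Y.Cycles)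
    {ι : Type} (d : ι → ℕ) (π : ι → Y.Cycles) (F : ℕ) : Prop :=
  ∀ i, ∃ γ : ℚ, 0 < γ ∧
    W.cl X (ops.push f (divPow ops ξ (F - 2 * d i) (ops.mul (π i) (π i)))) =
      W.cl X (((-1) ^ d i * γ) • X.V.fundCycle)

/-- Every cycle of codimension `j` on `Y` is, up to homological equivalence, the sum of cycles
`ξ ^ a · π i · f^* (x i a)` with `a ≤ F - 2 d i` and `x i a` of codimension `j - d i - a` on `X`. -/
def FibreGenerated (W : WeilCohomology.{u, v} ops) {X Y : 𝒱.Obj} (f : Y ⟶ X) (ξ : Y.Cycles)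
    {ι : Type} [Fintype ι] (d : ι → ℕ) (π : ι → Y.Cycles) (F : ℕ) : Prop :=
  ∀ j y, Y.IsCyc j y → ∃ x : ι → ℕ → X.Cycles,
    (∀ i a l, l + a + d i = j → X.IsCyc l (x i a)) ∧ (∀ i a, j < a + d i → x i a = 0) ∧
    W.cl Y y = ∑ i, ∑ a ∈ Finset.range (F - 2 * d i + 1),
      W.cl Y (divPow ops ξ a (ops.mul (π i) (ops.pull f (x i a))))

/-- The morphism `f : Y ⟶ X` is a fibration with fibres of dimension `F` and algebraic classes like
those of a cellular fibration, polarized along the fibres by the divisor `ξ`: there are cycles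
`π i` of codimension `d i ≤ F / 2` on `Y` (lifts of an orthogonal basis of the primitive algebraic classes
of the fibre), such that, up to homological equivalence (the relations hold for rational
equivalence),

* `f_* (ξ ^ t · π i · π j) = 0` for `i ≠ j` and `d i + d j + t = F`;
* `f_* (ξ ^ (F - 2 d i) · π i · π i)` is a multiple of `[X]` with the sign `(-1) ^ (d i)` (the
  relations of Hodge and Riemann on the fibre, which hold for cellular fibres such as
  projective spaces, Grassmannians, flag varieties, quadrics, toric varieties);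
* every cycle of codimension `j` on `Y` is the sum of cycles `ξ ^ a · π i · f^* (x i a)` with
  `a ≤ F - 2 d i` and `x i a` of codimension `j - d i - a` on `X` (Leray and Hirsch).

For a projective bundle there is only one cycle `π i`, the fundamental cycle `[Y]`, and `ξ` is the
class of `𝒪(1)`. -/
structure IsCellular (W : WeilCohomology.{u, v} ops) {X Y : 𝒱.Obj} (f : Y ⟶ X) (ξ : Y.Cycles)
    {ι : Type} [Fintype ι] (d : ι → ℕ) (π : ι → Y.Cycles) (F : ℕ) : Prop where
  dim_Y : Y.dim = X.dim + F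
  isDiv : Y.IsCyc 1 ξ
  codim : ∀ i, Y.IsCyc (d i) (π i)
  le : ∀ i, 2 * d i ≤ F
  orthogonal : FibreOrthogonal W f ξ d π F
  signs : FibreSigns W f ξ d π F
  generated : FibreGenerated W f ξ d π F

/-- The divisor `m f^* D + ξ`. -/
noncomputable def fibrationDivisor (ops : CycleOps 𝒱) {X Y : 𝒱.Obj} (f : Y ⟶ X) (ξ : Y.Cycles)
    (D : X.Cycles) (m : ℕ) : Y.Cycles :=
  (m : ℚ) • ops.pull f D + ξ

/-- A set `𝒜` of pairs consisting of a variety and a divisor (in the intended use: ample divisors)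
for which the Hodge index theorem holds: the conjecture in the codimensions `0` and `1`. -/
structure IsAmpleSet (ops : CycleOps 𝒱) (𝒜 : ∀ X : 𝒱.Obj, X.Cycles → Prop) : Prop where
  isDiv : ∀ X D, 𝒜 X D → X.IsCyc 1 D
  index : ∀ X D, 𝒜 X D → HodgeNumBelow ops X D 2

/-- Towers, relative to a bound `p` for the codimensions and a set `𝒜` of ample divisors. The
varieties at the bottom have dimension at most `3`, or the conjecture is known for some divisor in
`𝒜` in the codimensions `< p`. The steps are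

* blow-ups, for which the divisors in `𝒜` remain in `𝒜` on the centre `Z` and the divisors
  `m f^* D - E`, `D` in `𝒜`, belong to `𝒜` for all large `m`; the centre has dimension at most `3`,
  or `p ≤ 3`, or the conjecture is known for it in the codimensions `< p - 1`;
* cellular fibrations, for which the divisors `m f^* D + ξ`, `D` in `𝒜`, belong to `𝒜` for all
  large `m`. -/
inductive IsTower (W : WeilCohomology.{u, v} ops) (𝒜 : ∀ X : 𝒱.Obj, X.Cycles → Prop) (p : ℕ) :
    𝒱.Obj → Prop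
  | base {X : 𝒱.Obj} {D : X.Cycles} : 𝒜 X D → (X.dim ≤ 3 ∨ HodgeNumBelow ops X D p) →
      IsTower W 𝒜 p X
  | blowup {X Z Y E : 𝒱.Obj} {f : Y ⟶ X} {s : Z ⟶ X} {i : E ⟶ Y} {g : E ⟶ Z} {h : E.Cycles}
      {r : ℕ} : IsTower W 𝒜 p X → IsBlowup W f s i g h r →
      (∀ D, 𝒜 X D → 𝒜 Z (ops.pull s D)) →
      (∀ D, 𝒜 X D → ∃ m₀, ∀ m ≥ m₀, 𝒜 Y (blowupDivisor ops f i D m)) →
      (Z.dim ≤ 3 ∨ p ≤ 3 ∨ ∀ A, 𝒜 Z A → HodgeNumBelow ops Z A (p - 1)) → IsTower W 𝒜 p Y
  | fibration {X Y : 𝒱.Obj} {f : Y ⟶ X} {ξ : Y.Cycles} {ι : Type} [Fintype ι] {d : ι → ℕ}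
      {π : ι → Y.Cycles} {F : ℕ} : IsTower W 𝒜 p X → IsCellular W f ξ d π F →
      (∀ D, 𝒜 X D → ∃ m₀, ∀ m ≥ m₀, 𝒜 Y (fibrationDivisor ops f ξ D m)) → IsTower W 𝒜 p Y

theorem IsBlowup.birational {W : WeilCohomology.{u, v} ops} {X Z Y E : 𝒱.Obj} {f : Y ⟶ X}
    {s : Z ⟶ X} {i : E ⟶ Y} {g : E ⟶ Z} {h : E.Cycles} {r : ℕ} (B : IsBlowup W f s i g h r) :
    W.cl X (ops.push f Y.V.fundCycle) = W.cl X X.V.fundCycle :=
  B.isBirational

theorem IsBlowup.selfInt {W : WeilCohomology.{u, v} ops} {X Z Y E : 𝒱.Obj} {f : Y ⟶ X}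
    {s : Z ⟶ X} {i : E ⟶ Y} {g : E ⟶ Z} {h : E.Cycles} {r : ℕ} (B : IsBlowup W f s i g h r) :
    ∀ j u, E.IsCyc j u → W.cl E (ops.pull i (ops.push i u)) = - W.cl E (ops.mul h u) :=
  B.selfIntersection

theorem IsBlowup.bundle {W : WeilCohomology.{u, v} ops} {X Z Y E : 𝒱.Obj} {f : Y ⟶ X}
    {s : Z ⟶ X} {i : E ⟶ Y} {g : E ⟶ Z} {h : E.Cycles} {r : ℕ} (B : IsBlowup W f s i g h r) :
    W.cl Z (ops.push g (divPow ops h (r - 1) E.V.fundCycle)) = W.cl Z Z.V.fundCycle :=
  B.isBundle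

theorem IsBlowup.gen {W : WeilCohomology.{u, v} ops} {X Z Y E : 𝒱.Obj} {f : Y ⟶ X}
    {s : Z ⟶ X} {i : E ⟶ Y} {g : E ⟶ Z} {h : E.Cycles} {r : ℕ} (B : IsBlowup W f s i g h r) :
    ∀ j y, Y.IsCyc j y → ∃ (x : X.Cycles) (c : ℕ → Z.Cycles), X.IsCyc j x ∧
    (∀ a l, l + a + 1 = j → Z.IsCyc l (c a)) ∧ (∀ a, j ≤ a → c a = 0) ∧
    W.cl Y y = W.cl Y (ops.pull f x) +
      ∑ a ∈ Finset.range (r - 1), W.cl Y (ops.push i (divPow ops h a (ops.pull g (c a)))) :=
  B.generated

theorem IsCellular.orth {W : WeilCohomology.{u, v} ops} {X Y : 𝒱.Obj} {f : Y ⟶ X} {ξ : Y.Cycles}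
    {ι : Type} [Fintype ι] {d : ι → ℕ} {π : ι → Y.Cycles} {F : ℕ} (B : IsCellular W f ξ d π F) :
    ∀ i j t, i ≠ j → d i + d j + t = F →
    W.cl X (ops.push f (divPow ops ξ t (ops.mul (π i) (π j)))) = 0 :=
  B.orthogonal

theorem IsCellular.pos {W : WeilCohomology.{u, v} ops} {X Y : 𝒱.Obj} {f : Y ⟶ X} {ξ : Y.Cycles}
    {ι : Type} [Fintype ι] {d : ι → ℕ} {π : ι → Y.Cycles} {F : ℕ} (B : IsCellular W f ξ d π F) :
    ∀ i, ∃ γ : ℚ, 0 < γ ∧
    W.cl X (ops.push f (divPow ops ξ (F - 2 * d i) (ops.mul (π i) (π i)))) =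
      W.cl X (((-1) ^ d i * γ) • X.V.fundCycle) :=
  B.signs

theorem IsCellular.gen {W : WeilCohomology.{u, v} ops} {X Y : 𝒱.Obj} {f : Y ⟶ X} {ξ : Y.Cycles}
    {ι : Type} [Fintype ι] {d : ι → ℕ} {π : ι → Y.Cycles} {F : ℕ} (B : IsCellular W f ξ d π F) :
    ∀ j y, Y.IsCyc j y → ∃ x : ι → ℕ → X.Cycles,
    (∀ i a l, l + a + d i = j → X.IsCyc l (x i a)) ∧ (∀ i a, j < a + d i → x i a = 0) ∧
    W.cl Y y = ∑ i, ∑ a ∈ Finset.range (F - 2 * d i + 1),
      W.cl Y (divPow ops ξ a (ops.mul (π i) (ops.pull f (x i a)))) :=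
  B.generated

end Pool.Agent.V7H39.HS
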