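import Pool.Agent.V7H39.HS.Blow

/-!
# The ring of algebraic classes of a cellular fibration
-/

set_option autoImplicit false

open CategoryTheory AlgebraicGeometry

universe u v

namespace Pool.Agent.V7H39.HS

open Pool.Agent.H914 Pool.Agent.H914.VarClass Pool.Agent.H914.VarClass.Obj
  Pool.Agent.H914.WeilCohomology Module

variable {k : Type u} [Field k] {𝒱 : VarClass k} {ops : CycleOps 𝒱}
  {W : WeilCohomology.{u, v} ops}

attribute [local instance] ratAlg

namespace IsCellular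

variable {X Y : 𝒱.Obj} {f : Y ⟶ X} {ξ : Y.Cycles} {ι : Type} [Fintype ι] {d : ι → ℕ}
  {π : ι → Y.Cycles} {F : ℕ}

section facts

variable (B : IsCellular W f ξ d π F)

include B

lemma alg_xi : W.cl Y ξ ∈ algClasses W Y 1 := ⟨ξ, B.isDiv, rfl⟩

lemma alg_pi (i : ι) : W.cl Y (π i) ∈ algClasses W Y (d i) := ⟨π i, B.codim i, rfl⟩

lemma alg_piece {l a : ℕ} (i : ι) {c : W.H X} (hc : c ∈ algClasses W X l) :
    W.cl Y ξ ^ a * (W.cl Y (π i) * W.map f c) ∈ algClasses W Y (l + a + d i) := by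
  have := alg_mul (alg_pow B.alg_xi a) (alg_mul (B.alg_pi i) (alg_map f hc))
  rwa [show a + (d i + l) = l + a + d i by omega] at this

lemma pf_ne {i j : ι} (hij : i ≠ j) {t : ℕ} (ht : d i + d j + t = F) :
    W.push f (W.cl Y ξ ^ t * (W.cl Y (π i) * W.cl Y (π j))) = 0 := by
  have := B.orth i j t hij ht
  rwa [W.cl_push, cl_divPow, W.cl_mul] at this

lemma pf_lt {i j : ι} {t : ℕ} (ht : d i + d j + t < F) :
    W.push f (W.cl Y ξ ^ t * (W.cl Y (π i) * W.cl Y (π j))) = 0 := by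
  have h1 := W.push_mem f (alg_even (alg_mul (alg_pow B.alg_xi t)
    (alg_mul (B.alg_pi i) (B.alg_pi j))))
  have h2 := B.dim_Y
  rw [grZ_of_neg (by omega)] at h1
  exact (Submodule.mem_bot _).1 h1

/-- the positive number attached to a primitive class of the fibre -/
noncomputable def gam (i : ι) : ℚ := Classical.choose (B.pos i)

lemma gam_pos (i : ι) : 0 < B.gam i := (Classical.choose_spec (B.pos i)).1

lemma pf_eq (i : ι) {t : ℕ} (ht : t = F - 2 * d i) :
    W.push f (W.cl Y ξ ^ t * (W.cl Y (π i) * W.cl Y (π i))) =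
      (((-1) ^ d i * B.gam i : ℚ) : W.K) • (1 : W.H X) := by
  have this : W.cl X (ops.push f (divPow ops ξ (F - 2 * d i) (ops.mul (π i) (π i)))) =
      W.cl X (((-1) ^ d i * B.gam i) • X.V.fundCycle) := (Classical.choose_spec (B.pos i)).2
  rw [W.cl_push, cl_divPow, W.cl_mul, W.cl_smul, W.cl_fund] at this
  rw [ht]
  exact this

/-- intersection numbers of two pieces -/
lemma tr_pieces {l l' : ℕ} (i j : ι) {c c' δ : W.H X} (hc : c ∈ algClasses W X l)
    (hc' : c' ∈ algClasses W X l') (hδ : δ ∈ algClasses W X 1) (a b t q : ℕ) :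
    W.tr Y ((W.cl Y ξ ^ a * (W.cl Y (π i) * W.map f c)) *
        (W.cl Y ξ ^ b * (W.cl Y (π j) * W.map f c')) * W.cl Y ξ ^ t * W.map f δ ^ q) =
      W.tr X (W.push f (W.cl Y ξ ^ (a + b + t) * (W.cl Y (π i) * W.cl Y (π j))) *
        (c * c' * δ ^ q)) := by
  rw [W.tr_push]
  congr 1
  rw [map_mul (W.map f), map_mul (W.map f), map_pow (W.map f)]
  obtain ⟨x, hx⟩ : ∃ H : CR W Y, (H : W.H Y) = W.cl Y ξ := ⟨⟨_, alg_center B.alg_xi⟩, rfl⟩
  obtain ⟨p, hp⟩ : ∃ H : CR W Y, (H : W.H Y) = W.cl Y (π i) :=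
    ⟨⟨_, alg_center (B.alg_pi i)⟩, rfl⟩
  obtain ⟨p', hp'⟩ : ∃ H : CR W Y, (H : W.H Y) = W.cl Y (π j) :=
    ⟨⟨_, alg_center (B.alg_pi j)⟩, rfl⟩
  obtain ⟨e, he⟩ : ∃ H : CR W Y, (H : W.H Y) = W.map f c := ⟨⟨_, alg_center (alg_map f hc)⟩, rfl⟩
  obtain ⟨e', he'⟩ : ∃ H : CR W Y, (H : W.H Y) = W.map f c' :=
    ⟨⟨_, alg_center (alg_map f hc')⟩, rfl⟩
  obtain ⟨δ', hδ'⟩ : ∃ H : CR W Y, (H : W.H Y) = W.map f δ :=
    ⟨⟨_, alg_center (alg_map f hδ)⟩, rfl⟩
  rw [← hx, ← hp, ← hp', ← he, ← he', ← hδ']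
  have key : x ^ a * (p * e) * (x ^ b * (p' * e')) * x ^ t * δ' ^ q =
      x ^ (a + b + t) * (p * p') * (e * e' * δ' ^ q) := by ring
  exact_mod_cast congrArg (Subtype.val) key

end facts

/-- the linear map `c ↦ ξ ^ a π_i f^* c` -/
noncomputable def pieceMap (W : WeilCohomology.{u, v} ops) (f : Y ⟶ X) (ξ ϖ : Y.Cycles)
    (a : ℕ) : W.H X →ₗ[W.K] W.H Y :=
  LinearMap.mulLeft W.K (W.cl Y ξ ^ a) ∘ₗ LinearMap.mulLeft W.K (W.cl Y ϖ) ∘ₗ
    (W.map f).toLinearMap

section main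

variable (B : IsCellular W f ξ d π F) {D : X.Cycles} (hD : X.IsCyc 1 D)

/-- the blocks of a cellular fibration -/
noncomputable def blks (i : ι) : Blk (GX W Y) where
  R := CR W X
  G := GX W X
  l := toR W X (W.cl X D)
  k := F - 2 * d i
  d := d i
  γ := B.gam i
  β a := onR (pieceMap W f ξ (π i) a)
  hγ := B.gam_pos i
  hn := by
    have h1 := B.dim_Y
    have h2 := B.le i
    rw [GX_n, GX_n]
    omega
  hl := toR_mem ⟨D, hD, rfl⟩
  β_mem := by
    intro a _ l c hc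
    exact toR_mem (B.alg_piece i hc)
  β_triv := by
    intro a _ l c hc hT
    by_cases hl : X.dim < l
    · have h0 : c = 0 := Subtype.ext (alg_top hl hc)
      rw [h0, map_zero]
      exact (GX W Y).triv_zero _
    · intro i' hi' y hy
      have hc : (c : W.H X) ∈ algClasses W X l := hc
      have hy' : (y : W.H Y) ∈ algClasses W Y i' := hy
      rw [GX_n] at hi'
      have d1 := B.dim_Y
      have hm : W.cl Y ξ ^ a * (W.cl Y (π i) * y) ∈ algClasses W Y (a + (d i + i')) :=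
        alg_mul (alg_pow B.alg_xi a) (alg_mul (B.alg_pi i) hy')
      have hp : W.push f (W.cl Y ξ ^ a * (W.cl Y (π i) * y)) ∈ algClasses W X (X.dim - l) :=
        alg_push f hm (by omega)
      have h1 := hT (X.dim - l) (by rw [GX_n]; omega) _ (toR_mem hp)
      rw [GX_tr] at h1 ⊢
      have e1 : ((c * toR W X (W.push f (W.cl Y ξ ^ a * (W.cl Y (π i) * y))) : CR W X) :
          W.H X) = (c : W.H X) * W.push f (W.cl Y ξ ^ a * (W.cl Y (π i) * y)) := by
        rw [Subalgebra.coe_mul, coe_toR_alg hp]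
      have e2 : ((onR (pieceMap W f ξ (π i) a) c * y : CR W Y) : W.H Y) =
          W.cl Y ξ ^ a * (W.cl Y (π i) * W.map f c) * y := by
        rw [Subalgebra.coe_mul]
        congr 1
        exact coe_onR (φ := pieceMap W f ξ (π i) a) (B.alg_piece i hc)
      rw [e1] at h1
      have e3 : W.tr Y (W.cl Y ξ ^ a * (W.cl Y (π i) * W.map f c) * y) =
          W.tr X (c * W.push f (W.cl Y ξ ^ a * (W.cl Y (π i) * y))) := by
        rw [W.even_comm (alg_even hc), W.tr_push, mul_assoc, mul_assoc, mul_assoc, mul_assoc,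
          W.even_comm (alg_even (alg_map f hc))]
      rw [e2, e3]
      exact h1

include B in
lemma coe_pieces {u u' : ℕ} {i j : ι} {c c' : CR W X} (hc : c ∈ (GX W X).gr u)
    (hc' : c' ∈ (GX W X).gr u') (hD : X.IsCyc 1 D) {a b t q : ℕ} :
    ((onR (pieceMap W f ξ (π i) a) c * onR (pieceMap W f ξ (π j) b) c' *
      toR W Y (W.cl Y ξ) ^ t * toR W Y (W.cl Y (ops.pull f D)) ^ q : CR W Y) : W.H Y) =
      (W.cl Y ξ ^ a * (W.cl Y (π i) * W.map f c)) *
        (W.cl Y ξ ^ b * (W.cl Y (π j) * W.map f c')) * W.cl Y ξ ^ t *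
        W.map f (W.cl X D) ^ q := by
  have hc : (c : W.H X) ∈ algClasses W X u := hc
  have hc' : (c' : W.H X) ∈ algClasses W X u' := hc'
  rw [Subalgebra.coe_mul, Subalgebra.coe_mul, Subalgebra.coe_mul, Subalgebra.coe_pow,
    Subalgebra.coe_pow, coe_onR (φ := pieceMap W f ξ (π i) a) (B.alg_piece i hc),
    coe_onR (φ := pieceMap W f ξ (π j) b) (B.alg_piece j hc'),
    coe_toR_alg B.alg_xi, coe_toR_alg ⟨_, ops.pull_mem f hD, rfl⟩, W.cl_pull]
  rfl

include B in
lemma van_aux {u u' : ℕ} {i i' : ι} {c c' : CR W X} (hc : c ∈ (GX W X).gr u)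
    (hc' : c' ∈ (GX W X).gr u') (hD : X.IsCyc 1 D) {a b t q : ℕ}
    (hlt : 2 * (a + b + t) < (F - 2 * d i) + (F - 2 * d i') ∨
      (i ≠ i' ∧ 2 * (a + b + t) = (F - 2 * d i) + (F - 2 * d i'))) :
    (GX W Y).tr (onR (pieceMap W f ξ (π i) a) c * onR (pieceMap W f ξ (π i') b) c' *
      toR W Y (W.cl Y ξ) ^ t * toR W Y (W.cl Y (ops.pull f D)) ^ q) = 0 := by
  have h1 := B.le i
  have h2 := B.le i'
  rw [GX_tr, B.coe_pieces hc hc' hD,
    B.tr_pieces i i' (mem_GX.1 hc) (mem_GX.1 hc') ⟨D, hD, rfl⟩]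
  rcases hlt with h3 | h3
  · rw [B.pf_lt (by omega), zero_mul, map_zero, map_zero]
  · obtain ⟨h4, h5⟩ := h3
    rw [B.pf_ne h4 (by omega), zero_mul, map_zero, map_zero]

include B in
lemma eq_aux {u u' : ℕ} {i : ι} {c c' : CR W X} (hc : c ∈ (GX W X).gr u)
    (hc' : c' ∈ (GX W X).gr u') (hD : X.IsCyc 1 D) {a b t q : ℕ}
    (hk : a + b + t = F - 2 * d i) :
    (GX W Y).tr (onR (pieceMap W f ξ (π i) a) c * onR (pieceMap W f ξ (π i) b) c' *
      toR W Y (W.cl Y ξ) ^ t * toR W Y (W.cl Y (ops.pull f D)) ^ q) =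
      (-1) ^ d i * B.gam i * (GX W X).tr (c * c' * toR W X (W.cl X D) ^ q) := by
  rw [GX_tr, B.coe_pieces hc hc' hD,
    B.tr_pieces i i (mem_GX.1 hc) (mem_GX.1 hc') ⟨D, hD, rfl⟩, B.pf_eq i hk,
    smul_mul_assoc, one_mul, map_smul, smul_eq_mul, ← Rat.smul_def, map_smul, smul_eq_mul,
    GX_tr, Subalgebra.coe_mul, Subalgebra.coe_mul, Subalgebra.coe_pow,
    coe_toR_alg ⟨D, hD, rfl⟩]

lemma compat : Compat (GX W Y) (toR W Y (W.cl Y (ops.pull f D))) (toR W Y (W.cl Y ξ))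
    (B.blks hD) where
  hF := toR_mem ⟨_, ops.pull_mem f hD, rfl⟩
  hξ := toR_mem B.alg_xi
  van := by
    intro i i' a b t q u u' c c' hc hc' ha hb hdeg hlt
    exact B.van_aux hc hc' hD hlt
  eq := by
    intro i a b t q u u' c c' hc hc' hdeg hk
    exact B.eq_aux hc hc' hD hk
  gen := by
    intro j z hz
    obtain ⟨y, hy, rfl⟩ := exists_cyc hz
    obtain ⟨x, hx1, hx2, hyx⟩ := B.gen j y hy
    refine ⟨fun i a => toR W X (W.cl X (x i a)), ?_, ?_, ?_⟩
    · intro i a u hu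
      exact toR_mem ⟨_, hx1 i a u hu, rfl⟩
    · intro i a ha
      change toR W X (W.cl X (x i a)) = 0
      rw [hx2 i a ha, map_zero, map_zero]
    · have e0 : toR W Y (W.cl Y y) - ∑ i, ∑ a ∈ Finset.range (F - 2 * d i + 1),
          onR (pieceMap W f ξ (π i) a) (toR W X (W.cl X (x i a))) = 0 := by
        rw [hyx, map_sum, sub_eq_zero]
        refine Finset.sum_congr rfl fun i _ => ?_
        rw [map_sum]
        refine Finset.sum_congr rfl fun a _ => ?_
        have e3 : ((toR W X (W.cl X (x i a)) : CR W X) : W.H X) = W.cl X (x i a) := by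
          by_cases ha : j < a + d i
          · rw [hx2 i a ha, map_zero, map_zero]
            rfl
          · exact coe_toR_alg ⟨_, hx1 i a (j - a - d i) (by omega), rfl⟩
        rw [onR_apply, e3, cl_divPow, W.cl_mul, W.cl_pull]
        rfl
      have e4 := (GX W Y).triv_zero j
      rw [← e0] at e4
      exact e4

include B hD

lemma cyc_divisor (m : ℕ) : Y.IsCyc 1 (fibrationDivisor ops f ξ D m) :=
  ((ops.pull_mem f hD).smul _).add B.isDiv

omit B hD in
lemma cl_divisor (m : ℕ) : toR W Y (W.cl Y (fibrationDivisor ops f ξ D m)) =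
    (m : ℚ) • toR W Y (W.cl Y (ops.pull f D)) + toR W Y (W.cl Y ξ) := by
  rw [fibrationDivisor, map_add, W.cl_smul, ← rat_smul, map_add, map_smul]

/-- **The numerical conjecture of Hodge type for cellular fibrations.** -/
theorem hodge_large {p : ℕ} (hX : HodgeNumBelow ops X D p) :
    ∃ m₀, ∀ m ≥ m₀, HodgeNumBelow ops Y (fibrationDivisor ops f ξ D m) p := by
  rcases Nat.eq_zero_or_pos p with hp | hp
  · refine ⟨0, fun m _ j hj => ?_⟩
    omega
  obtain ⟨m0, hm0⟩ := (B.compat hD).hr_large (p - 1) (by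
    intro i u hu hun
    change u + d i ≤ p - 1 at hu
    change 2 * u ≤ X.dim at hun
    exact (hrat_iff hD hun).2 (hX u (by omega) hun))
  refine ⟨m0, fun m hm j hjp hj => ?_⟩
  rw [← hrat_iff (W := W) (B.cyc_divisor hD m) hj, cl_divisor]
  exact hm0 m hm j (by omega) hj

/-- **The converse.** -/
theorem hodge_conv {p : ℕ} (i₀ : ι) (hi₀ : d i₀ = 0) (hLX : LefNumBelow ops X D p)
    (hY : ∀ m₀, ∃ m ≥ m₀, HodgeNumBelow ops Y (fibrationDivisor ops f ξ D m) p) :
    HodgeNumBelow ops X D p := by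
  rcases Nat.eq_zero_or_pos p with hp | hp
  · exact fun j hj => by omega
  have hcl := (B.compat hD).hr_closed (p - 1) (by
    intro i u hu hun
    change u + d i ≤ p - 1 at hu
    change 2 * u ≤ X.dim at hun
    exact (lefat_iff hD hun).2 (hLX u (by omega) hun)) (by
    rw [Filter.frequently_atTop]
    intro m0
    obtain ⟨m, hm, h1⟩ := hY m0
    refine ⟨m, hm, fun j hjp hj => ?_⟩
    rw [← cl_divisor]
    exact (hrat_iff (B.cyc_divisor hD m) hj).2 (h1 j (by omega) hj))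
  intro j hj hjn
  exact (hrat_iff hD hjn).1 (hcl i₀ j (by change j + d i₀ ≤ p - 1; omega) hjn)

end main

end IsCellular

/-- in dimension at most `3` the Hodge index theorem is enough -/
lemma below_of_dim {X : 𝒱.Obj} {D : X.Cycles} (hX : X.dim ≤ 3) (h : HodgeNumBelow ops X D 2)
    (p : ℕ) : HodgeNumBelow ops X D p := fun j _ hjn => h j (by omega) hjn

/-- **Towers.** -/
theorem IsTower.hodge {𝒜 : ∀ X : 𝒱.Obj, X.Cycles → Prop} (hA : IsAmpleSet ops 𝒜) {p : ℕ}
    {X : 𝒱.Obj} (h : IsTower W 𝒜 p X) : ∃ D, 𝒜 X D ∧ HodgeNumBelow ops X D p := by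
  induction h with
  | @base X D h1 h2 =>
    rcases h2 with h2 | h2
    · exact ⟨_, h1, below_of_dim h2 (hA.index _ _ h1) p⟩
    · exact ⟨_, h1, h2⟩
  | @blowup X Z Y E f s i g h r hX hB hc hb hp ih =>
    obtain ⟨D, hD, hDX⟩ := ih
    have hDc := hA.isDiv X D hD
    have hZ : HodgeNumBelow ops Z (ops.pull s D) (p - 1) := by
      rcases hp with hp | hp | hp
      · exact below_of_dim hp (hA.index _ _ (hc D hD)) _
      · intro j hj hjn
        exact hA.index _ _ (hc D hD) j (by omega) hjn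
      · exact hp _ (hc D hD)
    obtain ⟨m1, hm1⟩ := hB.hodge_large hDc hDX hZ
    obtain ⟨m2, hm2⟩ := hb D hD
    exact ⟨_, hm2 (max m1 m2) (le_max_right _ _), hm1 (max m1 m2) (le_max_left _ _)⟩
  | @fibration X Y f ξ ι _ d π F hX hC hF ih =>
    obtain ⟨D, hD, hDX⟩ := ih
    obtain ⟨m1, hm1⟩ := hC.hodge_large (hA.isDiv X D hD) hDX
    obtain ⟨m2, hm2⟩ := hF D hD
    exact ⟨_, hm2 (max m1 m2) (le_max_right _ _), hm1 (max m1 m2) (le_max_left _ _)⟩

end Pool.Agent.V7H39.HS
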