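import Mathlib

/-!
# A perturbation lemma for forms positive on a kernel

If a rational quadratic form is positive on the kernel of a rational matrix, then all real
forms and matrices close to them have the same property.
-/

set_option autoImplicit false

namespace Pool.Agent.V7H39.HS

open Module Filter Topology

section bnd

variable {V : Type*} [AddCommGroup V] [Module ℚ V]

theorem abs_mul_le_sum {κ : Type*} [Fintype κ] (a : κ → ℚ) (i j : κ) :
    |a i * a j| ≤ ∑ k, a k ^ 2 := by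
  have h1 : ∀ i, a i ^ 2 ≤ ∑ k, a k ^ 2 := fun i =>
    Finset.single_le_sum (f := fun k => a k ^ 2) (fun k _ => sq_nonneg _) (Finset.mem_univ i)
  have h2 := h1 i
  have h3 := h1 j
  rw [abs_le]
  constructor
  · nlinarith [sq_nonneg (a i + a j)]
  · nlinarith [sq_nonneg (a i - a j)]

/-- a bilinear form is bounded on combinations of a finite family -/
theorem form_bound {κ : Type*} [Fintype κ] (B : V →ₗ[ℚ] V →ₗ[ℚ] ℚ) (v : κ → V) :
    ∃ C : ℚ, 0 ≤ C ∧ ∀ a : κ → ℚ,
      |B (∑ i, a i • v i) (∑ i, a i • v i)| ≤ C * ∑ k, a k ^ 2 := by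
  refine ⟨∑ i, ∑ j, |B (v i) (v j)|, Finset.sum_nonneg fun i _ =>
    Finset.sum_nonneg fun j _ => abs_nonneg _, fun a => ?_⟩
  have h1 : B (∑ i, a i • v i) (∑ i, a i • v i) = ∑ i, ∑ j, (a i * a j) * B (v i) (v j) := by
    simp only [map_sum, LinearMap.sum_apply, map_smul, LinearMap.smul_apply, smul_eq_mul]
    rw [Finset.sum_comm]
    refine Finset.sum_congr rfl fun i _ => ?_
    rw [Finset.mul_sum]
    refine Finset.sum_congr rfl fun j _ => ?_
    ring
  rw [h1, Finset.sum_mul]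
  refine (Finset.abs_sum_le_sum_abs _ _).trans (Finset.sum_le_sum fun i _ => ?_)
  rw [Finset.sum_mul]
  refine (Finset.abs_sum_le_sum_abs _ _).trans (Finset.sum_le_sum fun j _ => ?_)
  rw [abs_mul, mul_comm]
  exact mul_le_mul_of_nonneg_left (abs_mul_le_sum a i j) (abs_nonneg _)

theorem orth_eval {κ : Type*} [Fintype κ] {B : V →ₗ[ℚ] V →ₗ[ℚ] ℚ} {v : κ → V}
    (h : ∀ i j, i ≠ j → B (v i) (v j) = 0) (a : κ → ℚ) :
    B (∑ i, a i • v i) (∑ i, a i • v i) = ∑ i, a i ^ 2 * B (v i) (v i) := by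
  classical
  simp only [map_sum, LinearMap.sum_apply, map_smul, LinearMap.smul_apply, smul_eq_mul]
  refine Finset.sum_congr rfl fun i _ => ?_
  rw [Finset.sum_eq_single i]
  · ring
  · intro j _ hj
    rw [h j i hj]
    ring
  · intro hi
    exact absurd (Finset.mem_univ i) hi

end bnd

section ext

variable {V W U : Type*} [AddCommGroup V] [Module ℚ V] [AddCommGroup W] [Module ℚ W]
  [AddCommGroup U] [Module ℚ U]

/-- a map killing the kernel factors -/
theorem factor_of_ker_le (M : V →ₗ[ℚ] W) (l : V →ₗ[ℚ] U)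
    (h : LinearMap.ker M ≤ LinearMap.ker l) : ∃ g : W →ₗ[ℚ] U, ∀ v, g (M v) = l v := by
  have hinj : LinearMap.ker ((LinearMap.ker M).liftQ M le_rfl) = ⊥ :=
    Submodule.ker_liftQ_eq_bot' _ _ rfl
  obtain ⟨g', hg'⟩ := LinearMap.exists_leftInverse_of_injective _ hinj
  refine ⟨((LinearMap.ker M).liftQ l h) ∘ₗ g', fun v => ?_⟩
  have h1 : g' (M v) = Submodule.Quotient.mk v := by
    have h2 := LinearMap.congr_fun hg' (Submodule.Quotient.mk v)
    rw [LinearMap.comp_apply, LinearMap.id_apply] at h2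
    exact h2
  rw [LinearMap.comp_apply, h1]
  rfl

end ext

variable {ι κ : Type*} [Fintype ι] [Fintype κ]

/-- the Finsler estimate over the rationals -/
theorem finsler (B : (ι → ℚ) →ₗ[ℚ] (ι → ℚ) →ₗ[ℚ] ℚ) (hs : ∀ x y, B x y = B y x)
    (M : (ι → ℚ) →ₗ[ℚ] (κ → ℚ)) (hpos : ∀ w, M w = 0 → w ≠ 0 → 0 < B w w) :
    ∃ C δ : ℚ, 0 ≤ C ∧ 0 < δ ∧ ∀ w, δ * ∑ i, w i ^ 2 ≤ B w w + C * ∑ k, M w k ^ 2 := by
  classical
  set K := LinearMap.ker M with hK
  let BK : LinearMap.BilinForm ℚ K := B.domRestrict₁₂ K K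
  have hBK : ∀ x y : K, BK x y = B x y := fun x y => rfl
  have hsym : LinearMap.IsSymm BK := ⟨fun x y => by
    rw [RingHom.id_apply, hBK, hBK]
    exact hs _ _⟩
  have : Invertible (2 : ℚ) := invertibleOfNonzero (by norm_num)
  obtain ⟨e, he⟩ := LinearMap.BilinForm.exists_orthogonal_basis hsym
  have he' : ∀ i j, i ≠ j → B (e i) (e j) = 0 := fun i j hij => by
    rw [← hBK]
    exact he hij
  have hepos : ∀ i, 0 < B (e i) (e i) := by
    intro i
    apply hpos _ (e i).2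
    intro h
    exact e.ne_zero i (Subtype.ext h)
  -- the coefficients
  let c : Fin (finrank ℚ K) → (ι → ℚ) →ₗ[ℚ] ℚ := fun i => (B (e i) (e i))⁻¹ • B.flip (e i)
  have hc : ∀ i w, c i w = (B (e i) (e i))⁻¹ * B w (e i) := fun i w => rfl
  let s : (ι → ℚ) →ₗ[ℚ] (ι → ℚ) := ∑ i, (c i).smulRight ((e i : K) : ι → ℚ)
  have hs1 : ∀ w, s w = ∑ i, c i w • ((e i : K) : ι → ℚ) := by
    intro w
    simp only [s, LinearMap.sum_apply, LinearMap.smulRight_apply]
  let l : (ι → ℚ) →ₗ[ℚ] (ι → ℚ) := LinearMap.id - s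
  have hl : ∀ w, l w = w - s w := fun w => rfl
  have hle : ∀ w i, B (l w) (e i) = 0 := by
    intro w i
    rw [hl, map_sub, LinearMap.sub_apply, hs1]
    simp only [map_sum, LinearMap.sum_apply, map_smul, LinearMap.smul_apply, smul_eq_mul]
    rw [Finset.sum_eq_single i]
    · rw [hc]
      have := (hepos i).ne'
      field_simp
      ring
    · intro j _ hj
      rw [he' j i hj, mul_zero]
    · intro hi
      exact absurd (Finset.mem_univ i) hi
  have hker : LinearMap.ker M ≤ LinearMap.ker l := by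
    intro w hw
    have h1 : l w ∈ K := by
      rw [hl]
      refine K.sub_mem hw ?_
      rw [hs1]
      exact K.sum_mem fun i _ => K.smul_mem _ (e i).2
    rw [LinearMap.mem_ker]
    by_contra h2
    have h3 := hpos _ h1 h2
    have h4 : B (l w) (l w) = 0 := by
      have h5 : (⟨l w, h1⟩ : K) = ∑ i, e.repr ⟨l w, h1⟩ i • e i := (e.sum_repr _).symm
      have h6 : l w = ∑ i, e.repr ⟨l w, h1⟩ i • ((e i : K) : ι → ℚ) := by
        have h := congrArg K.subtype h5
        rw [map_sum] at h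
        simp only [map_smul] at h
        exact h
      have h7 : B (l w) (∑ i, e.repr ⟨l w, h1⟩ i • ((e i : K) : ι → ℚ)) = 0 := by
        simp only [map_sum, map_smul, hle, smul_zero, Finset.sum_const_zero]
      rwa [← h6] at h7
    linarith
  obtain ⟨g, hg⟩ := factor_of_ker_le M l hker
  -- bounds
  let E : (ι → ℚ) →ₗ[ℚ] (ι → ℚ) →ₗ[ℚ] ℚ :=
    ∑ i, (LinearMap.mul ℚ ℚ).compl₁₂ (LinearMap.proj i) (LinearMap.proj i)
  have hE : ∀ u, E u u = ∑ i, u i ^ 2 := by
    intro u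
    simp only [E, LinearMap.sum_apply]
    refine Finset.sum_congr rfl fun i _ => ?_
    change u i * u i = _
    ring
  obtain ⟨C0, hC0, hb0⟩ := form_bound B (fun k : κ => g (Pi.single k 1))
  obtain ⟨C1, hC1, hb1⟩ := form_bound E (fun i => ((e i : K) : ι → ℚ))
  obtain ⟨C2, hC2, hb2⟩ := form_bound E (fun k : κ => g (Pi.single k 1))
  have hgy : ∀ y : κ → ℚ, ∑ k, y k • g (Pi.single k 1) = g y := by
    intro y
    simp only [← map_smul, ← map_sum]
    congr 1
    ext k
    rw [Finset.sum_apply, Finset.sum_eq_single k]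
    · rw [Pi.smul_apply, Pi.single_eq_same, smul_eq_mul, mul_one]
    · intro j _ hj
      rw [Pi.smul_apply, Pi.single_eq_of_ne (Ne.symm hj), smul_zero]
    · intro hk
      exact absurd (Finset.mem_univ k) hk
  obtain ⟨b, hb, hbe⟩ : ∃ b : ℚ, 0 < b ∧ ∀ i, b ≤ B (e i) (e i) := by
    by_cases hne : Nonempty (Fin (finrank ℚ K))
    · obtain ⟨i0, hi0⟩ := Finite.exists_min (fun i => B (e i) (e i))
      exact ⟨_, hepos i0, hi0⟩
    · exact ⟨1, one_pos, fun i => absurd ⟨i⟩ hne⟩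
  set δ : ℚ := b / (2 * C1 + 1) with hδ
  have hδ0 : 0 < δ := by positivity
  refine ⟨C0 + δ * (2 * C2), δ, by positivity, hδ0, fun w => ?_⟩
  set A := ∑ i, c i w ^ 2 with hA
  set Y := ∑ k, M w k ^ 2 with hY
  have hA0 : 0 ≤ A := Finset.sum_nonneg fun i _ => sq_nonneg _
  have hY0 : 0 ≤ Y := Finset.sum_nonneg fun i _ => sq_nonneg _
  have hw : w = s w + l w := by rw [hl]; abel
  have h1 : B (s w) (l w) = 0 := by
    rw [hs, hs1]
    simp only [map_sum, map_smul, hle, smul_zero, Finset.sum_const_zero]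
  have h2 : B w w = B (s w) (s w) + B (l w) (l w) := by
    conv_lhs => rw [hw]
    simp only [map_add, LinearMap.add_apply]
    rw [hs (l w) (s w), h1]
    ring
  have h3 : b * A ≤ B (s w) (s w) := by
    rw [hs1, orth_eval he', hA, Finset.mul_sum]
    refine Finset.sum_le_sum fun i _ => ?_
    rw [mul_comm]
    exact mul_le_mul_of_nonneg_left (hbe i) (sq_nonneg _)
  have h4 : |B (l w) (l w)| ≤ C0 * Y := by
    have := hb0 (M w)
    rwa [hgy, hg] at this
  have h5 : ∑ i, (s w i) ^ 2 ≤ C1 * A := by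
    have := hb1 (fun i => c i w)
    rw [← hs1, hE] at this
    exact (le_abs_self _).trans this
  have h6 : ∑ i, (l w i) ^ 2 ≤ C2 * Y := by
    have := hb2 (M w)
    rw [hgy, hg, hE] at this
    exact (le_abs_self _).trans this
  have h7 : ∑ i, w i ^ 2 ≤ 2 * ∑ i, (s w i) ^ 2 + 2 * ∑ i, (l w i) ^ 2 := by
    rw [Finset.mul_sum, Finset.mul_sum, ← Finset.sum_add_distrib]
    refine Finset.sum_le_sum fun i _ => ?_
    have : w i = s w i + l w i := congrFun hw i
    rw [this]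
    nlinarith [sq_nonneg (s w i - l w i)]
  have h8 : ∑ i, w i ^ 2 ≤ 2 * C1 * A + 2 * C2 * Y := by linarith
  have h9 : δ * (2 * C1 * A) ≤ b * A := by
    have : δ * (2 * C1) ≤ b := by
      rw [hδ, div_mul_eq_mul_div, div_le_iff₀ (by positivity)]
      nlinarith
    nlinarith
  have h10 := neg_abs_le (B (l w) (l w))
  have h11 := mul_le_mul_of_nonneg_left h8 hδ0.le
  nlinarith

/-- the same estimate for real vectors -/
theorem finsler_real (q : ι → ι → ℚ) (hs : ∀ i j, q i j = q j i) (M : κ → ι → ℚ)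
    (hpos : ∀ w : ι → ℚ, (∀ k, ∑ i, M k i * w i = 0) → w ≠ 0 →
      0 < ∑ i, ∑ j, q i j * w i * w j) :
    ∃ C δ : ℝ, 0 ≤ C ∧ 0 < δ ∧ ∀ w : ι → ℝ, δ * ∑ i, w i ^ 2 ≤
      (∑ i, ∑ j, (q i j : ℝ) * w i * w j) + C * ∑ k, (∑ i, (M k i : ℝ) * w i) ^ 2 := by
  classical
  let B : (ι → ℚ) →ₗ[ℚ] (ι → ℚ) →ₗ[ℚ] ℚ := Matrix.toBilin' (Matrix.of q)
  have hB : ∀ u w, B u w = ∑ i, ∑ j, q i j * u i * w j := by
    intro u w
    simp only [B, Matrix.toBilin'_apply, Matrix.of_apply]
    refine Finset.sum_congr rfl fun i _ => Finset.sum_congr rfl fun j _ => ?_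
    ring
  let M' : (ι → ℚ) →ₗ[ℚ] (κ → ℚ) := Matrix.toLin' (Matrix.of M)
  have hM' : ∀ w k, M' w k = ∑ i, M k i * w i := by
    intro w k
    simp only [M', Matrix.toLin'_apply]
    rfl
  obtain ⟨C, δ, hC, hδ, hall⟩ := finsler B (fun x y => by
      rw [hB, hB, Finset.sum_comm]
      refine Finset.sum_congr rfl fun i _ => Finset.sum_congr rfl fun j _ => ?_
      rw [hs]
      ring) M' (fun w hw hw0 => by
      rw [hB]
      exact hpos w (fun k => by rw [← hM', hw]; rfl) hw0)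
  refine ⟨C, δ, by exact_mod_cast hC, by exact_mod_cast hδ, ?_⟩
  have hdense : DenseRange (Pi.map (fun (_ : ι) (x : ℚ) => (x : ℝ))) :=
    DenseRange.piMap fun _ => Rat.denseRange_cast
  intro w
  refine hdense.induction_on (p := fun w : ι → ℝ => (δ : ℝ) * ∑ i, w i ^ 2 ≤
      (∑ i, ∑ j, (q i j : ℝ) * w i * w j) + (C : ℝ) * ∑ k, (∑ i, (M k i : ℝ) * w i) ^ 2) w ?_ ?_
  · apply isClosed_le
    · fun_prop
    · fun_prop
  · intro a
    have h1 := hall a
    rw [hB] at h1
    simp only [hM'] at h1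
    have h2 : ((δ * ∑ i, a i ^ 2 : ℚ) : ℝ) ≤
      (((∑ i, ∑ j, q i j * a i * a j) + C * ∑ k, (∑ i, M k i * a i) ^ 2 : ℚ) : ℝ) := by
      exact_mod_cast h1
    push_cast at h2
    simpa only [Pi.map_apply] using h2

/-- **Perturbation lemma.** -/
theorem perturb (q : ι → ι → ℚ) (hs : ∀ i j, q i j = q j i) (M : κ → ι → ℚ)
    (hpos : ∀ w : ι → ℚ, (∀ k, ∑ i, M k i * w i = 0) → w ≠ 0 →
      0 < ∑ i, ∑ j, q i j * w i * w j)
    (Q : ℕ → ι → ι → ℝ) (P : ℕ → κ → ι → ℝ)
    (hQ : ∀ i j, Tendsto (fun m => Q m i j) atTop (𝓝 (q i j : ℝ)))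
    (hP : ∀ k i, Tendsto (fun m => P m k i) atTop (𝓝 (M k i : ℝ))) :
    ∀ᶠ m in atTop, ∀ w : ι → ℝ, (∀ k, ∑ i, P m k i * w i = 0) → w ≠ 0 →
      0 < ∑ i, ∑ j, Q m i j * w i * w j := by
  obtain ⟨C, δ, hC, hδ, hall⟩ := finsler_real q hs M hpos
  have h1 : Tendsto (fun m => (∑ i, ∑ j, |Q m i j - q i j|) +
      C * ∑ k, ∑ i, (M k i - P m k i) ^ 2) atTop (𝓝 0) := by
    have h2 : Tendsto (fun m => ∑ i, ∑ j, |Q m i j - q i j|) atTop
        (𝓝 (∑ i : ι, ∑ j : ι, |(q i j : ℝ) - q i j|)) :=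
      tendsto_finsetSum _ fun i _ => tendsto_finsetSum _ fun j _ =>
        ((hQ i j).sub_const _).abs
    have h3 : Tendsto (fun m => ∑ k, ∑ i, ((M k i : ℝ) - P m k i) ^ 2) atTop
        (𝓝 (∑ k : κ, ∑ i : ι, ((M k i : ℝ) - M k i) ^ 2)) :=
      tendsto_finsetSum _ fun k _ => tendsto_finsetSum _ fun i _ =>
        ((hP k i).const_sub _).pow 2
    have h4 := h2.add (h3.const_mul C)
    simpa using h4
  filter_upwards [h1.eventually (gt_mem_nhds hδ)] with m hm w hw hw0
  have hS : 0 < ∑ i, w i ^ 2 := by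
    obtain ⟨i, hi⟩ := Function.ne_iff.1 hw0
    refine Finset.sum_pos' (fun j _ => sq_nonneg _) ⟨i, Finset.mem_univ i, ?_⟩
    have : w i ≠ 0 := hi
    positivity
  set S := ∑ i, w i ^ 2 with hSdef
  have h2 : ∀ i, w i ^ 2 ≤ S := fun i =>
    Finset.single_le_sum (f := fun k => w k ^ 2) (fun k _ => sq_nonneg _) (Finset.mem_univ i)
  have h3 : (∑ i, ∑ j, (q i j : ℝ) * w i * w j) ≤ (∑ i, ∑ j, Q m i j * w i * w j) +
      (∑ i, ∑ j, |Q m i j - q i j|) * S := by
    rw [Finset.sum_mul, ← Finset.sum_add_distrib]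
    refine Finset.sum_le_sum fun i _ => ?_
    rw [Finset.sum_mul, ← Finset.sum_add_distrib]
    refine Finset.sum_le_sum fun j _ => ?_
    have h4 : |w i * w j| ≤ S := by
      have h5 := h2 i
      have h6 := h2 j
      rw [abs_le]
      constructor
      · nlinarith [sq_nonneg (w i + w j)]
      · nlinarith [sq_nonneg (w i - w j)]
    have h5 : ((q i j : ℝ) - Q m i j) * (w i * w j) ≤ |Q m i j - q i j| * S := by
      refine (le_abs_self _).trans ?_
      rw [abs_mul, abs_sub_comm]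
      exact mul_le_mul_of_nonneg_left h4 (abs_nonneg _)
    linarith
  have h4 : ∑ k, (∑ i, (M k i : ℝ) * w i) ^ 2 ≤ (∑ k, ∑ i, ((M k i : ℝ) - P m k i) ^ 2) * S := by
    rw [Finset.sum_mul]
    refine Finset.sum_le_sum fun k _ => ?_
    have h5 : ∑ i, (M k i : ℝ) * w i = ∑ i, ((M k i : ℝ) - P m k i) * w i := by
      have h6 := hw k
      have h7 : ∑ i, ((M k i : ℝ) - P m k i) * w i = ∑ i, (M k i : ℝ) * w i -
          ∑ i, P m k i * w i := by
        rw [← Finset.sum_sub_distrib]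
        refine Finset.sum_congr rfl fun i _ => ?_
        ring
      rw [h7, h6, sub_zero]
    rw [h5]
    exact Finset.sum_mul_sq_le_sq_mul_sq _ _ _
  have h5 := hall w
  rw [← hSdef] at h5
  have h6 := mul_le_mul_of_nonneg_left h4 hC
  have h7 : ((∑ i, ∑ j, |Q m i j - q i j|) +
      C * ∑ k, ∑ i, ((M k i : ℝ) - P m k i) ^ 2) * S < δ * S :=
    mul_lt_mul_of_pos_right hm hS
  nlinarith

/-- nonnegativity on the rational kernel extends to the real kernel -/
theorem real_ext (q : ι → ι → ℚ) (hs : ∀ i j, q i j = q j i) (M : κ → ι → ℚ)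
    (hpos : ∀ w : ι → ℚ, (∀ k, ∑ i, M k i * w i = 0) → 0 ≤ ∑ i, ∑ j, q i j * w i * w j) :
    ∀ w : ι → ℝ, (∀ k, ∑ i, (M k i : ℝ) * w i = 0) →
      0 ≤ ∑ i, ∑ j, (q i j : ℝ) * w i * w j := by
  classical
  intro w hw
  by_contra hneg
  push Not at hneg
  set S := ∑ i, w i ^ 2 with hS
  have hS0 : 0 ≤ S := Finset.sum_nonneg fun i _ => sq_nonneg _
  set η := ∑ i, ∑ j, (q i j : ℝ) * w i * w j with hη
  obtain ⟨ε, hε0, hε⟩ : ∃ ε : ℚ, (0 : ℝ) < ε ∧ (ε : ℝ) < -η / (S + 1) :=
    exists_rat_btwn (div_pos (by linarith) (by linarith))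
  have hε0' : (0 : ℚ) < ε := by exact_mod_cast hε0
  have hsum : ∀ {R : Type} [Field R] (e : R) (u : ι → R),
      ∑ i, ∑ j, (if i = j then e else 0) * u i * u j = e * ∑ i, u i ^ 2 := by
    intro R _ e u
    rw [Finset.mul_sum]
    refine Finset.sum_congr rfl fun i _ => ?_
    rw [Finset.sum_eq_single i]
    · rw [if_pos rfl]
      ring
    · intro j _ hj
      rw [if_neg (Ne.symm hj), zero_mul, zero_mul]
    · intro h
      exact absurd (Finset.mem_univ i) h
  obtain ⟨C, δ, hC, hδ, hall⟩ := finsler_real (fun i j => q i j + if i = j then ε else 0)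
    (fun i j => by
      simp only [hs i j]
      by_cases h : i = j
      · rw [if_pos h, if_pos h.symm]
      · rw [if_neg h, if_neg (Ne.symm h)]) M (fun u hu hu0 => by
      have h1 := hpos u hu
      have h2 : 0 < ε * ∑ i, u i ^ 2 := by
        refine mul_pos hε0' ?_
        obtain ⟨i, hi⟩ := Function.ne_iff.1 hu0
        refine Finset.sum_pos' (fun j _ => sq_nonneg _) ⟨i, Finset.mem_univ i, ?_⟩
        have : u i ≠ 0 := hi
        positivity
      have h3 : ∑ i, ∑ j, (q i j + if i = j then ε else 0) * u i * u j =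
          (∑ i, ∑ j, q i j * u i * u j) + ε * ∑ i, u i ^ 2 := by
        rw [← hsum, ← Finset.sum_add_distrib]
        refine Finset.sum_congr rfl fun i _ => ?_
        rw [← Finset.sum_add_distrib]
        refine Finset.sum_congr rfl fun j _ => ?_
        ring
      rw [h3]
      linarith)
  have h1 := hall w
  have h2 : ∑ k, (∑ i, (M k i : ℝ) * w i) ^ 2 = 0 :=
    Finset.sum_eq_zero fun k _ => by rw [hw k]; ring
  have h3 : ∑ i, ∑ j, ((q i j + if i = j then ε else 0 : ℚ) : ℝ) * w i * w j =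
      η + (ε : ℝ) * S := by
    rw [hη, hS, ← hsum, ← Finset.sum_add_distrib]
    refine Finset.sum_congr rfl fun i _ => ?_
    rw [← Finset.sum_add_distrib]
    refine Finset.sum_congr rfl fun j _ => ?_
    split_ifs <;> push_cast <;> ring
  rw [h2, h3, ← hS, mul_zero, add_zero] at h1
  have h4 : 0 ≤ δ * S := by positivity
  rw [lt_div_iff₀ (by linarith)] at hε
  nlinarith

open Matrix in
/-- **Limits of nonnegative forms on kernels.** -/
theorem closed_limit (q : ι → ι → ℚ) (M : κ → ι → ℚ)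
    (hfull : ∀ y : κ → ℚ, (∀ i, ∑ k, y k * M k i = 0) → y = 0)
    (Q : ℕ → ι → ι → ℝ) (P : ℕ → κ → ι → ℝ)
    (hQ : ∀ i j, Tendsto (fun m => Q m i j) atTop (𝓝 (q i j : ℝ)))
    (hP : ∀ k i, Tendsto (fun m => P m k i) atTop (𝓝 (M k i : ℝ)))
    (hfreq : ∃ᶠ m in atTop, ∀ w : ι → ℝ, (∀ k, ∑ i, P m k i * w i = 0) →
      0 ≤ ∑ i, ∑ j, Q m i j * w i * w j) :
    ∀ w : ι → ℚ, (∀ k, ∑ i, M k i * w i = 0) → 0 ≤ ∑ i, ∑ j, q i j * w i * w j := by
  classical
  intro w hw
  -- a right inverse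
  let f : (ι → ℚ) →ₗ[ℚ] (κ → ℚ) := Matrix.toLin' (Matrix.of M)
  have hf : ∀ x k, f x k = ∑ i, M k i * x i := by
    intro x k
    simp only [f, Matrix.toLin'_apply]
    rfl
  have hsurj : Function.Surjective f := by
    rw [← LinearMap.dualMap_injective_iff, ← LinearMap.ker_eq_bot, LinearMap.ker_eq_bot']
    intro φ hφ
    have h1 : (fun k => φ (Pi.single k 1)) = 0 := by
      apply hfull
      intro i
      have h2 := LinearMap.congr_fun hφ (Pi.single i 1)
      rw [LinearMap.dualMap_apply, LinearMap.zero_apply] at h2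
      rw [← h2]
      have h3 : f (Pi.single i 1) = ∑ k, M k i • (Pi.single k 1 : κ → ℚ) := by
        ext k
        rw [hf, Finset.sum_apply, Finset.sum_eq_single i, Finset.sum_eq_single k]
        · simp
        · intro l _ hl
          simp [Pi.single_eq_of_ne (Ne.symm hl)]
        · intro h
          exact absurd (Finset.mem_univ k) h
        · intro l _ hl
          rw [Pi.single_eq_of_ne hl, mul_zero]
        · intro h
          exact absurd (Finset.mem_univ i) h
      rw [h3, map_sum]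
      refine Finset.sum_congr rfl fun k _ => ?_
      rw [map_smul, smul_eq_mul, mul_comm]
    apply LinearMap.pi_ext'
    intro k
    apply LinearMap.ext_ring
    rw [LinearMap.comp_apply, LinearMap.single_apply]
    exact congrFun h1 k
  obtain ⟨g, hg⟩ := LinearMap.exists_rightInverse_of_surjective f (LinearMap.range_eq_top.2 hsurj)
  have hg' : ∀ y, f (g y) = y := fun y => LinearMap.congr_fun hg y
  let R : Matrix ι κ ℝ := Matrix.of fun i k => ((g (Pi.single k 1) i : ℚ) : ℝ)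
  let Mr : Matrix κ ι ℝ := Matrix.of fun k i => (M k i : ℝ)
  let Pr : ℕ → Matrix κ ι ℝ := fun m => Matrix.of (P m)
  let wr : ι → ℝ := fun i => (w i : ℝ)
  have hMR : Mr * R = 1 := by
    ext l k
    rw [Matrix.mul_apply, Matrix.one_apply]
    have h1 : f (g (Pi.single k 1)) l = if l = k then 1 else 0 := by
      rw [hg', Pi.single_apply]
    rw [hf] at h1
    have h2 : ((∑ i, M l i * g (Pi.single k 1) i : ℚ) : ℝ) = ((if l = k then 1 else 0 : ℚ) : ℝ) := by
      rw [h1]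
    have h3 : ((if l = k then (1 : ℚ) else 0 : ℚ) : ℝ) = if l = k then 1 else 0 := by
      split_ifs <;> simp
    rw [h3] at h2
    push_cast at h2
    exact h2
  let Φ : Matrix κ ι ℝ → (ι → ℝ) := fun A =>
    (A * R).det • wr - R *ᵥ ((A * R).adjugate *ᵥ (A *ᵥ wr))
  have hΦker : ∀ A, A *ᵥ Φ A = 0 := by
    intro A
    change A *ᵥ ((A * R).det • wr - R *ᵥ ((A * R).adjugate *ᵥ (A *ᵥ wr))) = 0
    rw [Matrix.mulVec_sub, Matrix.mulVec_smul, Matrix.mulVec_mulVec, Matrix.mulVec_mulVec,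
      Matrix.mul_adjugate, Matrix.smul_mulVec, Matrix.one_mulVec, sub_self]
  have hΦcont : Continuous Φ := by
    have h1 : Continuous fun A : Matrix κ ι ℝ => A * R := continuous_id.matrix_mul continuous_const
    have h2 : Continuous fun A : Matrix κ ι ℝ => A *ᵥ wr :=
      continuous_id.matrix_mulVec continuous_const
    exact (h1.matrix_det.smul continuous_const).sub
      (continuous_const.matrix_mulVec (h1.matrix_adjugate.matrix_mulVec h2))
  have hMw : Mr *ᵥ wr = 0 := by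
    ext k
    have h1 := hw k
    have h2 : ((∑ i, M k i * w i : ℚ) : ℝ) = 0 := by rw [h1, Rat.cast_zero]
    push_cast at h2
    exact h2
  have hΦM : Φ Mr = wr := by
    change (Mr * R).det • wr - R *ᵥ ((Mr * R).adjugate *ᵥ (Mr *ᵥ wr)) = wr
    rw [hMR, hMw, Matrix.det_one, one_smul, Matrix.mulVec_zero, Matrix.mulVec_zero, sub_zero]
  have hPr : Tendsto Pr atTop (𝓝 Mr) := by
    exact tendsto_pi_nhds.2 fun k => tendsto_pi_nhds.2 fun i => hP k i
  have hlim : Tendsto (fun m => Φ (Pr m)) atTop (𝓝 wr) := by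
    have h1 := (hΦcont.tendsto Mr).comp hPr
    rw [hΦM] at h1
    exact h1
  have hlim' : ∀ i, Tendsto (fun m => Φ (Pr m) i) atTop (𝓝 (wr i)) := fun i =>
    (tendsto_pi_nhds.1 hlim) i
  have hval : Tendsto (fun m => ∑ i, ∑ j, Q m i j * Φ (Pr m) i * Φ (Pr m) j) atTop
      (𝓝 (∑ i, ∑ j, (q i j : ℝ) * wr i * wr j)) :=
    tendsto_finsetSum _ fun i _ => tendsto_finsetSum _ fun j _ =>
      ((hQ i j).mul (hlim' i)).mul (hlim' j)
  have hge : 0 ≤ ∑ i, ∑ j, (q i j : ℝ) * wr i * wr j := by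
    by_contra hneg
    push Not at hneg
    have h1 := hval.eventually (gt_mem_nhds hneg)
    obtain ⟨m, hm1, hm2⟩ := (hfreq.and_eventually h1).exists
    have h2 := hm1 (Φ (Pr m)) (fun k => congrFun (hΦker (Pr m)) k)
    linarith
  have h5 : ((∑ i, ∑ j, q i j * w i * w j : ℚ) : ℝ) = ∑ i, ∑ j, (q i j : ℝ) * wr i * wr j := by
    push_cast
    rfl
  rw [← h5] at hge
  exact_mod_cast hge

end Pool.Agent.V7H39.HS
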