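import Pool.Agent.V7H39.HS.Tower
import Pool.Agent.V7H39.HS.Defs
import Pool.Agent.H914R2.WeilBasic

/-!
# Algebraic classes as a graded ring
-/

set_option autoImplicit false

open CategoryTheory AlgebraicGeometry

universe u v

namespace Pool.Agent.V7H39.HS

open Pool.Agent.H914 Pool.Agent.H914.VarClass Pool.Agent.H914.VarClass.Obj
  Pool.Agent.H914.WeilCohomology Module

variable {k : Type u} [Field k] {𝒱 : VarClass k} {ops : CycleOps 𝒱}

variable (W : WeilCohomology.{u, v} ops) (X : 𝒱.Obj)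

/-- the cohomology as a rational algebra -/
noncomputable abbrev ratAlg : Algebra ℚ (W.H X) := Algebra.compHom (W.H X) (algebraMap ℚ W.K)

attribute [local instance] ratAlg

variable {W X}

lemma rat_smul (q : ℚ) (x : W.H X) : q • x = (q : W.K) • x := by
  change (algebraMap ℚ W.K q) • x = _
  rw [eq_ratCast]

noncomputable instance towerInst : IsScalarTower ℚ W.K (W.H X) := ⟨fun q c x => by
  rw [rat_smul, Rat.smul_def, mul_smul]⟩

variable (W X)

/-- the centre of the cohomology ring, which contains the algebraic classes -/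
abbrev CR : Type v := Subalgebra.center ℚ (W.H X)

/-- a rational projection of the coefficient field -/
noncomputable def retr : W.K →ₗ[ℚ] ℚ :=
  Classical.choose ((Algebra.linearMap ℚ W.K).exists_leftInverse_of_injective
    (LinearMap.ker_eq_bot.2 (algebraMap ℚ W.K).injective))

variable {W X}

lemma retr_cast (q : ℚ) : retr W (q : W.K) = q := by
  have h := Classical.choose_spec ((Algebra.linearMap ℚ W.K).exists_leftInverse_of_injective
    (LinearMap.ker_eq_bot.2 (algebraMap ℚ W.K).injective))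
  have := LinearMap.congr_fun h q
  rw [LinearMap.comp_apply, Algebra.linearMap_apply, eq_ratCast] at this
  exact this

lemma alg_even {j : ℕ} {x : W.H X} (hx : x ∈ algClasses W X j) : x ∈ W.gr X (2 * j) := by
  obtain ⟨z, hz, rfl⟩ := hx
  exact W.cl_mem hz

lemma alg_center {j : ℕ} {x : W.H X} (hx : x ∈ algClasses W X j) :
    x ∈ Subalgebra.center ℚ (W.H X) := by
  rw [Subalgebra.mem_center_iff]
  intro b
  exact (W.even_comm (alg_even hx) b).symm

lemma alg_top {j : ℕ} (hj : X.dim < j) {x : W.H X} (hx : x ∈ algClasses W X j) : x = 0 := by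
  have := alg_even hx
  rw [W.gr_eq_bot X (2 * j) (by omega)] at this
  exact (Submodule.mem_bot _).1 this

lemma alg_mul {i j : ℕ} {x y : W.H X} (hx : x ∈ algClasses W X i) (hy : y ∈ algClasses W X j) :
    x * y ∈ algClasses W X (i + j) := by
  obtain ⟨z, hz, rfl⟩ := hx
  obtain ⟨w, hw, rfl⟩ := hy
  exact ⟨ops.mul z w, ops.mul_mem hz hw, W.cl_mul z w⟩

lemma alg_one : (1 : W.H X) ∈ algClasses W X 0 :=
  ⟨X.V.fundCycle, X.V.fundCycle_mem, W.cl_fund X⟩

lemma alg_pow {x : W.H X} (hx : x ∈ algClasses W X 1) (m : ℕ) : x ^ m ∈ algClasses W X m := by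
  induction m with
  | zero => rw [pow_zero]; exact alg_one
  | succ m ih => rw [pow_succ]; exact alg_mul ih hx

lemma alg_map {Y : 𝒱.Obj} (f : Y ⟶ X) {j : ℕ} {x : W.H X} (hx : x ∈ algClasses W X j) :
    W.map f x ∈ algClasses W Y j := by
  obtain ⟨z, hz, rfl⟩ := hx
  exact ⟨ops.pull f z, ops.pull_mem f hz, W.cl_pull f z⟩

lemma alg_push {Y : 𝒱.Obj} (f : Y ⟶ X) {j i : ℕ} {y : W.H Y} (hy : y ∈ algClasses W Y j)
    (h : j + X.dim = i + Y.dim) : W.push f y ∈ algClasses W X i := by
  obtain ⟨z, hz, rfl⟩ := hy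
  exact ⟨ops.push f z, ops.push_mem f hz h, W.cl_push f z⟩

/-- the rational subspace of the algebraic classes -/
noncomputable def algQ (W : WeilCohomology.{u, v} ops) (X : 𝒱.Obj) (j : ℕ) :
    Submodule ℚ (W.H X) where
  carrier := algClasses W X j
  add_mem' := by
    rintro _ _ ⟨z, hz, rfl⟩ ⟨w, hw, rfl⟩
    exact ⟨z + w, hz.add hw, map_add _ _ _⟩
  zero_mem' := ⟨0, SmVar.IsCyc.zero _ _, map_zero _⟩
  smul_mem' := by
    rintro q _ ⟨z, hz, rfl⟩
    exact ⟨q • z, hz.smul q, by rw [W.cl_smul, rat_smul]⟩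

/-- the trace of an algebraic class is rational -/
lemma retr_tr {j : ℕ} {x : W.H X} (hx : x ∈ algClasses W X j) :
    ((retr W (W.tr X x) : ℚ) : W.K) = W.tr X x := by
  obtain ⟨z, hz, rfl⟩ := hx
  by_cases h : j = X.dim
  · subst h
    rw [W.tr_cl hz, retr_cast]
  · rw [W.tr_eq_zero (W.cl_mem hz) (by omega), map_zero, Rat.cast_zero]

variable (W X)

/-- The graded ring of the algebraic classes. -/
noncomputable def GX : GRing (CR W X) where
  n := X.dim
  gr j := (algQ W X j).comap (Subalgebra.center ℚ (W.H X)).val.toLinearMap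
  tr := (retr W ∘ₗ (W.tr X).restrictScalars ℚ) ∘ₗ (Subalgebra.center ℚ (W.H X)).val.toLinearMap
  one_mem := alg_one
  mul_mem := fun hx hy => alg_mul hx hy
  fin := by
    classical
    intro i j hij
    have hfg : (Submodule.span W.K (algClasses W X i)).FG := IsNoetherian.noetherian _
    rw [Submodule.fg_span_iff_fg_span_finset_subset] at hfg
    obtain ⟨s, hs1, hs2⟩ := hfg
    refine ⟨s.attach.image fun t => ⟨t.1, alg_center (hs1 t.2)⟩, ?_, ?_⟩
    · intro t ht
      rw [Finset.mem_image] at ht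
      obtain ⟨t', -, rfl⟩ := ht
      exact hs1 t'.2
    · intro x hx hdet y hy
      have hx' : (x : W.H X) ∈ algClasses W X j := hx
      have h0 : ∀ t ∈ s, W.tr X (x * t) = 0 := by
        intro t ht
        have h1 := hdet ⟨t, alg_center (hs1 ht)⟩ (by
          rw [Finset.mem_image]
          exact ⟨⟨t, ht⟩, Finset.mem_attach _ _, rfl⟩)
        change retr W (W.tr X ((x : W.H X) * t)) = 0 at h1
        rw [← retr_tr (alg_mul hx' (hs1 ht)), h1, Rat.cast_zero]
      have h2 : (y : W.H X) ∈ Submodule.span W.K (s : Set (W.H X)) := by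
        rw [← hs2]
        exact Submodule.subset_span hy
      have h3 : ∀ y' ∈ Submodule.span W.K (s : Set (W.H X)), W.tr X (x * y') = 0 := by
        intro y' hy'
        induction hy' using Submodule.span_induction with
        | mem t ht => exact h0 t ht
        | zero => rw [mul_zero, map_zero]
        | add a b _ _ ha hb => rw [mul_add, map_add, ha, hb, add_zero]
        | smul c a _ ha => rw [mul_smul_comm, map_smul, ha, smul_zero]
      change retr W (W.tr X ((x : W.H X) * y)) = 0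
      rw [h3 _ h2, map_zero]

/-- a rational projection onto the centre -/
noncomputable def toR : W.H X →ₗ[ℚ] CR W X :=
  Classical.choose ((Subalgebra.center ℚ (W.H X)).val.toLinearMap.exists_leftInverse_of_injective
    (LinearMap.ker_eq_bot.2 Subtype.val_injective))

variable {W X}

lemma toR_coe (x : CR W X) : toR W X (x : W.H X) = x :=
  LinearMap.congr_fun (Classical.choose_spec
    ((Subalgebra.center ℚ (W.H X)).val.toLinearMap.exists_leftInverse_of_injective
    (LinearMap.ker_eq_bot.2 Subtype.val_injective))) x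

lemma coe_toR {x : W.H X} (hx : x ∈ Subalgebra.center ℚ (W.H X)) :
    ((toR W X x : CR W X) : W.H X) = x :=
  congrArg Subtype.val (toR_coe ⟨x, hx⟩)

lemma coe_toR_alg {j : ℕ} {x : W.H X} (hx : x ∈ algClasses W X j) :
    ((toR W X x : CR W X) : W.H X) = x := coe_toR (alg_center hx)

lemma toR_mem {j : ℕ} {x : W.H X} (hx : x ∈ algClasses W X j) : toR W X x ∈ (GX W X).gr j := by
  change ((toR W X x : CR W X) : W.H X) ∈ algClasses W X j
  rw [coe_toR_alg hx]
  exact hx

lemma mem_GX {j : ℕ} {x : CR W X} : x ∈ (GX W X).gr j ↔ (x : W.H X) ∈ algClasses W X j := Iff.rfl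

lemma GX_n : (GX W X).n = X.dim := rfl

lemma GX_tr (x : CR W X) : (GX W X).tr x = retr W (W.tr X (x : W.H X)) := rfl

lemma cl_divPow (D z : X.Cycles) (m : ℕ) :
    W.cl X (divPow ops D m z) = W.cl X D ^ m * W.cl X z := by
  induction m with
  | zero => rw [pow_zero, one_mul]; rfl
  | succ m ih =>
    have h1 : divPow ops D (m + 1) z = ops.mul D (divPow ops D m z) := by
      rw [divPow, divPow, Function.iterate_succ_apply']
    rw [h1, W.cl_mul, ih, pow_succ', mul_assoc]

lemma isCyc_divPow {D z : X.Cycles} (hD : X.IsCyc 1 D) {i : ℕ} (hz : X.IsCyc i z) (m : ℕ) :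
    X.IsCyc (m + i) (divPow ops D m z) := by
  induction m with
  | zero => rw [zero_add]; exact hz
  | succ m ih =>
    have h1 : divPow ops D (m + 1) z = ops.mul D (divPow ops D m z) := by
      rw [divPow, divPow, Function.iterate_succ_apply']
    rw [h1, show m + 1 + i = 1 + (m + i) by omega]
    exact ops.mul_mem hD ih

/-- intersection numbers as traces -/
lemma tr_three {D z w : X.Cycles} (hD : X.IsCyc 1 D) {i j m : ℕ} (hz : X.IsCyc j z)
    (hw : X.IsCyc i w) (h : i + j + m = X.dim) :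
    (GX W X).tr (toR W X (W.cl X z) * toR W X (W.cl X w) * toR W X (W.cl X D) ^ m) =
      X.V.degCycle (ops.mul z (divPow ops D m w)) := by
  have hc : X.IsCyc X.dim (ops.mul z (divPow ops D m w)) := by
    have := ops.mul_mem hz (isCyc_divPow (ops := ops) hD hw m)
    rwa [show j + (m + i) = X.dim by omega] at this
  rw [GX_tr]
  have h1 : ((toR W X (W.cl X z) * toR W X (W.cl X w) * toR W X (W.cl X D) ^ m : CR W X) :
      W.H X) = W.cl X (ops.mul z (divPow ops D m w)) := by
    rw [W.cl_mul, cl_divPow]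
    rw [show ((toR W X (W.cl X z) * toR W X (W.cl X w) * toR W X (W.cl X D) ^ m : CR W X) :
      W.H X) = (toR W X (W.cl X z) : W.H X) * (toR W X (W.cl X w) : W.H X) *
        (toR W X (W.cl X D) : W.H X) ^ m from rfl]
    rw [coe_toR_alg ⟨z, hz, rfl⟩, coe_toR_alg ⟨w, hw, rfl⟩, coe_toR_alg ⟨D, hD, rfl⟩, mul_assoc,
      ← W.even_comm (alg_even (alg_pow ⟨D, hD, rfl⟩ m))]
  rw [h1, W.tr_cl hc, retr_cast]

lemma tr_two {z w : X.Cycles} {i j : ℕ} (hz : X.IsCyc j z)
    (hw : X.IsCyc i w) (h : i + j = X.dim) :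
    (GX W X).tr (toR W X (W.cl X z) * toR W X (W.cl X w)) = X.V.degCycle (ops.mul z w) := by
  have hc : X.IsCyc X.dim (ops.mul z w) := by
    have := ops.mul_mem hz hw
    rwa [show j + i = X.dim by omega] at this
  rw [GX_tr]
  have h1 : ((toR W X (W.cl X z) * toR W X (W.cl X w) : CR W X) : W.H X) =
      W.cl X (ops.mul z w) := by
    rw [W.cl_mul]
    rw [show ((toR W X (W.cl X z) * toR W X (W.cl X w) : CR W X) :
      W.H X) = (toR W X (W.cl X z) : W.H X) * (toR W X (W.cl X w) : W.H X) from rfl]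
    rw [coe_toR_alg ⟨z, hz, rfl⟩, coe_toR_alg ⟨w, hw, rfl⟩]
  rw [h1, W.tr_cl hc, retr_cast]

/-- an element of the graded ring comes from a cycle -/
lemma exists_cyc {j : ℕ} {x : CR W X} (hx : x ∈ (GX W X).gr j) :
    ∃ z, X.IsCyc j z ∧ x = toR W X (W.cl X z) := by
  obtain ⟨z, hz, h⟩ := mem_GX.1 hx
  exact ⟨z, hz, by rw [h, toR_coe]⟩

lemma triv_iff {j : ℕ} {z : X.Cycles} (hz : X.IsCyc j z) :
    (GX W X).Triv j (toR W X (W.cl X z)) ↔ NumTriv ops X j z := by
  constructor
  · intro h i hi w hw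
    rw [← tr_two (W := W) hz hw (by omega)]
    exact h _ (by rw [GX_n]; omega) _ (toR_mem ⟨w, hw, rfl⟩)
  · intro h i hi y hy
    obtain ⟨w, hw, rfl⟩ := exists_cyc hy
    rw [GX_n] at hi
    rw [tr_two hz hw hi]
    exact h i hi w hw

lemma toR_divPow {D z : X.Cycles} (hD : X.IsCyc 1 D) {j : ℕ} (hz : X.IsCyc j z) (m : ℕ) :
    toR W X (W.cl X (divPow ops D m z)) = toR W X (W.cl X z) * toR W X (W.cl X D) ^ m := by
  apply Subtype.ext
  rw [coe_toR_alg ⟨_, isCyc_divPow hD hz m, rfl⟩, Subalgebra.coe_mul, Subalgebra.coe_pow,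
    coe_toR_alg ⟨z, hz, rfl⟩, coe_toR_alg ⟨D, hD, rfl⟩, cl_divPow,
    W.even_comm (alg_even (alg_pow ⟨D, hD, rfl⟩ m))]

/-- the Hodge-Riemann property of the ring of algebraic classes -/
lemma hrat_iff {D : X.Cycles} (hD : X.IsCyc 1 D) {j : ℕ} (hj : 2 * j ≤ X.dim) :
    (GX W X).HRat (toR W X (W.cl X D)) j ↔ HodgeNumIn ops X D j := by
  have hdeg : X.dim - 2 * j + 1 + j = X.dim - j + 1 := by omega
  constructor
  · intro h z hz hprim hnt
    rw [← tr_three (W := W) hD hz hz (by omega)]
    refine h _ (toR_mem ⟨z, hz, rfl⟩) ?_ ?_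
    · intro i hi y hy
      have hc := isCyc_divPow (ops := ops) hD hz (X.dim - 2 * j + 1)
      rw [hdeg] at hc
      have h1 := (triv_iff (W := W) hc).2 hprim i (by rw [GX_n]; omega) y hy
      rw [toR_divPow hD hz] at h1
      rw [GX_n, mul_right_comm]
      exact h1
    · rw [triv_iff hz]
      exact hnt
  · intro h x hx hprim hnt
    obtain ⟨z, hz, rfl⟩ := exists_cyc hx
    rw [GX_n]
    rw [tr_three hD hz hz (by omega)]
    refine h z hz ?_ ?_
    · have hc := isCyc_divPow (ops := ops) hD hz (X.dim - 2 * j + 1)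
      rw [hdeg] at hc
      rw [← triv_iff (W := W) hc, toR_divPow hD hz]
      intro i hi y hy
      rw [GX_n] at hi
      rw [mul_right_comm]
      exact hprim i (by omega) y hy
    · rwa [triv_iff hz] at hnt

/-- the Lefschetz property of the ring of algebraic classes -/
lemma lefat_iff {D : X.Cycles} (hD : X.IsCyc 1 D) {j : ℕ} (hj : 2 * j ≤ X.dim) :
    (GX W X).Lefat (toR W X (W.cl X D)) j ↔ ∀ z, X.IsCyc j z →
      NumTriv ops X (X.dim - j) (divPow ops D (X.dim - 2 * j) z) → NumTriv ops X j z := by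
  have hdeg : X.dim - 2 * j + j = X.dim - j := by omega
  constructor
  · intro h z hz ht
    have hc := isCyc_divPow (ops := ops) hD hz (X.dim - 2 * j)
    rw [hdeg] at hc
    rw [← triv_iff (W := W) hz]
    rw [← triv_iff (W := W) hc, toR_divPow hD hz] at ht
    refine h _ (toR_mem ⟨z, hz, rfl⟩) ?_
    rwa [GX_n, show j + (X.dim - 2 * j) = X.dim - j by omega]
  · intro h x hx ht
    obtain ⟨z, hz, rfl⟩ := exists_cyc hx
    have hc := isCyc_divPow (ops := ops) hD hz (X.dim - 2 * j)
    rw [hdeg] at hc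
    rw [triv_iff hz]
    refine h z hz ?_
    rw [← triv_iff (W := W) hc, toR_divPow hD hz]
    rwa [GX_n, show j + (X.dim - 2 * j) = X.dim - j by omega] at ht

end Pool.Agent.V7H39.HS
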