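import Pool.Agent.V7H39.HS.Core

/-!
# The Hodge-Riemann property of the ring of a projective bundle
-/

set_option autoImplicit false

namespace Pool.Agent.V7H39.HS

open Polynomial Filter Topology

namespace GRing

variable {R : Type*} [CommRing R] [Algebra ℚ R] (G : GRing R)

/-- homogeneous polynomials of degree `j` -/
def pgr (j : ℕ) : Submodule ℚ R[X] where
  carrier := {p | ∀ a, (∀ i, i + a = j → p.coeff a ∈ G.gr i) ∧ (j < a → p.coeff a = 0)}
  zero_mem' := fun a => ⟨fun i _ => by rw [coeff_zero]; exact (G.gr i).zero_mem,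
    fun _ => coeff_zero a⟩
  add_mem' := fun {p q} hp hq a => ⟨fun i hi => by
      rw [coeff_add]
      exact (G.gr i).add_mem ((hp a).1 i hi) ((hq a).1 i hi), fun h => by
      rw [coeff_add, (hp a).2 h, (hq a).2 h, add_zero]⟩
  smul_mem' := fun c p hp a => ⟨fun i hi => by
      rw [coeff_smul]
      exact (G.gr i).smul_mem _ ((hp a).1 i hi), fun h => by
      rw [coeff_smul, (hp a).2 h, smul_zero]⟩

theorem mem_pgr {j : ℕ} {p : R[X]} : p ∈ G.pgr j ↔
    ∀ a, (∀ i, i + a = j → p.coeff a ∈ G.gr i) ∧ (j < a → p.coeff a = 0) := Iff.rfl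

theorem pgr_mul {i j : ℕ} {p q : R[X]} (hp : p ∈ G.pgr i) (hq : q ∈ G.pgr j) :
    p * q ∈ G.pgr (i + j) := by
  intro c
  constructor
  · intro u hu
    rw [coeff_mul]
    refine (G.gr u).sum_mem fun x hx => ?_
    rw [Finset.HasAntidiagonal.mem_antidiagonal] at hx
    by_cases h1 : i < x.1
    · rw [(hp x.1).2 h1, zero_mul]
      exact (G.gr u).zero_mem
    by_cases h2 : j < x.2
    · rw [(hq x.2).2 h2, mul_zero]
      exact (G.gr u).zero_mem
    have h3 := G.mul_mem ((hp x.1).1 (i - x.1) (by omega)) ((hq x.2).1 (j - x.2) (by omega))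
    rwa [show i - x.1 + (j - x.2) = u by omega] at h3
  · intro h
    rw [coeff_mul]
    refine Finset.sum_eq_zero fun x hx => ?_
    rw [Finset.HasAntidiagonal.mem_antidiagonal] at hx
    by_cases h1 : i < x.1
    · rw [(hp x.1).2 h1, zero_mul]
    by_cases h2 : j < x.2
    · rw [(hq x.2).2 h2, mul_zero]
    omega

theorem C_mul_X_pow_mem {i a j : ℕ} {y : R} (hy : y ∈ G.gr i) (h : i + a = j) :
    C y * X ^ a ∈ G.pgr j := by
  intro b
  rw [coeff_C_mul_X_pow]
  constructor
  · intro u hu
    split_ifs with h1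
    · rwa [show u = i by omega]
    · exact (G.gr u).zero_mem
  · intro h1
    rw [if_neg (by omega)]

/-- the graded ring `R[X]` with trace `tr` of the `k`-th coefficient -/
noncomputable def poly (k : ℕ) : GRing R[X] where
  n := G.n + k
  gr := G.pgr
  tr := G.tr ∘ₗ (lcoeff R k).restrictScalars ℚ
  one_mem := by
    have := G.C_mul_X_pow_mem (i := 0) (a := 0) (j := 0) G.one_mem rfl
    simpa using this
  mul_mem := G.pgr_mul
  fin := by
    classical
    intro i j hij
    have hch : ∀ b : ℕ, ∃ s : Finset R, (∀ t ∈ s, t ∈ G.gr (i - b)) ∧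
        ((i - b) + (j - (k - b)) = G.n →
        ∀ x ∈ G.gr (j - (k - b)), (∀ t ∈ s, G.tr (x * t) = 0) →
          ∀ y ∈ G.gr (i - b), G.tr (x * y) = 0) := by
      intro b
      by_cases h : (i - b) + (j - (k - b)) = G.n
      · obtain ⟨s, hs1, hs2⟩ := G.fin _ _ h
        exact ⟨s, hs1, fun _ => hs2⟩
      · exact ⟨∅, fun t ht => absurd ht (Finset.notMem_empty t), fun h' => absurd h' h⟩
    choose s hs1 hs2 using hch
    refine ⟨(Finset.range (min i k + 1)).biUnion fun b => (s b).image fun t => C t * X ^ b, ?_, ?_⟩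
    · intro t ht
      rw [Finset.mem_biUnion] at ht
      obtain ⟨b, hb, ht⟩ := ht
      rw [Finset.mem_image] at ht
      obtain ⟨t', ht', rfl⟩ := ht
      rw [Finset.mem_range] at hb
      exact G.C_mul_X_pow_mem (hs1 b _ ht') (by omega)
    · intro p hp hdet q hq
      change G.tr ((p * q).coeff k) = 0
      rw [coeff_mul, map_sum]
      refine Finset.sum_eq_zero fun x hx => ?_
      rw [Finset.HasAntidiagonal.mem_antidiagonal] at hx
      by_cases h1 : j < x.1
      · rw [(hp x.1).2 h1, zero_mul, map_zero]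
      by_cases h2 : i < x.2
      · rw [(hq x.2).2 h2, mul_zero, map_zero]
      have hx1 : k - x.2 = x.1 := by omega
      refine hs2 x.2 (by omega) _ (by
        rw [hx1]
        exact (hp x.1).1 _ (by omega)) ?_ _ ((hq x.2).1 _ (by omega))
      intro t ht
      have h3 := hdet (C t * X ^ x.2) (by
        rw [Finset.mem_biUnion]
        exact ⟨x.2, Finset.mem_range.2 (by omega), Finset.mem_image.2 ⟨t, ht, rfl⟩⟩)
      change G.tr ((p * (C t * X ^ x.2)).coeff k) = 0 at h3
      rw [show p * (C t * X ^ x.2) = (p * C t) * X ^ x.2 by ring, coeff_mul_X_pow',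
        if_pos (by omega), coeff_mul_C, hx1] at h3
      exact h3

@[simp] theorem poly_n (k : ℕ) : (G.poly k).n = G.n + k := rfl
theorem poly_gr (k j : ℕ) : (G.poly k).gr j = G.pgr j := rfl
theorem poly_tr (k : ℕ) (p : R[X]) : (G.poly k).tr p = G.tr (p.coeff k) := rfl

variable {G}

theorem poly_triv_of {k j : ℕ} {p : R[X]} (hp : p ∈ G.pgr j)
    (h : ∀ a, a ≤ k → ∀ i, i + a = j → G.Triv i (p.coeff a)) : (G.poly k).Triv j p := by
  intro i hi q hq
  rw [poly_n] at hi
  rw [poly_tr, coeff_mul, map_sum]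
  refine Finset.sum_eq_zero fun x hx => ?_
  rw [Finset.HasAntidiagonal.mem_antidiagonal] at hx
  by_cases h1 : j < x.1
  · rw [(hp x.1).2 h1, zero_mul, map_zero]
  by_cases h2 : i < x.2
  · rw [(hq x.2).2 h2, mul_zero, map_zero]
  exact h x.1 (by omega) (j - x.1) (by omega) (i - x.2) (by omega) _ ((hq x.2).1 _ (by omega))

theorem triv_coeff {k j : ℕ} {p : R[X]} (h : (G.poly k).Triv j p) {a : ℕ} (ha : a ≤ k) {i : ℕ}
    (hi : i + a = j) : G.Triv i (p.coeff a) := by
  intro u hu y hy
  have h3 := h (u + (k - a)) (by rw [poly_n]; omega) _ (G.C_mul_X_pow_mem hy rfl)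
  rw [poly_tr, show p * (C y * X ^ (k - a)) = (p * C y) * X ^ (k - a) by ring,
    coeff_mul_X_pow', if_pos (by omega), coeff_mul_C, show k - (k - a) = a by omega] at h3
  exact h3

theorem X_add_C_mem {L : R} (hL : L ∈ G.gr 1) : X + C L ∈ G.pgr 1 := by
  have h1 := G.C_mul_X_pow_mem (i := 0) (a := 1) (j := 1) G.one_mem rfl
  have h2 := G.C_mul_X_pow_mem (i := 1) (a := 0) (j := 1) hL rfl
  have h3 := (G.pgr 1).add_mem h1 h2
  simpa using h3

theorem hr_zero {L : R} {p : ℕ} (h : G.HRle L p) : (G.poly 0).HRle (X + C L) p := by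
  intro j hjp hj z hz hprim hnt
  rw [poly_n] at *
  have hx : z.coeff 0 ∈ G.gr j := (hz 0).1 j (by omega)
  have hk : ∀ p : R[X], ∀ s : ℕ, (G.poly 0).tr (p * (X + C L) ^ s) = G.tr (p.coeff 0 * L ^ s) := by
    intro p s
    rw [poly_tr, mul_coeff_zero, coeff_X_add_C_pow]
    simp
  rw [hk, mul_coeff_zero]
  rw [show G.n + 0 - 2 * j = G.n - 2 * j by omega]
  refine h j hjp (by omega) _ hx ?_ ?_
  · intro i hi y hy
    have h1 := hprim i hi (C y * X ^ 0) (G.C_mul_X_pow_mem hy rfl)
    rw [hk, mul_coeff_zero] at h1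
    simpa using h1
  · intro ht
    apply hnt
    refine poly_triv_of hz ?_
    intro a ha i hi
    obtain rfl : a = 0 := by omega
    obtain rfl : i = j := by omega
    exact ht

/-- the step to a bundle of projective lines -/
theorem hr_one {L : R} (hL : L ∈ G.gr 1) {p : ℕ} (h : G.HRle L p) :
    (G.poly 1).HRle (X + C L) p := by
  intro j hjp hj z hz hprim hnt
  rw [poly_n] at hj
  have hk : ∀ p : R[X], ∀ s : ℕ, (G.poly 1).tr (p * (X + C L) ^ s) =
      s * G.tr (p.coeff 0 * L ^ (s - 1)) + G.tr (p.coeff 1 * L ^ s) := by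
    intro p s
    rw [poly_tr, mul_coeff_one, coeff_X_add_C_pow, coeff_X_add_C_pow, map_add]
    congr 1
    · rw [Nat.choose_one_right, ← mul_assoc, mul_comm _ (s : R), ← nsmul_eq_mul, map_nsmul,
        nsmul_eq_mul]
    · simp
  set x := z.coeff 0 with hx0
  set y := z.coeff 1 with hy0
  have hx : x ∈ G.gr j := (hz 0).1 j (by omega)
  set N := G.n + 1 - 2 * j with hN
  have hn1 : (G.poly 1).n - 2 * j = N := rfl
  rw [hn1, hk, mul_coeff_zero, mul_coeff_one, ← hx0, ← hy0]
  rw [hn1] at hprim
  rcases Nat.eq_zero_or_pos j with rfl | hj0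
  · -- degree zero
    have hy1 : y = 0 := (hz 1).2 (by omega)
    have hxnt : ¬ G.Triv 0 x := by
      intro ht
      apply hnt
      refine poly_triv_of hz ?_
      intro a ha i hi
      obtain rfl : a = 0 := by omega
      obtain rfl : i = 0 := by omega
      exact ht
    have h1 := h 0 hjp (by omega) x hx (fun i hi => by omega) hxnt
    rw [hy1]
    have h2 : N - 1 = G.n - 2 * 0 := by omega
    rw [h2]
    have h3 : (0 : ℚ) < N := by
      have : 0 < N := by omega
      exact_mod_cast this
    rw [pow_zero, one_mul] at h1 ⊢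
    have e0 : (x * 0 + 0 * x) * L ^ N = 0 := by ring
    rw [e0, map_zero, add_zero]
    exact mul_pos h3 h1
  · obtain ⟨i, rfl⟩ : ∃ i, j = i + 1 := ⟨j - 1, by omega⟩
    have hy : y ∈ G.gr i := (hz 1).1 i rfl
    have e1 : ∀ v ∈ G.gr i, ((N : ℚ) + 1) * G.tr (x * v * L ^ N) + G.tr (y * v * L ^ (N + 1)) = 0 := by
      intro v hv
      have h1 := hprim i rfl (C v * X ^ 0) (G.C_mul_X_pow_mem hv rfl)
      rw [hk, mul_coeff_zero, mul_coeff_one] at h1
      simp only [pow_zero, mul_one, coeff_C_zero, coeff_C_succ, Nat.add_sub_cancel, mul_zero,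
        zero_add, ← hx0, ← hy0] at h1
      push_cast at h1
      exact h1
    have e2 : ∀ u, u + 1 = i → ∀ v ∈ G.gr u, G.tr (x * v * L ^ (N + 1)) = 0 := by
      intro u hu v hv
      have h1 := hprim i rfl (C v * X ^ 1) (G.C_mul_X_pow_mem hv hu)
      rw [hk, mul_coeff_zero, mul_coeff_one] at h1
      simp only [pow_one, mul_coeff_zero, coeff_X_zero, mul_zero, zero_mul, map_zero, zero_add,
        mul_coeff_one, coeff_C_zero, coeff_X_one, mul_one, coeff_C_succ, add_zero, ← hx0] at h1
      exact h1
    -- `y` is primitive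
    have hyp : ∀ u, u + 1 = i → ∀ v ∈ G.gr u, G.tr (y * v * L ^ (G.n - 2 * i + 1)) = 0 := by
      intro u hu v hv
      have h1 := e1 (v * L) (by rw [← hu]; exact G.mul_mem hv hL)
      have h2 := e2 u hu v hv
      rw [show x * (v * L) * L ^ N = x * v * L ^ (N + 1) by ring, h2, mul_zero, zero_add] at h1
      rw [show G.n - 2 * i + 1 = (N + 1) + 1 by omega]
      rw [show y * v * L ^ (N + 1 + 1) = y * (v * L) * L ^ (N + 1) by ring]
      exact h1
    have hyy : G.Triv i y ∨ 0 < (-1) ^ i * G.tr (y * y * L ^ (N + 1)) := by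
      by_cases ht : G.Triv i y
      · exact Or.inl ht
      · right
        have := h i (by omega) (by omega) y hy hyp ht
        rwa [show G.n - 2 * i = N + 1 by omega] at this
    have hyy0 : 0 ≤ (-1) ^ i * G.tr (y * y * L ^ (N + 1)) := by
      rcases hyy with ht | hp
      · rw [ht.tr_pow hy hL (by omega), mul_zero]
      · exact hp.le
    -- the element `u`
    set c : ℚ := (N : ℚ) + 1 with hc
    have hc0 : 0 < c := by positivity
    set u := c • x + L * y with hu
    have hum : u ∈ G.gr (i + 1) := by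
      refine (G.gr _).add_mem ((G.gr _).smul_mem _ hx) ?_
      rw [add_comm i 1]
      exact G.mul_mem hL hy
    have hup : ∀ v ∈ G.gr i, G.tr (u * v * L ^ N) = 0 := by
      intro v hv
      have h1 := e1 v hv
      rw [hu, show (c • x + L * y) * v * L ^ N = c • (x * v * L ^ N) + y * v * L ^ (N + 1) by
        rw [add_mul, add_mul, smul_mul_assoc, smul_mul_assoc]; ring, map_add, map_smul, smul_eq_mul]
      exact h1
    have hxy : c * G.tr (x * y * L ^ N) + G.tr (y * y * L ^ (N + 1)) = 0 := e1 y hy
    have hxu : G.Triv i y → G.Triv (i + 1) u → G.Triv (i + 1) x := by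
      intro ht1 ht2
      have h1 : G.Triv (i + 1) (L * y) := by
        rw [mul_comm]
        exact ht1.mul hL
      have h2 : x = c⁻¹ • (u - L * y) := by
        rw [hu, add_sub_cancel_right, smul_smul, inv_mul_cancel₀ hc0.ne', one_smul]
      rw [h2]
      exact (ht2.sub h1).smul _
    have hzt : G.Triv i y → G.Triv (i + 1) x → False := by
      intro ht1 ht2
      apply hnt
      refine poly_triv_of hz ?_
      intro a ha b hb
      rcases Nat.lt_or_ge a 1 with h1 | h1
      · obtain rfl : a = 0 := by omega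
        obtain rfl : b = i + 1 := by omega
        exact ht2
      · obtain rfl : a = 1 := by omega
        obtain rfl : b = i := by omega
        exact ht1
    rw [show x * y + y * x = (2 : ℚ) • (x * y) by rw [two_smul]; ring, smul_mul_assoc, map_smul,
      smul_eq_mul, pow_succ]
    rcases Nat.eq_zero_or_pos N with hN0 | hNp
    · -- middle degree
      have ht2 : G.Triv (i + 1) u := by
        intro a ha v hv
        obtain rfl : a = i := by omega
        have h1 := hup v hv
        rw [hN0, pow_zero, mul_one] at h1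
        exact h1
      rcases hyy with ht1 | hp
      · exact absurd (hxu ht1 ht2) (hzt ht1)
      · rw [hN0] at hxy hp ⊢
        rw [hc, hN0] at hxy
        push_cast at hxy ⊢
        have h1 : G.tr (x * y * L ^ 0) = - G.tr (y * y * L ^ (0 + 1)) := by linarith
        rw [h1]
        have h2 : (-1 : ℚ) ^ i * -1 * (0 * G.tr (x * x * L ^ (0 - 1)) +
            2 * -G.tr (y * y * L ^ (0 + 1))) = 2 * ((-1) ^ i * G.tr (y * y * L ^ (0 + 1))) := by
          ring
        rw [h2]
        linarith
    · have huu : G.Triv (i + 1) u ∨ 0 < (-1) ^ (i + 1) * G.tr (u * u * L ^ (N - 1)) := by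
        by_cases ht : G.Triv (i + 1) u
        · exact Or.inl ht
        · right
          have h1 := h (i + 1) hjp (by omega) u hum (fun a ha v hv => by
            obtain rfl : a = i := by omega
            rw [show G.n - 2 * (a + 1) + 1 = N by omega]
            exact hup v hv) ht
          rwa [show G.n - 2 * (i + 1) = N - 1 by omega] at h1
      have huu0 : 0 ≤ (-1) ^ (i + 1) * G.tr (u * u * L ^ (N - 1)) := by
        rcases huu with ht | hp
        · rw [ht.tr_pow hum hL (by omega), mul_zero]
        · exact hp.le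
      have hexp : G.tr (u * u * L ^ (N - 1)) = c ^ 2 * G.tr (x * x * L ^ (N - 1)) +
          2 * c * G.tr (x * y * L ^ N) + G.tr (y * y * L ^ (N + 1)) := by
        have h1 : u * u * L ^ (N - 1) = (c ^ 2) • (x * x * L ^ (N - 1)) +
            (2 * c) • (x * y * L ^ N) + y * y * L ^ (N + 1) := by
          obtain ⟨K, hK⟩ : ∃ K, N = K + 1 := ⟨N - 1, by omega⟩
          rw [hu, hK, Nat.add_sub_cancel]
          simp only [Algebra.smul_def, map_mul, map_pow, map_ofNat]
          ring
        rw [h1, map_add, map_add, map_smul, map_smul, smul_eq_mul, smul_eq_mul]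
      have hkey : c ^ 2 * (N * G.tr (x * x * L ^ (N - 1)) + 2 * G.tr (x * y * L ^ N)) =
          N * G.tr (u * u * L ^ (N - 1)) - (N + 2) * G.tr (y * y * L ^ (N + 1)) := by
        rw [hexp]
        have h1 : G.tr (y * y * L ^ (N + 1)) = - (c * G.tr (x * y * L ^ N)) := by linarith
        rw [h1, hc]
        ring
      have hpos : 0 < (N : ℚ) * ((-1) ^ (i + 1) * G.tr (u * u * L ^ (N - 1))) +
          (N + 2) * ((-1) ^ i * G.tr (y * y * L ^ (N + 1))) := by
        have hNq : (0 : ℚ) < N := by exact_mod_cast hNp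
        rcases hyy with ht1 | hp
        · rcases huu with ht2 | hp2
          · exact absurd (hxu ht1 ht2) (hzt ht1)
          · have := mul_pos hNq hp2
            have h4 : 0 ≤ ((N : ℚ) + 2) * ((-1) ^ i * G.tr (y * y * L ^ (N + 1))) :=
              mul_nonneg (by positivity) hyy0
            linarith
        · have h4 : 0 < ((N : ℚ) + 2) * ((-1) ^ i * G.tr (y * y * L ^ (N + 1))) :=
            mul_pos (by positivity) hp
          have h5 : 0 ≤ (N : ℚ) * ((-1) ^ (i + 1) * G.tr (u * u * L ^ (N - 1))) :=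
            mul_nonneg hNq.le huu0
          linarith
      have hc2 : 0 < c ^ 2 := by positivity
      have hfin : c ^ 2 * ((-1) ^ i * -1 * (N * G.tr (x * x * L ^ (N - 1)) +
          2 * G.tr (x * y * L ^ N))) = (N : ℚ) * ((-1) ^ (i + 1) * G.tr (u * u * L ^ (N - 1))) +
          (N + 2) * ((-1) ^ i * G.tr (y * y * L ^ (N + 1))) := by
        rw [show c ^ 2 * ((-1) ^ i * -1 * (N * G.tr (x * x * L ^ (N - 1)) +
          2 * G.tr (x * y * L ^ N))) = (-1) ^ i * -1 * (c ^ 2 * (N * G.tr (x * x * L ^ (N - 1)) +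
          2 * G.tr (x * y * L ^ N))) by ring, hkey, pow_succ]
        ring
      rw [← hfin] at hpos
      exact (mul_pos_iff_of_pos_left hc2).1 hpos

/-- translation of the variable by a new variable -/
noncomputable def psi : R[X] →+* R[X][X] :=
  ((taylorAlgHom (X : R[X])) : R[X][X] →+* R[X][X]).comp (mapRingHom (C : R →+* R[X]))

omit [Algebra ℚ R] in
theorem psi_apply (p : R[X]) : psi p = taylor (X : R[X]) (p.map C) := rfl

omit [Algebra ℚ R] in
theorem psi_C (y : R) : psi (C y) = C (C y) := by
  rw [psi_apply, map_C, taylor_C]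

omit [Algebra ℚ R] in
theorem psi_X : psi (X : R[X]) = X + C X := by
  rw [psi_apply, map_X, taylor_X]

omit [Algebra ℚ R] in
theorem psi_coeff_zero (p : R[X]) : (psi p).coeff 0 = p := by
  rw [psi_apply, taylor_coeff_zero, eval_map, eval₂_C_X]

omit [Algebra ℚ R] in
theorem psi_coeff_one (p : R[X]) : (psi p).coeff 1 = derivative p := by
  rw [psi_apply, taylor_coeff_one, derivative_map, eval_map, eval₂_C_X]

theorem psi_mem (k : ℕ) {j : ℕ} {p : R[X]} (hp : p ∈ G.pgr j) : psi p ∈ (G.poly k).pgr j := by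
  have h1 : psi p = ∑ a ∈ Finset.range (p.natDegree + 1), C (C (p.coeff a)) * (X + C X) ^ a := by
    conv_lhs => rw [p.as_sum_range_C_mul_X_pow]
    rw [map_sum]
    refine Finset.sum_congr rfl fun a _ => ?_
    rw [map_mul, map_pow, psi_C, psi_X]
  rw [h1]
  refine ((G.poly k).pgr j).sum_mem fun a _ => ?_
  by_cases ha : j < a
  · rw [(hp a).2 ha, C_0, C_0, zero_mul]
    exact ((G.poly k).pgr j).zero_mem
  · have h2 : C (p.coeff a) ∈ (G.poly k).gr (j - a) := by
      have h := G.C_mul_X_pow_mem (a := 0) ((hp a).1 (j - a) (by omega)) rfl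
      rw [pow_zero, mul_one] at h
      exact h
    have h3 : (C (C (p.coeff a)) : R[X][X]) ∈ (G.poly k).pgr (j - a) := by
      have h := (G.poly k).C_mul_X_pow_mem (a := 0) h2 rfl
      rw [pow_zero, mul_one] at h
      exact h
    have h4 : (X : R[X]) ∈ (G.poly k).gr 1 := by
      rw [poly_gr]
      have := G.C_mul_X_pow_mem (i := 0) (a := 1) (j := 1) G.one_mem rfl
      simpa using this
    have h5 : (X + C X : R[X][X]) ∈ (G.poly k).pgr 1 := X_add_C_mem h4
    have h6 : (X + C X : R[X][X]) ^ a ∈ ((G.poly k).poly 0).gr a := ((G.poly k).poly 0).pow_mem h5 a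
    have h7 := (G.poly k).pgr_mul h3 h6
    rwa [show j - a + a = j by omega] at h7

theorem derivative_mem {j : ℕ} {p : R[X]} (hp : p ∈ G.pgr (j + 1)) : derivative p ∈ G.pgr j := by
  intro a
  rw [coeff_derivative]
  constructor
  · intro i hi
    have h1 := (hp (a + 1)).1 i (by omega)
    have h2 : p.coeff (a + 1) * ((a : R) + 1) = ((a : ℚ) + 1) • p.coeff (a + 1) := by
      rw [Algebra.smul_def, map_add, map_natCast, map_one, mul_comm]
    rw [h2]
    exact (G.gr i).smul_mem _ h1
  · intro h
    rw [(hp (a + 1)).2 (by omega), zero_mul]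

theorem psi_triv {k j : ℕ} {t : R[X]} (htm : t ∈ G.pgr j) (htt : (G.poly (k + 1)).Triv j t) :
    ((G.poly k).poly 1).Triv j (psi t) := by
  refine poly_triv_of (psi_mem k htm) ?_
  intro a ha u hu
  rcases Nat.lt_or_ge a 1 with h3 | h3
  · obtain rfl : a = 0 := by omega
    rw [psi_coeff_zero]
    obtain rfl : u = j := by omega
    exact poly_triv_of htm fun b hb v hv => triv_coeff htt (by omega) hv
  · obtain rfl : a = 1 := by omega
    rw [psi_coeff_one]
    rw [← hu] at htm htt
    refine poly_triv_of (derivative_mem htm) fun b hb v hv => ?_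
    rw [coeff_derivative]
    have h2 : t.coeff (b + 1) * ((b : R) + 1) = ((b : ℚ) + 1) • t.coeff (b + 1) := by
      rw [Algebra.smul_def, map_add, map_natCast, map_one, mul_comm]
    rw [h2]
    exact (triv_coeff htt (by omega) (by omega)).smul _

theorem psi_tr (k : ℕ) (p : R[X]) :
    ((G.poly k).poly 1).tr (psi p) = (k + 1) * (G.poly (k + 1)).tr p := by
  rw [poly_tr, psi_coeff_one, poly_tr, poly_tr, coeff_derivative]
  have h2 : p.coeff (k + 1) * ((k : R) + 1) = ((k : ℚ) + 1) • p.coeff (k + 1) := by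
    rw [Algebra.smul_def, map_add, map_natCast, map_one, mul_comm]
  rw [h2, map_smul, smul_eq_mul]

theorem triv_of_psi {k j : ℕ} {z : R[X]} (ht : ((G.poly k).poly 1).Triv j (psi z)) :
    (G.poly (k + 1)).Triv j z := by
  intro i hi y hy
  have h3 := ht i hi (psi y) (psi_mem k hy)
  rw [← map_mul, psi_tr] at h3
  have hk0 : (0 : ℚ) < k + 1 := by positivity
  rcases mul_eq_zero.1 h3 with h4 | h4
  · exact absurd h4 hk0.ne'
  · exact h4

/-- **Hodge-Riemann for the ring of a bundle of projective spaces.** -/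
theorem hr_poly {L : R} (hL : L ∈ G.gr 1) {p : ℕ} (h : G.HRle L p) (k : ℕ) :
    (G.poly k).HRle (X + C L) p := by
  induction k with
  | zero => exact hr_zero h
  | succ k ih =>
    have hL' : X + C L ∈ (G.poly k).gr 1 := X_add_C_mem hL
    have hbig : ((G.poly k).poly 1).HRle (X + C (X + C L)) p := hr_one hL' ih
    have hpsiL : psi (X + C L) = X + C (X + C L) := by
      rw [map_add, psi_X, psi_C, C_add, add_assoc]
    have htr := psi_tr (G := G) k
    intro j hjp hj z hz hprim hnt
    have hn : ((G.poly k).poly 1).n = (G.poly (k + 1)).n := rfl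
    have hk0 : (0 : ℚ) < k + 1 := by positivity
    have h1 := hbig j hjp (by rw [hn]; exact hj) (psi z) (psi_mem k hz) ?_ ?_
    · rw [hn, ← hpsiL, ← map_mul, ← map_pow, ← map_mul, htr] at h1
      rw [show ∀ t : ℚ, (-1 : ℚ) ^ j * (((k : ℚ) + 1) * t) = ((k : ℚ) + 1) * ((-1) ^ j * t) from
        fun t => by ring] at h1
      exact (mul_pos_iff_of_pos_left hk0).1 h1
    · intro i hi w hw
      rw [hn]
      set N := (G.poly (k + 1)).n - 2 * j with hN
      set t := z * (X + C L) ^ (N + 1) with ht
      have htm : t ∈ G.pgr (j + (N + 1)) := by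
        have h3 : (X + C L) ^ (N + 1) ∈ (G.poly 0).gr (N + 1) :=
          (G.poly 0).pow_mem (X_add_C_mem hL) _
        exact G.pgr_mul hz h3
      have htt : (G.poly (k + 1)).Triv (j + (N + 1)) t := by
        intro u hu y hy
        have h3 : u = i := by omega
        subst h3
        have h4 := hprim u hi y hy
        rw [ht, mul_right_comm]
        exact h4
      have hpt := psi_triv htm htt
      have h5 := hpt i (by rw [hn]; omega) w hw
      have h6 : psi t = psi z * (X + C (X + C L)) ^ (N + 1) := by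
        rw [ht, map_mul, map_pow, hpsiL]
      rw [h6, mul_right_comm] at h5
      exact h5
    · intro ht
      exact hnt (triv_of_psi ht)

theorem lef_zero {L : R} {p : ℕ} (h : G.Lefle L p) : (G.poly 0).Lefle (X + C L) p := by
  intro j hjp hj z hz ht
  rw [poly_n] at *
  refine poly_triv_of hz ?_
  intro a ha i hi
  obtain rfl : a = 0 := by omega
  obtain rfl : i = j := by omega
  have h1 := triv_coeff ht (le_refl 0) rfl
  rw [mul_coeff_zero, coeff_X_add_C_pow] at h1
  simp only [Nat.choose_zero_right, Nat.cast_one, mul_one, Nat.sub_zero] at h1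
  exact h i hjp (by omega) _ ((hz 0).1 i (by omega)) h1

/-- the Lefschetz property for a bundle of projective lines -/
theorem lef_one {L : R} (hL : L ∈ G.gr 1) {p : ℕ} (h : G.Lefle L p) :
    (G.poly 1).Lefle (X + C L) p := by
  intro j hjp hj z hz ht
  rw [poly_n] at hj ht
  set x := z.coeff 0 with hx0
  set y := z.coeff 1 with hy0
  have hx : x ∈ G.gr j := (hz 0).1 j (by omega)
  set N := G.n + 1 - 2 * j with hN
  have t0 : G.Triv (j + N) (x * L ^ N) := by
    have h1 := triv_coeff ht (a := 0) (by omega) (i := j + N) rfl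
    rw [mul_coeff_zero, coeff_X_add_C_pow, ← hx0] at h1
    simp only [Nat.choose_zero_right, Nat.cast_one, mul_one, Nat.sub_zero] at h1
    exact h1
  have t1 : ∀ i, i + 1 = j + N → G.Triv i (x * (L ^ (N - 1) * (N : R)) + y * L ^ N) := by
    intro i hi
    have h1 := triv_coeff ht (a := 1) (by omega) (i := i) hi
    rw [mul_coeff_one, coeff_X_add_C_pow, coeff_X_add_C_pow, ← hx0, ← hy0] at h1
    simp only [Nat.choose_zero_right, Nat.cast_one, mul_one, Nat.sub_zero,
      Nat.choose_one_right] at h1
    exact h1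
  have key : (∀ i, i + 1 = j → G.Triv i y) ∧ G.Triv j x := by
    have hyt : ∀ i, i + 1 = j → G.Triv i y := by
      intro i hi
      have hy : y ∈ G.gr i := (hz 1).1 i hi
      refine h i (by omega) (by omega) y hy ?_
      have h1 := (t1 (i + N) (by omega)).mul hL
      rw [show G.n - 2 * i = N + 1 by omega]
      have h2 : G.Triv (i + (N + 1)) ((N : ℚ) • (x * L ^ N)) := by
        rw [show i + (N + 1) = j + N by omega]
        exact t0.smul _
      have h3 := h1.sub h2
      have h4 : (x * (L ^ (N - 1) * (N : R)) + y * L ^ N) * L - (N : ℚ) • (x * L ^ N) =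
          y * L ^ (N + 1) := by
        rw [Algebra.smul_def, map_natCast]
        rcases Nat.eq_zero_or_pos N with hN0 | hNp
        · rw [hN0]
          push_cast
          ring
        · obtain ⟨K, hK⟩ : ∃ K, N = K + 1 := ⟨N - 1, by omega⟩
          rw [hK, Nat.add_sub_cancel]
          ring
      rw [h4] at h3
      exact h3
    refine ⟨hyt, ?_⟩
    rcases Nat.eq_zero_or_pos N with hN0 | hNp
    · rw [hN0, pow_zero, mul_one, add_zero] at t0
      exact t0
    · have hNq : (N : ℚ) ≠ 0 := by
        have : 0 < N := hNp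
        exact_mod_cast this.ne'
      have h1 := t1 (j + (N - 1)) (by omega)
      have h2 : G.Triv (j + (N - 1)) (y * L ^ N) := by
        rcases Nat.eq_zero_or_pos j with hj0 | hj0
        · rw [hy0, (hz 1).2 (by omega), zero_mul]
          exact G.triv_zero _
        · have h3 := (hyt (j - 1) (by omega)).mul (G.pow_mem hL N)
          rwa [show j - 1 + N = j + (N - 1) by omega] at h3
      have h3 := (h1.sub h2).smul ((N : ℚ)⁻¹)
      have h4 : (N : ℚ)⁻¹ • (x * (L ^ (N - 1) * (N : R)) + y * L ^ N - y * L ^ N) =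
          x * L ^ (N - 1) := by
        rw [add_sub_cancel_right, ← mul_assoc, ← nsmul_eq_mul', ← Nat.cast_smul_eq_nsmul ℚ,
          smul_smul, inv_mul_cancel₀ hNq, one_smul]
      rw [h4] at h3
      refine h j hjp (by omega) x hx ?_
      rwa [show G.n - 2 * j = N - 1 by omega]
  refine poly_triv_of hz ?_
  intro a ha i hi
  rcases Nat.lt_or_ge a 1 with h3 | h3
  · obtain rfl : a = 0 := by omega
    obtain rfl : i = j := by omega
    exact key.2
  · obtain rfl : a = 1 := by omega
    exact key.1 i hi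

/-- the Lefschetz property for a bundle of projective spaces -/
theorem lef_poly {L : R} (hL : L ∈ G.gr 1) {p : ℕ} (h : G.Lefle L p) (k : ℕ) :
    (G.poly k).Lefle (X + C L) p := by
  induction k with
  | zero => exact lef_zero h
  | succ k ih =>
    have hL' : X + C L ∈ (G.poly k).gr 1 := X_add_C_mem hL
    have hbig : ((G.poly k).poly 1).Lefle (X + C (X + C L)) p := lef_one hL' ih
    have hpsiL : psi (X + C L) = X + C (X + C L) := by
      rw [map_add, psi_X, psi_C, C_add, add_assoc]
    intro j hjp hj z hz ht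
    have hn : ((G.poly k).poly 1).n = (G.poly (k + 1)).n := rfl
    apply triv_of_psi
    refine hbig j hjp (by rw [hn]; exact hj) _ (psi_mem k hz) ?_
    rw [hn, ← hpsiL, ← map_pow, ← map_mul]
    refine psi_triv ?_ ht
    have h3 : (X + C L) ^ ((G.poly (k + 1)).n - 2 * j) ∈
        (G.poly 0).gr ((G.poly (k + 1)).n - 2 * j) :=
      (G.poly 0).pow_mem (X_add_C_mem hL) _
    exact G.pgr_mul hz h3

/-- descent of the Hodge-Riemann property to the constants -/
theorem hr_of_poly {L : R} (hL : L ∈ G.gr 1) {k j : ℕ} (hj : 2 * j ≤ G.n) (h : (G.poly k).HRat (X + C L) j) :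
    G.HRat L j := by
  intro x hx hprim hnt
  have hz : C x ∈ G.pgr j := by
    have := G.C_mul_X_pow_mem (a := 0) hx rfl
    rwa [pow_zero, mul_one] at this
  have hNk : (G.poly k).n - 2 * j = G.n - 2 * j + k := by
    rw [poly_n]
    omega
  have h1 := h (C x) hz ?_ ?_
  · rw [hNk, poly_tr, ← C_mul, coeff_C_mul, coeff_X_add_C_pow, Nat.add_sub_cancel] at h1
    have h2 : x * x * (L ^ (G.n - 2 * j) * ((G.n - 2 * j + k).choose k : R)) =
        ((G.n - 2 * j + k).choose k : ℚ) • (x * x * L ^ (G.n - 2 * j)) := by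
      rw [Algebra.smul_def, map_natCast]
      ring
    rw [h2, map_smul, smul_eq_mul] at h1
    have hc : (0 : ℚ) < ((G.n - 2 * j + k).choose k : ℚ) := by
      exact_mod_cast Nat.choose_pos (Nat.le_add_left k _)
    rw [mul_left_comm] at h1
    exact (mul_pos_iff_of_pos_left hc).1 h1
  · intro i hi q hq
    rw [hNk, poly_tr, mul_assoc, coeff_C_mul, coeff_mul, Finset.mul_sum, map_sum]
    refine Finset.sum_eq_zero fun t ht => ?_
    rw [Finset.HasAntidiagonal.mem_antidiagonal] at ht
    rw [coeff_X_add_C_pow]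
    by_cases h2 : i < t.1
    · rw [(hq t.1).2 h2, zero_mul, mul_zero, map_zero]
    · have h3 := (hq t.1).1 (i - t.1) (by omega)
      have h4 : x * (q.coeff t.1 * (L ^ (G.n - 2 * j + k + 1 - t.2) *
          ((G.n - 2 * j + k + 1).choose t.2 : R))) =
          ((G.n - 2 * j + k + 1).choose t.2 : ℚ) • (x * (q.coeff t.1 *
            L ^ t.1) * L ^ (G.n - 2 * j + 1)) := by
        rw [Algebra.smul_def, map_natCast,
          show G.n - 2 * j + k + 1 - t.2 = t.1 + (G.n - 2 * j + 1) by omega, pow_add]
        ring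
      have h5 := G.mul_mem h3 (G.pow_mem hL t.1)
      rw [show i - t.1 + t.1 = i by omega] at h5
      rw [h4, map_smul, hprim i hi _ h5, smul_zero]
  · intro ht
    apply hnt
    have := triv_coeff ht (Nat.zero_le k) (i := j) rfl
    rwa [coeff_C_zero] at this

end GRing

end Pool.Agent.V7H39.HS
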