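import Pool.Agent.V7H39.HS.Poly

/-!
# The Hodge-Riemann property of a ring decomposed into blocks
-/

set_option autoImplicit false

namespace Pool.Agent.V7H39.HS

open Polynomial Filter Topology

universe u

variable {RY : Type u} [CommRing RY] [Algebra ℚ RY]

/-- A block: a graded ring `G` with a class `l`, placed `k + 1` times in `GY` by the maps
`β 0, …, β k`, the map `β a` raising degrees by `a + d`. -/
structure Blk (GY : GRing RY) where
  R : Type u
  [ring : CommRing R]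
  [alg : Algebra ℚ R]
  G : GRing R
  l : R
  k : ℕ
  d : ℕ
  γ : ℚ
  β : ℕ → R →ₗ[ℚ] RY
  hγ : 0 < γ
  hn : G.n + k + 2 * d = GY.n
  hl : l ∈ G.gr 1
  β_mem : ∀ a, a ≤ k → ∀ i c, c ∈ G.gr i → β a c ∈ GY.gr (i + a + d)
  β_triv : ∀ a, a ≤ k → ∀ i c, c ∈ G.gr i → G.Triv i c → GY.Triv (i + a + d) (β a c)

attribute [instance] Blk.ring Blk.alg

namespace Blk

variable {GY : GRing RY} (B : Blk GY)

/-- the scaled placement of the ring of polynomials -/
noncomputable def phi (m : ℕ) (p : B.R[X]) : RY :=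
  ∑ a ∈ Finset.range (B.k + 1), ((m : ℚ) ^ a)⁻¹ • B.β a (p.coeff a)

theorem phi_add (m : ℕ) (p q : B.R[X]) : B.phi m (p + q) = B.phi m p + B.phi m q := by
  simp only [phi, coeff_add, map_add, smul_add, Finset.sum_add_distrib]

theorem phi_smul (m : ℕ) (c : ℚ) (p : B.R[X]) : B.phi m (c • p) = c • B.phi m p := by
  simp only [phi, coeff_smul, map_smul, Finset.smul_sum]
  refine Finset.sum_congr rfl fun a _ => ?_
  rw [smul_comm]

theorem phi_zero (m : ℕ) : B.phi m 0 = 0 := by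
  simp only [phi, coeff_zero, map_zero, smul_zero, Finset.sum_const_zero]

theorem phi_sum (m : ℕ) {κ : Type*} (s : Finset κ) (p : κ → B.R[X]) :
    B.phi m (∑ i ∈ s, p i) = ∑ i ∈ s, B.phi m (p i) := by
  classical
  induction s using Finset.induction_on with
  | empty => rw [Finset.sum_empty, Finset.sum_empty, phi_zero]
  | insert a s ha ih => rw [Finset.sum_insert ha, Finset.sum_insert ha, phi_add, ih]

theorem phi_mem (m : ℕ) {u j : ℕ} (hj : u + B.d = j) {p : B.R[X]} (hp : p ∈ B.G.pgr u) :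
    B.phi m p ∈ GY.gr j := by
  refine (GY.gr j).sum_mem fun a hak => (GY.gr j).smul_mem _ ?_
  rw [Finset.mem_range] at hak
  by_cases ha : u < a
  · rw [(hp a).2 ha, map_zero]
    exact (GY.gr j).zero_mem
  · have h := B.β_mem a (by omega) _ _ ((hp a).1 (u - a) (by omega))
    rwa [show u - a + a + B.d = j by omega] at h

theorem phi_triv (m : ℕ) {u j : ℕ} (hj : u + B.d = j) {p : B.R[X]} (hp : p ∈ B.G.pgr u)
    (ht : (B.G.poly B.k).Triv u p) : GY.Triv j (B.phi m p) := by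
  refine GRing.Triv.sum fun a ha => GRing.Triv.smul ?_ _
  rw [Finset.mem_range] at ha
  by_cases h1 : u < a
  · rw [(hp a).2 h1, map_zero]
    exact GY.triv_zero j
  · have h := B.β_triv a (by omega) (u - a) _ ((hp a).1 (u - a) (by omega))
      (GRing.triv_coeff ht (by omega) (by omega))
    rwa [show u - a + a + B.d = j by omega] at h

end Blk

/-- compatibility of the blocks -/
structure Compat (GY : GRing RY) (F ξ : RY) {I : Type} [Fintype I] (B : I → Blk GY) : Prop where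
  hF : F ∈ GY.gr 1
  hξ : ξ ∈ GY.gr 1
  van : ∀ i i' a b t q u u' (c : (B i).R) (c' : (B i').R), c ∈ (B i).G.gr u →
    c' ∈ (B i').G.gr u' → a ≤ (B i).k → b ≤ (B i').k →
    u + a + (B i).d + (u' + b + (B i').d) + t + q = GY.n →
    (2 * (a + b + t) < (B i).k + (B i').k ∨
      (i ≠ i' ∧ 2 * (a + b + t) = (B i).k + (B i').k)) →
    GY.tr ((B i).β a c * (B i').β b c' * ξ ^ t * F ^ q) = 0
  eq : ∀ i a b t q u u' (c c' : (B i).R), c ∈ (B i).G.gr u → c' ∈ (B i).G.gr u' →
    u + a + (B i).d + (u' + b + (B i).d) + t + q = GY.n → a + b + t = (B i).k →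
    GY.tr ((B i).β a c * (B i).β b c' * ξ ^ t * F ^ q) =
      (-1) ^ (B i).d * (B i).γ * (B i).G.tr (c * c' * (B i).l ^ q)
  gen : ∀ j z, z ∈ GY.gr j → ∃ c : ∀ i, ℕ → (B i).R,
    (∀ i a u, u + a + (B i).d = j → c i a ∈ (B i).G.gr u) ∧
    (∀ i a, j < a + (B i).d → c i a = 0) ∧
    GY.Triv j (z - ∑ i, ∑ a ∈ Finset.range ((B i).k + 1), (B i).β a (c i a))

/-- bookkeeping of powers of the square root -/
theorem pw {s : ℝ} (hs : 0 < s) {K t a b w : ℕ} (ht : t ≤ K) (hw : w ≤ 2 * (a + b + t)) :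
    (s ^ 2) ^ (K - t) * (((s ^ 2) ^ a)⁻¹ * ((s ^ 2) ^ b)⁻¹) * ((s⁻¹) ^ (2 * K) * s ^ w) =
      (s⁻¹) ^ (2 * (a + b + t) - w) := by
  obtain ⟨e, rfl⟩ := Nat.exists_eq_add_of_le ht
  obtain ⟨E, hE⟩ := Nat.exists_eq_add_of_le hw
  rw [hE, Nat.add_sub_cancel_left, Nat.add_sub_cancel_left, inv_pow, inv_pow, ← pow_mul, ← pow_mul,
    ← pow_mul]
  have h0 := hs.ne'
  field_simp
  rw [← pow_add, ← pow_add, ← pow_add, ← pow_add]
  congr 1
  omega

theorem coeff_mul_mul {R : Type*} [CommRing R] (p q Q : R[X]) (k : ℕ) :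
    (p * q * Q).coeff k = ∑ a ∈ Finset.range (k + 1), ∑ b ∈ Finset.range (k + 1),
      if a + b ≤ k then p.coeff a * q.coeff b * Q.coeff (k - a - b) else 0 := by
  rw [mul_assoc, coeff_mul,
    Finset.Nat.sum_antidiagonal_eq_sum_range_succ_mk]
  refine Finset.sum_congr rfl fun a ha => ?_
  rw [Finset.mem_range] at ha
  rw [coeff_mul, Finset.Nat.sum_antidiagonal_eq_sum_range_succ_mk, Finset.mul_sum,
    ← Finset.sum_filter]
  refine Finset.sum_congr ?_ fun b _ => ?_
  · ext b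
    rw [Finset.mem_range, Finset.mem_filter, Finset.mem_range]
    omega
  · rw [mul_assoc]

theorem tendsto_sinv : Tendsto (fun m : ℕ => (Real.sqrt (m : ℝ))⁻¹) atTop (𝓝 0) :=
  tendsto_inv_atTop_zero.comp (Real.tendsto_sqrt_atTop.comp tendsto_natCast_atTop_atTop)

namespace Compat

variable {GY : GRing RY} {F ξ : RY} {I : Type} [Fintype I] {B : I → Blk GY}

/-- the limit value for a pair of monomials -/
noncomputable def lv (F ξ : RY) (B : I → Blk GY) (K : ℕ) (i i' : I) (a b : ℕ) (c : (B i).R)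
    (c' : (B i').R) : ℚ :=
  ∑ t ∈ Finset.range (K + 1), if 2 * (a + b + t) ≤ (B i).k + (B i').k then
    (K.choose t : ℚ) * GY.tr ((B i).β a c * (B i').β b c' * ξ ^ t * F ^ (K - t)) else 0

theorem lim_mono (h : Compat GY F ξ B) (K : ℕ) (i i' : I) (a b u u' : ℕ) (c : (B i).R)
    (c' : (B i').R) (hc : c ∈ (B i).G.gr u) (hc' : c' ∈ (B i').G.gr u') (ha : a ≤ (B i).k)
    (hb : b ≤ (B i').k) (hdeg : u + a + (B i).d + (u' + b + (B i').d) + K = GY.n) :
    Tendsto (fun m : ℕ => ((((m : ℚ) ^ a)⁻¹ * ((m : ℚ) ^ b)⁻¹ *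
        GY.tr ((B i).β a c * (B i').β b c' * ((m : ℚ) • F + ξ) ^ K) : ℚ) : ℝ) *
        (((Real.sqrt m)⁻¹) ^ (2 * K) * (Real.sqrt m) ^ ((B i).k + (B i').k))) atTop
      (𝓝 ((lv F ξ B K i i' a b c c' : ℚ) : ℝ)) := by
  set w := (B i).k + (B i').k with hw
  have hvan : ∀ t, t ≤ K → 2 * (a + b + t) < w →
      GY.tr ((B i).β a c * (B i').β b c' * ξ ^ t * F ^ (K - t)) = 0 := fun t ht hlt =>
    h.van i i' a b t (K - t) u u' c c' hc hc' ha hb (by omega) (Or.inl hlt)
  have h1 : Tendsto (fun m : ℕ => ∑ t ∈ Finset.range (K + 1),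
      (((K.choose t : ℚ) * GY.tr ((B i).β a c * (B i').β b c' * ξ ^ t * F ^ (K - t)) : ℚ) : ℝ) *
        ((Real.sqrt m)⁻¹) ^ (2 * (a + b + t) - w)) atTop
      (𝓝 (∑ t ∈ Finset.range (K + 1),
      (((K.choose t : ℚ) * GY.tr ((B i).β a c * (B i').β b c' * ξ ^ t * F ^ (K - t)) : ℚ) : ℝ) *
        (0 : ℝ) ^ (2 * (a + b + t) - w))) :=
    tendsto_finsetSum _ fun t _ => (tendsto_sinv.pow _).const_mul _
  have h2 : ∑ t ∈ Finset.range (K + 1),
      (((K.choose t : ℚ) * GY.tr ((B i).β a c * (B i').β b c' * ξ ^ t * F ^ (K - t)) : ℚ) : ℝ) *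
        (0 : ℝ) ^ (2 * (a + b + t) - w) = ((lv F ξ B K i i' a b c c' : ℚ) : ℝ) := by
    rw [lv, Rat.cast_sum]
    refine Finset.sum_congr rfl fun t _ => ?_
    rw [zero_pow_eq]
    by_cases hle : 2 * (a + b + t) ≤ w
    · rw [if_pos (by omega), if_pos hle, mul_one]
    · rw [if_neg (by omega), if_neg hle, mul_zero, Rat.cast_zero]
  rw [h2] at h1
  refine h1.congr' ?_
  filter_upwards [Filter.eventually_ge_atTop 1] with m hm
  have hm0 : (0 : ℝ) < m := by exact_mod_cast hm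
  set s := Real.sqrt (m : ℝ) with hs
  have hs0 : 0 < s := Real.sqrt_pos.2 hm0
  have hsm : (m : ℝ) = s ^ 2 := (Real.sq_sqrt hm0.le).symm
  have h3 : GY.tr ((B i).β a c * (B i').β b c' * ((m : ℚ) • F + ξ) ^ K) =
      ∑ t ∈ Finset.range (K + 1), (m : ℚ) ^ (K - t) * ((K.choose t : ℚ) *
        GY.tr ((B i).β a c * (B i').β b c' * ξ ^ t * F ^ (K - t))) := by
    rw [add_comm ((m : ℚ) • F) ξ, add_pow, Finset.mul_sum, map_sum]
    refine Finset.sum_congr rfl fun t _ => ?_
    rw [_root_.smul_pow]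
    have h4 : (B i).β a c * (B i').β b c' * (ξ ^ t * ((m : ℚ) ^ (K - t) • F ^ (K - t)) *
        (K.choose t : RY)) = ((m : ℚ) ^ (K - t) * (K.choose t : ℚ)) •
        ((B i).β a c * (B i').β b c' * ξ ^ t * F ^ (K - t)) := by
      simp only [Algebra.smul_def, map_mul, map_natCast]
      ring
    rw [h4, map_smul, smul_eq_mul]
    ring
  rw [h3]
  push_cast
  rw [Finset.mul_sum, Finset.sum_mul]
  refine Finset.sum_congr rfl fun t ht => ?_
  rw [Finset.mem_range] at ht
  by_cases hlt : 2 * (a + b + t) < w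
  · rw [hvan t (by omega) hlt]
    simp
  · rw [← pw hs0 (show t ≤ K by omega) (show w ≤ 2 * (a + b + t) by omega), hsm]
    ring

/-- the limit for two elements of the blocks -/
theorem lim_gen (h : Compat GY F ξ B) (K : ℕ) (i i' : I) (u u' : ℕ) (p : (B i).R[X])
    (p' : (B i').R[X]) (hp : p ∈ (B i).G.pgr u) (hp' : p' ∈ (B i').G.pgr u')
    (hdeg : u + (B i).d + (u' + (B i').d) + K = GY.n) :
    Tendsto (fun m : ℕ => ((GY.tr ((B i).phi m p * (B i').phi m p' *
        ((m : ℚ) • F + ξ) ^ K) : ℚ) : ℝ) *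
        (((Real.sqrt m)⁻¹) ^ (2 * K) * (Real.sqrt m) ^ ((B i).k + (B i').k))) atTop
      (𝓝 ((∑ a ∈ Finset.range ((B i).k + 1), ∑ b ∈ Finset.range ((B i').k + 1),
        lv F ξ B K i i' a b (p.coeff a) (p'.coeff b) : ℚ) : ℝ)) := by
  have h1 : Tendsto (fun m : ℕ => ∑ a ∈ Finset.range ((B i).k + 1),
      ∑ b ∈ Finset.range ((B i').k + 1), ((((m : ℚ) ^ a)⁻¹ * ((m : ℚ) ^ b)⁻¹ *
        GY.tr ((B i).β a (p.coeff a) * (B i').β b (p'.coeff b) * ((m : ℚ) • F + ξ) ^ K) : ℚ) : ℝ) *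
        (((Real.sqrt m)⁻¹) ^ (2 * K) * (Real.sqrt m) ^ ((B i).k + (B i').k))) atTop
      (𝓝 (∑ a ∈ Finset.range ((B i).k + 1), ∑ b ∈ Finset.range ((B i').k + 1),
        ((lv F ξ B K i i' a b (p.coeff a) (p'.coeff b) : ℚ) : ℝ))) := by
    refine tendsto_finsetSum _ fun a ha => tendsto_finsetSum _ fun b hb => ?_
    rw [Finset.mem_range] at ha hb
    by_cases h1 : u < a
    · rw [(hp a).2 h1]
      simp [lv]
    by_cases h2 : u' < b
    · rw [(hp' b).2 h2]
      simp [lv]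
    exact h.lim_mono K i i' a b (u - a) (u' - b) _ _ ((hp a).1 _ (by omega))
      ((hp' b).1 _ (by omega)) (by omega) (by omega) (by omega)
  have h2 : ((∑ a ∈ Finset.range ((B i).k + 1), ∑ b ∈ Finset.range ((B i').k + 1),
        lv F ξ B K i i' a b (p.coeff a) (p'.coeff b) : ℚ) : ℝ) =
        ∑ a ∈ Finset.range ((B i).k + 1), ∑ b ∈ Finset.range ((B i').k + 1),
        ((lv F ξ B K i i' a b (p.coeff a) (p'.coeff b) : ℚ) : ℝ) := by
    push_cast
    rfl
  rw [h2]
  refine h1.congr fun m => ?_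
  have h3 : GY.tr ((B i).phi m p * (B i').phi m p' * ((m : ℚ) • F + ξ) ^ K) =
      ∑ a ∈ Finset.range ((B i).k + 1), ∑ b ∈ Finset.range ((B i').k + 1),
      (((m : ℚ) ^ a)⁻¹ * ((m : ℚ) ^ b)⁻¹ *
        GY.tr ((B i).β a (p.coeff a) * (B i').β b (p'.coeff b) * ((m : ℚ) • F + ξ) ^ K)) := by
    rw [Blk.phi, Blk.phi, Finset.sum_mul_sum, Finset.sum_mul, map_sum]
    refine Finset.sum_congr rfl fun a _ => ?_
    rw [Finset.sum_mul, map_sum]
    refine Finset.sum_congr rfl fun b _ => ?_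
    rw [smul_mul_smul_comm, smul_mul_assoc, map_smul, smul_eq_mul]
  rw [h3]
  push_cast
  rw [Finset.sum_mul]
  refine Finset.sum_congr rfl fun a _ => ?_
  rw [Finset.sum_mul]

theorem lv_ne (h : Compat GY F ξ B) (K : ℕ) {i i' : I} (hii : i ≠ i') (a b u u' : ℕ)
    (c : (B i).R) (c' : (B i').R) (hc : c ∈ (B i).G.gr u) (hc' : c' ∈ (B i').G.gr u')
    (ha : a ≤ (B i).k) (hb : b ≤ (B i').k)
    (hdeg : u + a + (B i).d + (u' + b + (B i').d) + K = GY.n) :
    lv F ξ B K i i' a b c c' = 0 := by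
  refine Finset.sum_eq_zero fun t ht => ?_
  rw [Finset.mem_range] at ht
  split_ifs with h1
  · rw [h.van i i' a b t (K - t) u u' c c' hc hc' ha hb (by omega) (by
      rcases Nat.lt_or_ge (2 * (a + b + t)) ((B i).k + (B i').k) with h2 | h2
      · exact Or.inl h2
      · exact Or.inr ⟨hii, by omega⟩), mul_zero]
  · rfl

theorem lv_eq (h : Compat GY F ξ B) (K : ℕ) (i : I) (a b u u' : ℕ)
    (c c' : (B i).R) (hc : c ∈ (B i).G.gr u) (hc' : c' ∈ (B i).G.gr u')
    (ha : a ≤ (B i).k) (hb : b ≤ (B i).k)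
    (hdeg : u + a + (B i).d + (u' + b + (B i).d) + K = GY.n) :
    lv F ξ B K i i a b c c' = (-1) ^ (B i).d * (B i).γ *
      (if a + b ≤ (B i).k then (K.choose ((B i).k - a - b) : ℚ) *
        (B i).G.tr (c * c' * (B i).l ^ (K - ((B i).k - a - b))) else 0) := by
  by_cases hab : a + b ≤ (B i).k
  · rw [if_pos hab, lv]
    set t0 := (B i).k - a - b with ht0
    by_cases hK : t0 ≤ K
    · rw [Finset.sum_eq_single t0]
      · rw [if_pos (by omega), h.eq i a b t0 (K - t0) u u' c c' hc hc' (by omega) (by omega)]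
        ring
      · intro t ht hne
        rw [Finset.mem_range] at ht
        split_ifs with h1
        · rw [h.van i i a b t (K - t) u u' c c' hc hc' ha hb (by omega)
            (Or.inl (by omega)), mul_zero]
        · rfl
      · intro h1
        exact absurd (Finset.mem_range.2 (by omega)) h1
    · rw [Nat.choose_eq_zero_of_lt (by omega)]
      rw [Nat.cast_zero, zero_mul, mul_zero]
      refine Finset.sum_eq_zero fun t ht => ?_
      rw [Finset.mem_range] at ht
      split_ifs with h1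
      · rw [h.van i i a b t (K - t) u u' c c' hc hc' ha hb (by omega)
          (Or.inl (by omega)), mul_zero]
      · rfl
  · rw [if_neg hab, mul_zero]
    refine Finset.sum_eq_zero fun t ht => ?_
    rw [if_neg (by omega)]

/-- the limit across two blocks -/
theorem lim_ne (h : Compat GY F ξ B) (K : ℕ) {i i' : I} (hii : i ≠ i') (u u' : ℕ)
    (p : (B i).R[X]) (p' : (B i').R[X]) (hp : p ∈ (B i).G.pgr u) (hp' : p' ∈ (B i').G.pgr u')
    (hdeg : u + (B i).d + (u' + (B i').d) + K = GY.n) :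
    Tendsto (fun m : ℕ => ((GY.tr ((B i).phi m p * (B i').phi m p' *
        ((m : ℚ) • F + ξ) ^ K) : ℚ) : ℝ) *
        (((Real.sqrt m)⁻¹) ^ (2 * K) * (Real.sqrt m) ^ ((B i).k + (B i').k))) atTop (𝓝 0) := by
  have h1 := h.lim_gen K i i' u u' p p' hp hp' hdeg
  have h2 : ∑ a ∈ Finset.range ((B i).k + 1), ∑ b ∈ Finset.range ((B i').k + 1),
        lv F ξ B K i i' a b (p.coeff a) (p'.coeff b) = 0 := by
    refine Finset.sum_eq_zero fun a ha => Finset.sum_eq_zero fun b hb => ?_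
    rw [Finset.mem_range] at ha hb
    by_cases h1 : u < a
    · rw [(hp a).2 h1]
      simp [lv]
    by_cases h2 : u' < b
    · rw [(hp' b).2 h2]
      simp [lv]
    exact h.lv_ne K hii a b (u - a) (u' - b) _ _ ((hp a).1 _ (by omega))
      ((hp' b).1 _ (by omega)) (by omega) (by omega) (by omega)
  rw [h2, Rat.cast_zero] at h1
  exact h1

/-- the limit inside a block -/
theorem lim_eq (h : Compat GY F ξ B) (K : ℕ) (i : I) (u u' : ℕ)
    (p p' : (B i).R[X]) (hp : p ∈ (B i).G.pgr u) (hp' : p' ∈ (B i).G.pgr u')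
    (hdeg : u + (B i).d + (u' + (B i).d) + K = GY.n) :
    Tendsto (fun m : ℕ => ((GY.tr ((B i).phi m p * (B i).phi m p' *
        ((m : ℚ) • F + ξ) ^ K) : ℚ) : ℝ) *
        (((Real.sqrt m)⁻¹) ^ (2 * K) * (Real.sqrt m) ^ ((B i).k + (B i).k))) atTop
      (𝓝 (((-1) ^ (B i).d * (B i).γ *
        ((B i).G.poly (B i).k).tr (p * p' * (X + C (B i).l) ^ K) : ℚ) : ℝ)) := by
  have h1 := h.lim_gen K i i u u' p p' hp hp' hdeg
  have h2 : ∑ a ∈ Finset.range ((B i).k + 1), ∑ b ∈ Finset.range ((B i).k + 1),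
        lv F ξ B K i i a b (p.coeff a) (p'.coeff b) = (-1) ^ (B i).d * (B i).γ *
        ((B i).G.poly (B i).k).tr (p * p' * (X + C (B i).l) ^ K) := by
    rw [GRing.poly_tr, coeff_mul_mul, map_sum, Finset.mul_sum]
    refine Finset.sum_congr rfl fun a ha => ?_
    rw [map_sum, Finset.mul_sum]
    refine Finset.sum_congr rfl fun b hb => ?_
    rw [Finset.mem_range] at ha hb
    by_cases h1 : u < a
    · rw [(hp a).2 h1]
      simp [lv]
    by_cases h2 : u' < b
    · rw [(hp' b).2 h2]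
      simp [lv]
    rw [h.lv_eq K i a b (u - a) (u' - b) _ _ ((hp a).1 _ (by omega))
      ((hp' b).1 _ (by omega)) (by omega) (by omega) (by omega)]
    split_ifs with h3
    · rw [coeff_X_add_C_pow]
      have h4 : p.coeff a * p'.coeff b * ((B i).l ^ (K - ((B i).k - a - b)) *
          (K.choose ((B i).k - a - b) : (B i).R)) = (K.choose ((B i).k - a - b) : ℚ) •
          (p.coeff a * p'.coeff b * (B i).l ^ (K - ((B i).k - a - b))) := by
        rw [Algebra.smul_def, map_natCast]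
        ring
      rw [h4, map_smul, smul_eq_mul]
    · rw [map_zero]
  rw [h2] at h1
  exact h1

/-- the components of a numerically trivial element are numerically trivial -/
theorem comp_triv (h : Compat GY F ξ B) {j : ℕ} (c : ∀ i, ℕ → (B i).R)
    (hc1 : ∀ i a u, u + a + (B i).d = j → c i a ∈ (B i).G.gr u)
    (hc2 : ∀ i a, j < a + (B i).d → c i a = 0)
    (hT : GY.Triv j (∑ i, ∑ a ∈ Finset.range ((B i).k + 1), (B i).β a (c i a))) :
    ∀ i a, a ≤ (B i).k → ∀ u, u + a + (B i).d = j → (B i).G.Triv u (c i a) := by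
  classical
  set M := ∑ i, (B i).k with hM
  have hkM : ∀ i, (B i).k ≤ M := fun i =>
    Finset.single_le_sum (f := fun i => (B i).k) (fun _ _ => Nat.zero_le _) (Finset.mem_univ i)
  suffices H : ∀ N : ℕ, ∀ i a, M + (B i).k - 2 * a = N → a ≤ (B i).k → ∀ u,
      u + a + (B i).d = j → (B i).G.Triv u (c i a) from
    fun i a ha u hu => H _ i a rfl ha u hu
  intro N
  induction N using Nat.strong_induction_on with
  | _ N ih =>
  intro i a hN ha u hu u' hu' c' hc'
  have hn := (B i).hn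
  have hb : (B i).k - a ≤ (B i).k := Nat.sub_le _ _
  have hy := (B i).β_mem ((B i).k - a) hb u' c' hc'
  have h0 := hT (u' + ((B i).k - a) + (B i).d) (by omega) _ hy
  rw [Finset.sum_mul, map_sum] at h0
  simp only [Finset.sum_mul, map_sum] at h0
  rw [Finset.sum_eq_single i, Finset.sum_eq_single a] at h0
  · have h1 := h.eq i a ((B i).k - a) 0 0 u u' (c i a) c' (hc1 i a u hu) hc' (by omega) (by omega)
    rw [pow_zero, pow_zero, pow_zero, mul_one, mul_one, mul_one] at h1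
    rw [h1] at h0
    rcases mul_eq_zero.1 h0 with h2 | h2
    · exact absurd h2 (mul_ne_zero (pow_ne_zero _ (by norm_num)) (B i).hγ.ne')
    · exact h2
  · intro a' ha' hne
    rw [Finset.mem_range] at ha'
    by_cases h1 : j < a' + (B i).d
    · rw [hc2 i a' h1, map_zero, zero_mul, map_zero]
    rcases Nat.lt_or_ge a' a with h2 | h2
    · have h3 := h.van i i a' ((B i).k - a) 0 0 (j - a' - (B i).d) u' (c i a') c'
        (hc1 i a' _ (by omega)) hc' (by omega) hb (by omega) (Or.inl (by omega))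
      rw [pow_zero, pow_zero, mul_one, mul_one] at h3
      exact h3
    · have h4 := hkM i
      have h3 := ih (M + (B i).k - 2 * a') (by omega) i a' rfl (by omega) (j - a' - (B i).d)
        (by omega)
      have h5 := (B i).β_triv a' (by omega) _ _ (hc1 i a' (j - a' - (B i).d) (by omega)) h3
      exact h5 _ (by omega) _ hy
  · intro h1
    exact absurd (Finset.mem_range.2 (by omega)) h1
  · intro i' _ hne
    refine Finset.sum_eq_zero fun a' ha' => ?_
    rw [Finset.mem_range] at ha'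
    by_cases h1 : j < a' + (B i').d
    · rw [hc2 i' a' h1, map_zero, zero_mul, map_zero]
    have h4 := hkM i
    have h4' := hkM i'
    rcases Nat.lt_or_ge (2 * a + (B i').k) (2 * a' + (B i).k) with h2 | h2
    · have h3 := ih (M + (B i').k - 2 * a') (by omega) i' a' rfl (by omega)
        (j - a' - (B i').d) (by omega)
      have h5 := (B i').β_triv a' (by omega) _ _ (hc1 i' a' (j - a' - (B i').d) (by omega)) h3
      exact h5 _ (by omega) _ hy
    · have h3 := h.van i' i a' ((B i).k - a) 0 0 (j - a' - (B i').d) u' (c i' a') c'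
        (hc1 i' a' _ (by omega)) hc' (by omega) hb (by omega) (by
          rcases Nat.lt_or_ge (2 * (a' + ((B i).k - a) + 0)) ((B i').k + (B i).k) with h6 | h6
          · exact Or.inl h6
          · exact Or.inr ⟨hne, by omega⟩)
      rw [pow_zero, pow_zero, mul_one, mul_one] at h3
      exact h3
  · intro h1
    exact absurd (Finset.mem_univ i) h1

open Classical in
/-- the limit of the Gram matrices -/
noncomputable def gmat (B : I → Blk GY) (K : ℕ) (c c' : I → ℕ) (b : ∀ i, Fin (c i) → (B i).R[X])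
    (b' : ∀ i, Fin (c' i) → (B i).R[X]) : (Σ i, Fin (c i)) → (Σ i, Fin (c' i)) → ℚ := fun x y =>
  if hxy : x.1 = y.1 then ((-1) ^ (B x.1).d * (B x.1).γ *
    ((B x.1).G.poly (B x.1).k).tr (b x.1 x.2 * b' x.1 (Fin.cast (by rw [hxy]) y.2) *
      (X + C (B x.1).l) ^ K)) else 0

theorem gmat_same {K : ℕ} {c c' : I → ℕ} {b : ∀ i, Fin (c i) → (B i).R[X]}
    {b' : ∀ i, Fin (c' i) → (B i).R[X]} (i : I) (l : Fin (c i)) (l' : Fin (c' i)) :
    gmat B K c c' b b' ⟨i, l⟩ ⟨i, l'⟩ = (-1) ^ (B i).d * (B i).γ *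
      ((B i).G.poly (B i).k).tr (b i l * b' i l' * (X + C (B i).l) ^ K) := by
  simp only [gmat, dif_pos, Fin.cast_refl, id]

theorem gmat_ne {K : ℕ} {c c' : I → ℕ} {b : ∀ i, Fin (c i) → (B i).R[X]}
    {b' : ∀ i, Fin (c' i) → (B i).R[X]} (x : Σ i, Fin (c i)) (y : Σ i, Fin (c' i))
    (hxy : x.1 ≠ y.1) : gmat B K c c' b b' x y = 0 := by
  simp only [gmat, dif_neg hxy]

theorem gmat_lim (h : Compat GY F ξ B) {K j j' : ℕ} {c c' : I → ℕ}
    {b : ∀ i, Fin (c i) → (B i).R[X]} {b' : ∀ i, Fin (c' i) → (B i).R[X]}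
    (hb : ∀ i l, ∃ u, u + (B i).d = j ∧ b i l ∈ ((B i).G.poly (B i).k).gr u)
    (hb' : ∀ i l, ∃ u, u + (B i).d = j' ∧ b' i l ∈ ((B i).G.poly (B i).k).gr u)
    (hdeg : j + j' + K = GY.n) (x : Σ i, Fin (c i)) (y : Σ i, Fin (c' i)) :
    Tendsto (fun m : ℕ => ((GY.tr ((B x.1).phi m (b x.1 x.2) * (B y.1).phi m (b' y.1 y.2) *
        ((m : ℚ) • F + ξ) ^ K) : ℚ) : ℝ) *
        (((Real.sqrt m)⁻¹) ^ (2 * K) * (Real.sqrt m) ^ ((B x.1).k + (B y.1).k))) atTop
      (𝓝 ((gmat B K c c' b b' x y : ℚ) : ℝ)) := by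
  obtain ⟨i, l⟩ := x
  obtain ⟨i', l'⟩ := y
  obtain ⟨u, hu, hm⟩ := hb i l
  obtain ⟨u', hu', hm'⟩ := hb' i' l'
  by_cases hii : i = i'
  · subst hii
    have h1 := h.lim_eq K i u u' (b i l) (b' i l') hm hm' (by omega)
    rw [gmat_same]
    exact h1
  · have h1 := h.lim_ne K hii u u' (b i l) (b' i' l') hm hm' (by omega)
    rw [gmat_ne _ _ hii, Rat.cast_zero]
    exact h1

/-- sums against the limit matrix -/
theorem gmat_row {K : ℕ} {c c' : I → ℕ} {b : ∀ i, Fin (c i) → (B i).R[X]}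
    {b' : ∀ i, Fin (c' i) → (B i).R[X]} (w : (Σ i, Fin (c i)) → ℚ) (i : I) (k : Fin (c' i)) :
    ∑ x, gmat B K c c' b b' x ⟨i, k⟩ * w x = (-1) ^ (B i).d * (B i).γ *
      ((B i).G.poly (B i).k).tr ((∑ l, w ⟨i, l⟩ • b i l) * b' i k * (X + C (B i).l) ^ K) := by
  classical
  rw [Fintype.sum_sigma, Finset.sum_eq_single i]
  · simp only [gmat_same, Finset.sum_mul, map_sum, Finset.mul_sum]
    refine Finset.sum_congr rfl fun l _ => ?_
    rw [smul_mul_assoc, smul_mul_assoc, map_smul, smul_eq_mul]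
    ring
  · intro i' _ hne
    refine Finset.sum_eq_zero fun l _ => ?_
    rw [gmat_ne _ _ hne, zero_mul]
  · intro h2
    exact absurd (Finset.mem_univ i) h2

theorem gmat_col {K : ℕ} {c c' : I → ℕ} {b : ∀ i, Fin (c i) → (B i).R[X]}
    {b' : ∀ i, Fin (c' i) → (B i).R[X]} (y : (Σ i, Fin (c' i)) → ℚ) (i : I) (l : Fin (c i)) :
    ∑ k, y k * gmat B K c c' b b' ⟨i, l⟩ k = (-1) ^ (B i).d * (B i).γ *
      ((B i).G.poly (B i).k).tr (b i l * (∑ k, y ⟨i, k⟩ • b' i k) * (X + C (B i).l) ^ K) := by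
  classical
  rw [Fintype.sum_sigma, Finset.sum_eq_single i]
  · simp only [gmat_same, Finset.sum_mul, Finset.mul_sum, map_sum]
    refine Finset.sum_congr rfl fun k _ => ?_
    rw [mul_smul_comm, smul_mul_assoc, map_smul, smul_eq_mul]
    ring
  · intro i' _ hne
    refine Finset.sum_eq_zero fun k _ => ?_
    rw [gmat_ne _ _ (Ne.symm hne), mul_zero]
  · intro h2
    exact absurd (Finset.mem_univ i) h2

theorem gmat_form {K : ℕ} {c : I → ℕ} {b : ∀ i, Fin (c i) → (B i).R[X]}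
    (w : (Σ i, Fin (c i)) → ℚ) (e : ℚ) :
    ∑ x, ∑ y, (e * gmat B K c c b b x y) * w x * w y = ∑ i, e * ((-1) ^ (B i).d * (B i).γ *
      ((B i).G.poly (B i).k).tr ((∑ l, w ⟨i, l⟩ • b i l) * (∑ l, w ⟨i, l⟩ • b i l) *
        (X + C (B i).l) ^ K)) := by
  classical
  rw [Fintype.sum_sigma]
  refine Finset.sum_congr rfl fun i _ => ?_
  have h2 : ((B i).G.poly (B i).k).tr ((∑ l, w ⟨i, l⟩ • b i l) * (∑ l, w ⟨i, l⟩ • b i l) *
      (X + C (B i).l) ^ K) = ∑ l, ∑ l', w ⟨i, l⟩ * w ⟨i, l'⟩ * ((B i).G.poly (B i).k).tr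
      (b i l * b i l' * (X + C (B i).l) ^ K) := by
    rw [Finset.sum_mul_sum]
    simp only [Finset.sum_mul, map_sum]
    refine Finset.sum_congr rfl fun l _ => Finset.sum_congr rfl fun l' _ => ?_
    rw [smul_mul_smul_comm, smul_mul_assoc, map_smul, smul_eq_mul]
  rw [h2, Finset.mul_sum, Finset.mul_sum]
  refine Finset.sum_congr rfl fun l _ => ?_
  rw [Fintype.sum_sigma, Finset.sum_eq_single i]
  · rw [Finset.mul_sum, Finset.mul_sum]
    refine Finset.sum_congr rfl fun l' _ => ?_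
    rw [gmat_same]
    ring
  · intro i' _ hne
    refine Finset.sum_eq_zero fun l' _ => ?_
    rw [gmat_ne _ _ (Ne.symm hne), mul_zero, zero_mul, zero_mul]
  · intro h3
    exact absurd (Finset.mem_univ i) h3

/-- generation by the scaled elements -/
theorem gen_scaled (h : Compat GY F ξ B) {j : ℕ} {c : I → ℕ}
    {b : ∀ i, Fin (c i) → (B i).R[X]}
    (hb1 : ∀ i l, ∃ u, u + (B i).d = j ∧ b i l ∈ ((B i).G.poly (B i).k).gr u)
    (hb2 : ∀ i u, u + (B i).d = j → ∀ x ∈ ((B i).G.poly (B i).k).gr u,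
      ∃ a : Fin (c i) → ℚ, ((B i).G.poly (B i).k).Triv u (x - ∑ l, a l • b i l))
    {m : ℕ} (hm : 1 ≤ m) {z : RY} (hz : z ∈ GY.gr j) :
    ∃ w : (Σ i, Fin (c i)) → ℚ, GY.Triv j (z - ∑ a, w a • (B a.1).phi m (b a.1 a.2)) := by
  classical
  have hm0 : (m : ℚ) ≠ 0 := by
    have : 0 < m := hm
    exact_mod_cast this.ne'
  obtain ⟨e, he1, he2, he3⟩ := h.gen j z hz
  let P : ∀ i, (B i).R[X] := fun i =>
    ∑ a ∈ Finset.range ((B i).k + 1), C (((m : ℚ) ^ a) • e i a) * X ^ a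
  have hPc : ∀ i a, a ≤ (B i).k → (P i).coeff a = ((m : ℚ) ^ a) • e i a := by
    intro i a ha
    simp only [P, finsetSum_coeff, coeff_C_mul_X_pow]
    rw [Finset.sum_eq_single a]
    · rw [if_pos rfl]
    · intro a' _ hne
      rw [if_neg (Ne.symm hne)]
    · intro h1
      exact absurd (Finset.mem_range.2 (by omega)) h1
  have hPphi : ∀ i, (B i).phi m (P i) = ∑ a ∈ Finset.range ((B i).k + 1), (B i).β a (e i a) := by
    intro i
    refine Finset.sum_congr rfl fun a ha => ?_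
    rw [Finset.mem_range] at ha
    rw [hPc i a (by omega), map_smul, smul_smul, inv_mul_cancel₀ (pow_ne_zero _ hm0), one_smul]
  have hPm : ∀ i u, u + (B i).d = j → P i ∈ (B i).G.pgr u := by
    intro i u hu
    refine ((B i).G.pgr u).sum_mem fun a _ => ?_
    by_cases ha : u < a
    · rw [he2 i a (by omega), smul_zero, C_0, zero_mul]
      exact ((B i).G.pgr u).zero_mem
    · exact (B i).G.C_mul_X_pow_mem (((B i).G.gr _).smul_mem _ (he1 i a (u - a) (by omega)))
        (by omega)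
  have hP0 : ∀ i, j < (B i).d → P i = 0 := by
    intro i hi
    refine Finset.sum_eq_zero fun a _ => ?_
    rw [he2 i a (by omega), smul_zero, C_0, zero_mul]
  have hw : ∀ i, ∃ w : Fin (c i) → ℚ,
      GY.Triv j ((B i).phi m (P i) - ∑ l, w l • (B i).phi m (b i l)) := by
    intro i
    by_cases hi : j < (B i).d
    · refine ⟨fun _ => 0, ?_⟩
      rw [hP0 i hi, Blk.phi_zero]
      simp only [zero_smul, Finset.sum_const_zero, sub_zero]
      exact GY.triv_zero j
    · obtain ⟨u, hu⟩ : ∃ u, u + (B i).d = j := ⟨j - (B i).d, by omega⟩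
      obtain ⟨w, hw⟩ := hb2 i u hu (P i) (hPm i u hu)
      refine ⟨w, ?_⟩
      have h1 : (B i).phi m (P i) - ∑ l, w l • (B i).phi m (b i l) =
          (B i).phi m (P i - ∑ l, w l • b i l) := by
        rw [sub_eq_add_neg (P i), Blk.phi_add, ← neg_one_smul ℚ (∑ l, w l • b i l),
          Blk.phi_smul, neg_one_smul, ← sub_eq_add_neg]
        congr 1
        rw [Blk.phi_sum]
        refine Finset.sum_congr rfl fun l _ => ?_
        rw [Blk.phi_smul]
      rw [h1]
      refine (B i).phi_triv m hu ?_ hw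
      refine ((B i).G.pgr u).sub_mem (hPm i u hu) (((B i).G.pgr u).sum_mem fun l _ =>
        ((B i).G.pgr u).smul_mem _ ?_)
      obtain ⟨u', hu', hm'⟩ := hb1 i l
      rwa [show u' = u by omega] at hm'
  choose w hw using hw
  refine ⟨fun x => w x.1 x.2, ?_⟩
  have h1 : z - ∑ x : Σ i, Fin (c i), w x.1 x.2 • (B x.1).phi m (b x.1 x.2) =
      (z - ∑ i, ∑ a ∈ Finset.range ((B i).k + 1), (B i).β a (e i a)) +
      ∑ i, ((B i).phi m (P i) - ∑ l, w i l • (B i).phi m (b i l)) := by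
    rw [Fintype.sum_sigma, Finset.sum_sub_distrib]
    simp only [hPphi]
    ring
  rw [h1]
  exact he3.add (GRing.Triv.sum fun i _ => hw i)

omit [Fintype I] in
theorem pos_weight (B : I → Blk GY) {c : I → ℕ} (N : ℕ) : ∀ᶠ m : ℕ in atTop,
    ∀ x : Σ i, Fin (c i), 0 < ((Real.sqrt m)⁻¹) ^ N * (Real.sqrt m) ^ (B x.1).k := by
  filter_upwards [Filter.eventually_ge_atTop 1] with m hm x
  have hm0 : (0 : ℝ) < m := by exact_mod_cast hm
  have hs0 : 0 < Real.sqrt (m : ℝ) := Real.sqrt_pos.2 hm0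
  positivity

/-- **Main abstract theorem.** -/
theorem hr_large (h : Compat GY F ξ B) (p : ℕ)
    (hR : ∀ i u, u + (B i).d ≤ p → 2 * u ≤ (B i).G.n → (B i).G.HRat (B i).l u) :
    ∃ m0 : ℕ, ∀ m : ℕ, m0 ≤ m → GY.HRle ((m : ℚ) • F + ξ) p := by
  classical
  have hD : ∀ m : ℕ, (m : ℚ) • F + ξ ∈ GY.gr 1 := fun m =>
    (GY.gr 1).add_mem ((GY.gr 1).smul_mem _ h.hF) h.hξ
  refine GY.HR_eventually _ p fun j hjp hj => ?_
  set N := GY.n - 2 * j with hN
  have hex := fun i => ((B i).G.poly (B i).k).exists_basis_shift (B i).d j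
  choose c b hb1 hb2 hb3 using hex
  have hex' := fun i => ((B i).G.poly (B i).k).exists_basis_shift ((B i).d + 1) j
  choose c' b' hb1' hb2' hb3' using hex'
  refine GY.core (fun m => (m : ℚ) • F + ξ) hD j hj
    (fun m x => (B x.1).phi m (b x.1 x.2)) (fun m y => (B y.1).phi m (b' y.1 y.2))
    (fun m x => ((Real.sqrt m)⁻¹) ^ N * (Real.sqrt m) ^ (B x.1).k)
    (fun m y => ((Real.sqrt m)⁻¹) ^ (N + 2) * (Real.sqrt m) ^ (B y.1).k)
    (pos_weight B N) ?_ ?_ (fun x y => (-1) ^ j * gmat B N c c b b x y) ?_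
    (fun y x => gmat B (N + 1) c c' b b' x y) ?_ ?_ ?_ ?_
  · rintro m ⟨i, l⟩
    obtain ⟨u, hu, hm⟩ := hb1 i l
    exact (B i).phi_mem m hu hm
  · rintro m ⟨i, l⟩
    obtain ⟨u, hu, hm⟩ := hb1' i l
    exact ⟨u + (B i).d, by omega, (B i).phi_mem m rfl hm⟩
  · rintro ⟨i, l⟩ ⟨i', l'⟩
    by_cases hii : i = i'
    · subst hii
      rw [gmat_same, gmat_same, mul_comm (b i l)]
    · rw [gmat_ne _ _ hii, gmat_ne _ _ (Ne.symm hii)]
  · -- positivity on the kernel
    intro w hw hw0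
    have hrow : ∀ i (k : Fin (c' i)), ((B i).G.poly (B i).k).tr
        ((∑ l, w ⟨i, l⟩ • b i l) * b' i k * (X + C (B i).l) ^ (N + 1)) = 0 := by
      intro i k
      have h1 := hw ⟨i, k⟩
      rw [gmat_row] at h1
      rcases mul_eq_zero.1 h1 with h4 | h4
      · exact absurd h4 (mul_ne_zero (pow_ne_zero _ (by norm_num)) (B i).hγ.ne')
      · exact h4
    rw [gmat_form]
    have hblk : ∀ i, (fun l => w ⟨i, l⟩) ≠ 0 → 0 < (-1) ^ j * ((-1) ^ (B i).d * (B i).γ *
        ((B i).G.poly (B i).k).tr ((∑ l, w ⟨i, l⟩ • b i l) * (∑ l, w ⟨i, l⟩ • b i l) *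
          (X + C (B i).l) ^ N)) := by
      intro i hi
      obtain ⟨l0, -⟩ := Function.ne_iff.1 hi
      obtain ⟨u, hu, -⟩ := hb1 i l0
      have hn := (B i).hn
      have hNu : ((B i).G.poly (B i).k).n - 2 * u = N := by
        rw [GRing.poly_n]
        omega
      have h1 := ((B i).G.poly (B i).k).block_pos (L := X + C (B i).l) (i := u)
        (GRing.X_add_C_mem (B i).hl) (by rw [GRing.poly_n]; omega)
        (GRing.hr_poly (B i).hl (p := u) (fun u' hu' h2 => hR i u' (by omega) h2) (B i).k u le_rfl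
          (by rw [GRing.poly_n]; omega))
        (b := b i) (fun l => by
          obtain ⟨u', hu', hm⟩ := hb1 i l
          rwa [show u' = u by omega] at hm)
        (fun a ha => hb3 i a fun u' hu' => by rwa [show u' = u by omega])
        (y := b' i) (fun u' hu' x hx => hb2' i u' (by omega) x hx)
        (a := fun l => w ⟨i, l⟩) (fun k => by rw [hNu]; exact hrow i k) hi
      rw [hNu] at h1
      have h2 : (-1 : ℚ) ^ j * (-1) ^ (B i).d = (-1) ^ u := by
        rw [← hu, pow_add, mul_assoc, ← pow_add, ← two_mul, pow_mul]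
        norm_num
      rw [show ∀ t : ℚ, (-1 : ℚ) ^ j * ((-1) ^ (B i).d * (B i).γ * t) =
        (B i).γ * ((-1) ^ j * (-1) ^ (B i).d * t) from fun t => by ring, h2]
      exact mul_pos (B i).hγ h1
    obtain ⟨⟨i0, l0⟩, hx0⟩ := Function.ne_iff.1 hw0
    refine Finset.sum_pos' (fun i _ => ?_) ⟨i0, Finset.mem_univ i0, hblk i0 ?_⟩
    · by_cases hi : (fun l => w ⟨i, l⟩) = 0
      · have h1 : ∑ l, w ⟨i, l⟩ • b i l = 0 := by
          refine Finset.sum_eq_zero fun l _ => ?_
          rw [show w ⟨i, l⟩ = 0 from congrFun hi l, zero_smul]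
        rw [h1]
        simp
      · exact (hblk i hi).le
    · intro h1
      exact hx0 (congrFun h1 l0)
  · -- limits of the form
    intro x y
    have hfac : ∀ m : ℕ, ((Real.sqrt m)⁻¹) ^ N * (Real.sqrt m) ^ (B x.1).k *
        (((Real.sqrt m)⁻¹) ^ N * (Real.sqrt m) ^ (B y.1).k) =
        ((Real.sqrt m)⁻¹) ^ (2 * N) * (Real.sqrt m) ^ ((B x.1).k + (B y.1).k) := by
      intro m
      rw [two_mul, pow_add, pow_add]
      ring
    simp only [hfac]
    have h1 := (h.gmat_lim hb1 hb1 (K := N) (by omega) x y).const_mul ((-1 : ℝ) ^ j)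
    push_cast
    refine h1.congr fun m => ?_
    ring
  · -- limits of the rows
    intro y x
    have hfac : ∀ m : ℕ, ((Real.sqrt m)⁻¹) ^ N * (Real.sqrt m) ^ (B x.1).k *
        (((Real.sqrt m)⁻¹) ^ (N + 2) * (Real.sqrt m) ^ (B y.1).k) =
        ((Real.sqrt m)⁻¹) ^ (2 * (N + 1)) * (Real.sqrt m) ^ ((B x.1).k + (B y.1).k) := by
      intro m
      rw [show 2 * (N + 1) = N + (N + 2) by ring, pow_add, pow_add]
      ring
    simp only [hfac]
    obtain ⟨u0, hu0, -⟩ := hb1' y.1 y.2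
    exact h.gmat_lim hb1 (j' := j - 1) (fun i l => by
      obtain ⟨u, hu, hm⟩ := hb1' i l
      exact ⟨u, by omega, hm⟩) (by omega) x y
  · -- generation
    filter_upwards [Filter.eventually_ge_atTop 1] with m hm z hz
    exact h.gen_scaled hb1 hb2 hm hz

/-- **Converse of the main abstract theorem.** -/
theorem hr_closed (h : Compat GY F ξ B) (p : ℕ)
    (hL : ∀ i u, u + (B i).d ≤ p → 2 * u ≤ (B i).G.n → (B i).G.Lefat (B i).l u)
    (hfreq : ∃ᶠ m : ℕ in atTop, GY.HRle ((m : ℚ) • F + ξ) p) :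
    ∀ i u, u + (B i).d ≤ p → 2 * u ≤ (B i).G.n → (B i).G.HRat (B i).l u := by
  classical
  intro i0 u0 hu0p hu0n
  have hn0 := (B i0).hn
  apply GRing.hr_of_poly (B i0).hl hu0n (k := (B i0).k)
  have hD : ∀ m : ℕ, (m : ℚ) • F + ξ ∈ GY.gr 1 := fun m =>
    (GY.gr 1).add_mem ((GY.gr 1).smul_mem _ h.hF) h.hξ
  set j := u0 + (B i0).d with hjdef
  have hj : 2 * j ≤ GY.n := by omega
  set N := GY.n - 2 * j with hN
  have hLT : ∀ i u, u + (B i).d ≤ p → 2 * u ≤ ((B i).G.poly (B i).k).n →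
      ((B i).G.poly (B i).k).Lefat (X + C (B i).l) u := fun i u hu hun =>
    GRing.lef_poly (B i).hl (p := u) (fun u' hu' h2 => hL i u' (by omega) h2) (B i).k u le_rfl hun
  have hex := fun i => ((B i).G.poly (B i).k).exists_basis_shift (B i).d j
  choose c b hb1 hb2 hb3 using hex
  have hex' := fun i => ((B i).G.poly (B i).k).exists_basis_shift ((B i).d + 1) j
  choose c' b' hb1' hb2' hb3' using hex'
  have hcl := GY.core_closed (fun m => (m : ℚ) • F + ξ) hD j hj
    (fun m x => (B x.1).phi m (b x.1 x.2)) (fun m y => (B y.1).phi m (b' y.1 y.2))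
    (fun m x => ((Real.sqrt m)⁻¹) ^ N * (Real.sqrt m) ^ (B x.1).k)
    (fun m y => ((Real.sqrt m)⁻¹) ^ (N + 2) * (Real.sqrt m) ^ (B y.1).k)
    (pos_weight B N) (pos_weight B (N + 2)) ?_ (fun x y => (-1) ^ j * gmat B N c c b b x y)
    (fun y x => gmat B (N + 1) c c' b b' x y) ?_ ?_ ?_ ?_ ?_
  · -- conclusion
    refine GRing.hr_of_psd _ (GRing.X_add_C_mem (B i0).hl) (by rw [GRing.poly_n]; omega)
      (hLT i0 u0 (by omega) (by rw [GRing.poly_n]; omega))
      (fun i hi => hLT i0 i (by omega) (by rw [GRing.poly_n]; omega)) ?_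
    intro x hx hprim
    have hNu : ((B i0).G.poly (B i0).k).n - 2 * u0 = N := by
      rw [GRing.poly_n]
      omega
    rw [hNu] at hprim ⊢
    obtain ⟨a, ha⟩ := hb2 i0 u0 rfl x hx
    have hbm : ∀ l, b i0 l ∈ ((B i0).G.poly (B i0).k).gr u0 := by
      intro l
      obtain ⟨u', hu', hm⟩ := hb1 i0 l
      rwa [show u' = u0 by omega] at hm
    have hsm : ∑ l, a l • b i0 l ∈ ((B i0).G.poly (B i0).k).gr u0 :=
      (((B i0).G.poly (B i0).k).gr u0).sum_mem fun l _ =>
        (((B i0).G.poly (B i0).k).gr u0).smul_mem _ (hbm l)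
    have hMm : X + C (B i0).l ∈ ((B i0).G.poly (B i0).k).gr 1 := GRing.X_add_C_mem (B i0).hl
    let w : (Σ i, Fin (c i)) → ℚ := fun y =>
      if hy : y.1 = i0 then a (Fin.cast (by rw [hy]) y.2) else 0
    have hw0 : ∀ l, w ⟨i0, l⟩ = a l := by
      intro l
      simp only [w, dif_pos, Fin.cast_refl, id]
    have hwne : ∀ i, i ≠ i0 → ∀ l, w ⟨i, l⟩ = 0 := by
      intro i hi l
      simp only [w, dif_neg hi]
    have hker : ∀ y : Σ i, Fin (c' i), ∑ x, gmat B (N + 1) c c' b b' x y * w x = 0 := by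
      rintro ⟨i, k⟩
      rw [gmat_row]
      by_cases hi : i = i0
      · subst hi
        simp only [hw0]
        obtain ⟨u', hu', hm'⟩ := hb1' i k
        have h1 := hprim u' (by omega) (b' i k) hm'
        have h2 : (∑ l, a l • b i l) * b' i k * (X + C (B i).l) ^ (N + 1) =
            x * b' i k * (X + C (B i).l) ^ (N + 1) -
            (x - ∑ l, a l • b i l) * b' i k * (X + C (B i).l) ^ (N + 1) := by ring
        rw [h2, map_sub, h1, ha.tr_pow hm' hMm (by rw [GRing.poly_n]; omega), sub_zero, mul_zero]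
      · simp only [hwne i hi, zero_smul, Finset.sum_const_zero, zero_mul, map_zero, mul_zero]
    have hval := hcl w hker
    rw [gmat_form, Finset.sum_eq_single i0] at hval
    · simp only [hw0] at hval
      have h2 : (-1 : ℚ) ^ j * (-1) ^ (B i0).d = (-1) ^ u0 := by
        rw [hjdef, pow_add, mul_assoc, ← pow_add, ← two_mul, pow_mul]
        norm_num
      rw [show ∀ t : ℚ, (-1 : ℚ) ^ j * ((-1) ^ (B i0).d * (B i0).γ * t) =
        (B i0).γ * ((-1) ^ j * (-1) ^ (B i0).d * t) from fun t => by ring, h2] at hval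
      have h3 := nonneg_of_mul_nonneg_right hval (B i0).hγ
      have h4 : x * x * (X + C (B i0).l) ^ N =
          (∑ l, a l • b i0 l) * (∑ l, a l • b i0 l) * (X + C (B i0).l) ^ N +
          ((x - ∑ l, a l • b i0 l) * x * (X + C (B i0).l) ^ N +
            (x - ∑ l, a l • b i0 l) * (∑ l, a l • b i0 l) * (X + C (B i0).l) ^ N) := by ring
      rw [h4, map_add, map_add, ha.tr_pow hx hMm (by rw [GRing.poly_n]; omega),
        ha.tr_pow hsm hMm (by rw [GRing.poly_n]; omega), add_zero, add_zero]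
      exact h3
    · intro i _ hi
      simp only [hwne i hi, zero_smul, Finset.sum_const_zero, zero_mul, map_zero, mul_zero]
    · intro h1
      exact absurd (Finset.mem_univ i0) h1
  · rintro m ⟨i, l⟩
    obtain ⟨u, hu, hm⟩ := hb1 i l
    exact (B i).phi_mem m hu hm
  · -- full rank
    intro y hy
    funext ⟨i, k0⟩
    obtain ⟨u, hu, -⟩ := hb1' i k0
    have hn := (B i).hn
    have hyi : (fun k => y ⟨i, k⟩) = 0 := by
      apply hb3' i
      intro u' hu'
      obtain rfl : u' = u := by omega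
      have hb'm : ∀ k, b' i k ∈ ((B i).G.poly (B i).k).gr u' := by
        intro k
        obtain ⟨u'', hu'', hm⟩ := hb1' i k
        rwa [show u'' = u' by omega] at hm
      have hMm : X + C (B i).l ∈ ((B i).G.poly (B i).k).gr 1 := GRing.X_add_C_mem (B i).hl
      have hsm : ∑ k, y ⟨i, k⟩ • b' i k ∈ ((B i).G.poly (B i).k).gr u' :=
        (((B i).G.poly (B i).k).gr u').sum_mem fun l _ =>
          (((B i).G.poly (B i).k).gr u').smul_mem _ (hb'm l)
      apply hLT i u' (by omega) (by rw [GRing.poly_n]; omega) _ hsm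
      have hNu : ((B i).G.poly (B i).k).n - 2 * u' = (N + 1) + 1 := by
        rw [GRing.poly_n]
        omega
      rw [hNu, pow_succ, ← mul_assoc]
      have h1 : ((B i).G.poly (B i).k).Triv (u' + (N + 1))
          ((∑ k, y ⟨i, k⟩ • b' i k) * (X + C (B i).l) ^ (N + 1)) := by
        intro v hv x hx
        rw [GRing.poly_n] at hv
        obtain ⟨a, ha⟩ := hb2 i v (by omega) x hx
        have h2 : (∑ k, y ⟨i, k⟩ • b' i k) * (X + C (B i).l) ^ (N + 1) * x =
            (x - ∑ l, a l • b i l) * (∑ k, y ⟨i, k⟩ • b' i k) * (X + C (B i).l) ^ (N + 1) +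
            ∑ l, a l • (b i l * (∑ k, y ⟨i, k⟩ • b' i k) * (X + C (B i).l) ^ (N + 1)) := by
          have h3 : ∑ l, a l • (b i l * (∑ k, y ⟨i, k⟩ • b' i k) * (X + C (B i).l) ^ (N + 1)) =
              (∑ l, a l • b i l) * (∑ k, y ⟨i, k⟩ • b' i k) * (X + C (B i).l) ^ (N + 1) := by
            rw [Finset.sum_mul, Finset.sum_mul]
            refine Finset.sum_congr rfl fun l _ => ?_
            rw [smul_mul_assoc, smul_mul_assoc]
          rw [h3]
          ring
        rw [h2, map_add, ha.tr_pow hsm hMm (by rw [GRing.poly_n]; omega), zero_add, map_sum]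
        refine Finset.sum_eq_zero fun l _ => ?_
        have h4 := hy ⟨i, l⟩
        rw [gmat_col] at h4
        rcases mul_eq_zero.1 h4 with h5 | h5
        · exact absurd h5 (mul_ne_zero (pow_ne_zero _ (by norm_num)) (B i).hγ.ne')
        · rw [map_smul, h5, smul_zero]
      have h2 := h1.mul hMm
      rwa [add_assoc] at h2
    exact congrFun hyi k0
  · intro x y
    have hfac : ∀ m : ℕ, ((Real.sqrt m)⁻¹) ^ N * (Real.sqrt m) ^ (B x.1).k *
        (((Real.sqrt m)⁻¹) ^ N * (Real.sqrt m) ^ (B y.1).k) =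
        ((Real.sqrt m)⁻¹) ^ (2 * N) * (Real.sqrt m) ^ ((B x.1).k + (B y.1).k) := by
      intro m
      rw [two_mul, pow_add, pow_add]
      ring
    simp only [hfac]
    have h1 := (h.gmat_lim hb1 hb1 (K := N) (by omega) x y).const_mul ((-1 : ℝ) ^ j)
    push_cast
    refine h1.congr fun m => ?_
    ring
  · intro y x
    have hfac : ∀ m : ℕ, ((Real.sqrt m)⁻¹) ^ N * (Real.sqrt m) ^ (B x.1).k *
        (((Real.sqrt m)⁻¹) ^ (N + 2) * (Real.sqrt m) ^ (B y.1).k) =
        ((Real.sqrt m)⁻¹) ^ (2 * (N + 1)) * (Real.sqrt m) ^ ((B x.1).k + (B y.1).k) := by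
      intro m
      rw [show 2 * (N + 1) = N + (N + 2) by ring, pow_add, pow_add]
      ring
    simp only [hfac]
    obtain ⟨u1, hu1, -⟩ := hb1' y.1 y.2
    exact h.gmat_lim hb1 (j' := j - 1) (fun i l => by
      obtain ⟨u, hu, hm⟩ := hb1' i l
      exact ⟨u, by omega, hm⟩) (by omega) x y
  · filter_upwards [Filter.eventually_ge_atTop 1] with m hm i hi z hz
    exact h.gen_scaled (j := i) (fun i' l => by
      obtain ⟨u, hu, hm⟩ := hb1' i' l
      exact ⟨u, by omega, hm⟩) (fun i' u hu x hx => hb2' i' u (by omega) x hx) hm hz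
  · exact hfreq.mono fun m hm => hm j hu0p hj

end Compat

end Pool.Agent.V7H39.HS
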